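import Pool.Agent.W99.GP.Jets

set_option autoImplicit false
set_option linter.unusedSimpArgs false

namespace Pool.Agent.W99.GP

noncomputable def xG5 : Ex :=
  .add (.add (.mul (.mul (.c (5 / 12)) (.v (.Q 0))) (.v (.n 0))) (.mul (.c (-13 / 120)) (.v (.Q
  1)))) (.add (.mul (.mul (.c (-1)) (.v (.n 0))) (.v (.n 1))) (.add (.mul (.c (2 / 3)) (.pow (.v
  (.n 0)) 3)) (.mul (.c (1 / 6)) (.v (.n 2)))))

noncomputable def xG7 : Ex :=
  .add (.add (.add (.add (.mul (.mul (.c (83 / 840)) (.v (.Q 0))) (.v (.Q 1))) (.mul (.mul (.mul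
  (.c (2 / 3)) (.v (.Q 0))) (.v (.n 0))) (.v (.n 1)))) (.add (.mul (.mul (.c (1 / 2)) (.v (.Q
  0))) (.pow (.v (.n 0)) 3)) (.mul (.mul (.c (-1 / 8)) (.v (.Q 0))) (.v (.n 2))))) (.add (.add
  (.mul (.mul (.c (-23 / 60)) (.pow (.v (.Q 0)) 2)) (.v (.n 0))) (.mul (.mul (.c (-8 / 15)) (.v
  (.Q 1))) (.pow (.v (.n 0)) 2))) (.add (.mul (.mul (.c (1 / 40)) (.v (.Q 1))) (.v (.n 1))) (.mul
  (.mul (.c (1 / 12)) (.v (.Q 2))) (.v (.n 0)))))) (.add (.add (.add (.mul (.c (-1 / 210)) (.v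
  (.Q 3))) (.mul (.mul (.c (1)) (.v (.n 0))) (.pow (.v (.n 1)) 2))) (.add (.mul (.mul (.c (-1 /
  6)) (.v (.n 0))) (.v (.n 3))) (.mul (.mul (.c (4 / 3)) (.pow (.v (.n 0)) 2)) (.v (.n 2)))))
  (.add (.add (.mul (.mul (.c (-14 / 3)) (.pow (.v (.n 0)) 3)) (.v (.n 1))) (.mul (.c (32 / 15))
  (.pow (.v (.n 0)) 5))) (.add (.mul (.mul (.c (-1 / 6)) (.v (.n 1))) (.v (.n 2))) (.mul (.c (1 /
  120)) (.v (.n 4))))))

noncomputable def xG9 : Ex :=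
  .add (.add (.add (.add (.add (.mul (.mul (.mul (.c (1679 / 1260)) (.v (.Q 0))) (.v (.Q 1)))
  (.pow (.v (.n 0)) 2)) (.mul (.mul (.mul (.c (-211 / 5040)) (.v (.Q 0))) (.v (.Q 1))) (.v (.n
  1)))) (.add (.mul (.mul (.mul (.c (-3079 / 20160)) (.v (.Q 0))) (.v (.Q 2))) (.v (.n 0))) (.add
  (.mul (.mul (.c (863 / 120960)) (.v (.Q 0))) (.v (.Q 3))) (.mul (.mul (.mul (.c (-37 / 24)) (.v
  (.Q 0))) (.v (.n 0))) (.pow (.v (.n 1)) 2))))) (.add (.add (.mul (.mul (.mul (.c (37 / 144))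
  (.v (.Q 0))) (.v (.n 0))) (.v (.n 3))) (.add (.mul (.mul (.mul (.c (-55 / 24)) (.v (.Q 0)))
  (.pow (.v (.n 0)) 2)) (.v (.n 2))) (.mul (.mul (.mul (.c (149 / 18)) (.v (.Q 0))) (.pow (.v (.n
  0)) 3)) (.v (.n 1))))) (.add (.mul (.mul (.c (-143 / 60)) (.v (.Q 0))) (.pow (.v (.n 0)) 5))
  (.add (.mul (.mul (.mul (.c (17 / 72)) (.v (.Q 0))) (.v (.n 1))) (.v (.n 2))) (.mul (.mul (.c
  (-17 / 1440)) (.v (.Q 0))) (.v (.n 4))))))) (.add (.add (.add (.mul (.mul (.c (-167 / 1920))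
  (.pow (.v (.Q 0)) 2)) (.v (.Q 1))) (.mul (.mul (.mul (.c (-149 / 360)) (.pow (.v (.Q 0)) 2))
  (.v (.n 0))) (.v (.n 1)))) (.add (.mul (.mul (.c (-29 / 15)) (.pow (.v (.Q 0)) 2)) (.pow (.v
  (.n 0)) 3)) (.add (.mul (.mul (.c (67 / 720)) (.pow (.v (.Q 0)) 2)) (.v (.n 2))) (.mul (.mul
  (.c (2281 / 6720)) (.pow (.v (.Q 0)) 3)) (.v (.n 0)))))) (.add (.add (.mul (.mul (.c (839 /
  120960)) (.v (.Q 1))) (.v (.Q 2))) (.add (.mul (.mul (.mul (.c (1 / 9)) (.v (.Q 1))) (.v (.n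
  0))) (.v (.n 2))) (.mul (.mul (.mul (.c (-3 / 8)) (.v (.Q 1))) (.pow (.v (.n 0)) 2)) (.v (.n
  1))))) (.add (.mul (.mul (.c (-413 / 360)) (.v (.Q 1))) (.pow (.v (.n 0)) 4)) (.add (.mul (.mul
  (.c (7 / 240)) (.v (.Q 1))) (.pow (.v (.n 1)) 2)) (.mul (.mul (.c (-7 / 1440)) (.v (.Q 1))) (.v
  (.n 3)))))))) (.add (.add (.add (.add (.mul (.mul (.c (-93 / 1120)) (.pow (.v (.Q 1)) 2)) (.v
  (.n 0))) (.mul (.mul (.mul (.c (-1 / 60)) (.v (.Q 2))) (.v (.n 0))) (.v (.n 1)))) (.add (.mul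
  (.mul (.c (79 / 180)) (.v (.Q 2))) (.pow (.v (.n 0)) 3)) (.add (.mul (.mul (.c (-1 / 360)) (.v
  (.Q 2))) (.v (.n 2))) (.mul (.mul (.c (-9 / 140)) (.v (.Q 3))) (.pow (.v (.n 0)) 2))))) (.add
  (.add (.mul (.mul (.c (1 / 504)) (.v (.Q 3))) (.v (.n 1))) (.add (.mul (.mul (.c (17 / 4032))
  (.v (.Q 4))) (.v (.n 0))) (.mul (.c (-13 / 120960)) (.v (.Q 5))))) (.add (.mul (.mul (.mul (.c
  (1 / 4)) (.v (.n 0))) (.v (.n 1))) (.v (.n 3))) (.add (.mul (.mul (.c (-1 / 2)) (.v (.n 0)))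
  (.pow (.v (.n 1)) 3)) (.mul (.mul (.c (1 / 6)) (.v (.n 0))) (.pow (.v (.n 2)) 2)))))) (.add
  (.add (.add (.mul (.mul (.c (-1 / 120)) (.v (.n 0))) (.v (.n 5))) (.add (.mul (.mul (.mul (.c
  (-17 / 6)) (.pow (.v (.n 0)) 2)) (.v (.n 1))) (.v (.n 2))) (.mul (.mul (.c (17 / 120)) (.pow
  (.v (.n 0)) 2)) (.v (.n 4))))) (.add (.mul (.mul (.c (22 / 3)) (.pow (.v (.n 0)) 3)) (.pow (.v
  (.n 1)) 2)) (.add (.mul (.mul (.c (-11 / 9)) (.pow (.v (.n 0)) 3)) (.v (.n 3))) (.mul (.mul (.c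
  (35 / 6)) (.pow (.v (.n 0)) 4)) (.v (.n 2)))))) (.add (.add (.mul (.mul (.c (-227 / 15)) (.pow
  (.v (.n 0)) 5)) (.v (.n 1))) (.add (.mul (.c (538 / 105)) (.pow (.v (.n 0)) 7)) (.mul (.mul (.c
  (-1 / 120)) (.v (.n 1))) (.v (.n 4))))) (.add (.mul (.mul (.c (1 / 12)) (.pow (.v (.n 1)) 2))
  (.v (.n 2))) (.add (.mul (.mul (.c (-1 / 72)) (.v (.n 2))) (.v (.n 3))) (.mul (.c (1 / 5040))
  (.v (.n 6))))))))

theorem alg5 (ρ : Va → ℝ) (w : ℝ) (hw : w ≠ 0) (hs : ρ .s = ρ (.n 0))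
    (hK : ∀ j, ρ (.K j) = w * eval ρ (KK j)) (g b : ℕ → ℝ) (hg0 : g 0 = 0) (hg1 : g 1 = 0)
    (hb0 : b 0 = w) (hb1 : b 1 = -(ρ (.n 0) * w)) (hg : ∀ j, g (j + 2) = eval ρ (BB j))
    (hb : ∀ j, b (j + 2) = eval ρ (CC j))
    (h : ∑ i ∈ Finset.range (5 + 1), (Nat.choose 5 i : ℝ) * (g (5 - i) * ((-1) ^ i * b i)) = 0) :
    eval ρ xG5 = 0 := by
  simp only [Finset.sum_range_succ, Finset.sum_range_zero, Nat.sub_zero, Nat.reduceSub, Nat.sub_self, hg0,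
    hg1, hb0, hb1] at h
  have g2 := hg 0
  rw [eb0] at g2
  simp only [b0, eval, Nat.reduceAdd, zero_add, hs] at g2
  have g3 := hg 1
  rw [eb1] at g3
  simp only [b1, eval, Nat.reduceAdd, zero_add, hs] at g3
  have g4 := hg 2
  rw [eb2] at g4
  simp only [b2, eval, Nat.reduceAdd, zero_add, hs] at g4
  have g5 := hg 3
  rw [eb3] at g5
  simp only [b3, eval, Nat.reduceAdd, zero_add, hs] at g5
  have m0 := hK 0
  rw [ek0] at m0
  simp only [k0, eval] at m0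
  have m1 := hK 1
  rw [ek1] at m1
  simp only [k1, eval] at m1
  have b2 := hb 0
  rw [ec0] at b2
  simp only [c0, eval, Nat.reduceAdd, zero_add, hs, m0] at b2
  have b3 := hb 1
  rw [ec1] at b3
  simp only [c1, eval, Nat.reduceAdd, zero_add, hs, m0, m1] at b3
  simp only [g2, g3, g4, g5, b2, b3] at h
  norm_num [Nat.choose] at h
  apply mul_left_cancel₀ hw
  simp only [xG5, eval]
  linear_combination (1 / 120) * h

theorem alg7 (ρ : Va → ℝ) (w : ℝ) (hw : w ≠ 0) (hs : ρ .s = ρ (.n 0))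
    (hK : ∀ j, ρ (.K j) = w * eval ρ (KK j)) (g b : ℕ → ℝ) (hg0 : g 0 = 0) (hg1 : g 1 = 0)
    (hb0 : b 0 = w) (hb1 : b 1 = -(ρ (.n 0) * w)) (hg : ∀ j, g (j + 2) = eval ρ (BB j))
    (hb : ∀ j, b (j + 2) = eval ρ (CC j))
    (h : ∑ i ∈ Finset.range (7 + 1), (Nat.choose 7 i : ℝ) * (g (7 - i) * ((-1) ^ i * b i)) = 0) :
    eval ρ xG7 = 0 := by
  simp only [Finset.sum_range_succ, Finset.sum_range_zero, Nat.sub_zero, Nat.reduceSub, Nat.sub_self, hg0,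
    hg1, hb0, hb1] at h
  have g2 := hg 0
  rw [eb0] at g2
  simp only [b0, eval, Nat.reduceAdd, zero_add, hs] at g2
  have g3 := hg 1
  rw [eb1] at g3
  simp only [b1, eval, Nat.reduceAdd, zero_add, hs] at g3
  have g4 := hg 2
  rw [eb2] at g4
  simp only [b2, eval, Nat.reduceAdd, zero_add, hs] at g4
  have g5 := hg 3
  rw [eb3] at g5
  simp only [b3, eval, Nat.reduceAdd, zero_add, hs] at g5
  have g6 := hg 4
  rw [eb4] at g6
  simp only [b4, eval, Nat.reduceAdd, zero_add, hs] at g6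
  have g7 := hg 5
  rw [eb5] at g7
  simp only [b5, eval, Nat.reduceAdd, zero_add, hs] at g7
  have m0 := hK 0
  rw [ek0] at m0
  simp only [k0, eval] at m0
  have m1 := hK 1
  rw [ek1] at m1
  simp only [k1, eval] at m1
  have m2 := hK 2
  rw [ek2] at m2
  simp only [k2, eval] at m2
  have m3 := hK 3
  rw [ek3] at m3
  simp only [k3, eval] at m3
  have b2 := hb 0
  rw [ec0] at b2
  simp only [c0, eval, Nat.reduceAdd, zero_add, hs, m0] at b2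
  have b3 := hb 1
  rw [ec1] at b3
  simp only [c1, eval, Nat.reduceAdd, zero_add, hs, m0, m1] at b3
  have b4 := hb 2
  rw [ec2] at b4
  simp only [c2, eval, Nat.reduceAdd, zero_add, hs, m0, m1, m2] at b4
  have b5 := hb 3
  rw [ec3] at b5
  simp only [c3, eval, Nat.reduceAdd, zero_add, hs, m0, m1, m2, m3] at b5
  simp only [g2, g3, g4, g5, g6, g7, b2, b3, b4, b5] at h
  norm_num [Nat.choose] at h
  apply mul_left_cancel₀ hw
  simp only [xG7, eval]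
  linear_combination (1 / 5040) * h

theorem alg9 (ρ : Va → ℝ) (w : ℝ) (hw : w ≠ 0) (hs : ρ .s = ρ (.n 0))
    (hK : ∀ j, ρ (.K j) = w * eval ρ (KK j)) (g b : ℕ → ℝ) (hg0 : g 0 = 0) (hg1 : g 1 = 0)
    (hb0 : b 0 = w) (hb1 : b 1 = -(ρ (.n 0) * w)) (hg : ∀ j, g (j + 2) = eval ρ (BB j))
    (hb : ∀ j, b (j + 2) = eval ρ (CC j))
    (h : ∑ i ∈ Finset.range (9 + 1), (Nat.choose 9 i : ℝ) * (g (9 - i) * ((-1) ^ i * b i)) = 0) :
    eval ρ xG9 = 0 := by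
  simp only [Finset.sum_range_succ, Finset.sum_range_zero, Nat.sub_zero, Nat.reduceSub, Nat.sub_self, hg0,
    hg1, hb0, hb1] at h
  have g2 := hg 0
  rw [eb0] at g2
  simp only [b0, eval, Nat.reduceAdd, zero_add, hs] at g2
  have g3 := hg 1
  rw [eb1] at g3
  simp only [b1, eval, Nat.reduceAdd, zero_add, hs] at g3
  have g4 := hg 2
  rw [eb2] at g4
  simp only [b2, eval, Nat.reduceAdd, zero_add, hs] at g4
  have g5 := hg 3
  rw [eb3] at g5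
  simp only [b3, eval, Nat.reduceAdd, zero_add, hs] at g5
  have g6 := hg 4
  rw [eb4] at g6
  simp only [b4, eval, Nat.reduceAdd, zero_add, hs] at g6
  have g7 := hg 5
  rw [eb5] at g7
  simp only [b5, eval, Nat.reduceAdd, zero_add, hs] at g7
  have g8 := hg 6
  rw [eb6] at g8
  simp only [b6, eval, Nat.reduceAdd, zero_add, hs] at g8
  have g9 := hg 7
  rw [eb7] at g9
  simp only [b7, eval, Nat.reduceAdd, zero_add, hs] at g9
  have m0 := hK 0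
  rw [ek0] at m0
  simp only [k0, eval] at m0
  have m1 := hK 1
  rw [ek1] at m1
  simp only [k1, eval] at m1
  have m2 := hK 2
  rw [ek2] at m2
  simp only [k2, eval] at m2
  have m3 := hK 3
  rw [ek3] at m3
  simp only [k3, eval] at m3
  have m4 := hK 4
  rw [ek4] at m4
  simp only [k4, eval] at m4
  have m5 := hK 5
  rw [ek5] at m5
  simp only [k5, eval] at m5
  have b2 := hb 0
  rw [ec0] at b2
  simp only [c0, eval, Nat.reduceAdd, zero_add, hs, m0] at b2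
  have b3 := hb 1
  rw [ec1] at b3
  simp only [c1, eval, Nat.reduceAdd, zero_add, hs, m0, m1] at b3
  have b4 := hb 2
  rw [ec2] at b4
  simp only [c2, eval, Nat.reduceAdd, zero_add, hs, m0, m1, m2] at b4
  have b5 := hb 3
  rw [ec3] at b5
  simp only [c3, eval, Nat.reduceAdd, zero_add, hs, m0, m1, m2, m3] at b5
  have b6 := hb 4
  rw [ec4] at b6
  simp only [c4, eval, Nat.reduceAdd, zero_add, hs, m0, m1, m2, m3, m4] at b6
  have b7 := hb 5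
  rw [ec5] at b7
  simp only [c5, eval, Nat.reduceAdd, zero_add, hs, m0, m1, m2, m3, m4, m5] at b7
  simp only [g2, g3, g4, g5, g6, g7, g8, g9, b2, b3, b4, b5, b6, b7] at h
  norm_num [Nat.choose] at h
  apply mul_left_cancel₀ hw
  simp only [xG9, eval]
  linear_combination (1 / 362880) * h

end Pool.Agent.W99.GP
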