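import Pool.Agent.W99.GP.Ladder

set_option autoImplicit false

open Filter Topology

namespace Pool.Agent.W99.GP

open Pool.Agent.TH3.PI Pool.Agent.W5h70.PG

section

variable {U W : ℝ × ℝ → ℝ}

/-- the hypothesis on the tangent line at the point of `U = 1` in the direction `θ`, written with
the functions of the line -/
lemma cross (homU : ∀ t : ℝ, 0 < t → ∀ x, U (t • x) = t * U x)
    (homW : ∀ t : ℝ, 0 < t → ∀ x, W (t • x) = t * W x)
    (posU : ∀ x, x ≠ 0 → 0 < U x) (posW : ∀ x, x ≠ 0 → 0 < W x) {θ δ : ℝ}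
    (hp : ∃ c : ℝ, ∀ᶠ s in 𝓝 (0 : ℝ),
      (U (pt U θ + s • tv U θ) - 1) / W (pt U θ + s • tv U θ)
        = (U (pt U θ - (s / (1 + c * s)) • tv U θ) - 1)
          / W (pt U θ - (s / (1 + c * s)) • tv U θ)) :
    ∃ κ : ℝ, ∀ᶠ z in 𝓝 (0 : ℝ),
      (G0 (δ * (κ + uu U 1 θ) / uu U 0 θ) δ θ (uu U) z - (uu U 0 θ - κ * δ * z))
        * G0 (δ * (κ + uu U 1 θ) / uu U 0 θ) δ θ (uu W) (-z)
      = (G0 (δ * (κ + uu U 1 θ) / uu U 0 θ) δ θ (uu U) (-z) - (uu U 0 θ - κ * δ * (-z)))
        * G0 (δ * (κ + uu U 1 θ) / uu U 0 θ) δ θ (uu W) z := by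
  obtain ⟨c, hc⟩ := hp
  have hu := uu0_pos posU θ
  refine ⟨c / 2, ?_⟩
  set κ : ℝ := c / 2 with hκ
  set u := uu U 0 θ with hudef
  set u1 := uu U 1 θ with hu1def
  set e : ℝ := δ * (κ + u1) / u with he
  have hneg : Tendsto (fun s : ℝ => -s) (𝓝 0) (𝓝 0) := by
    simpa using (continuous_neg (G := ℝ)).tendsto 0
  have hmap : Tendsto (fun z : ℝ => δ * z / u / (1 - κ * (δ * z / u))) (𝓝 0) (𝓝 0) := by
    have h1 : ContinuousAt (fun z : ℝ => δ * z / u / (1 - κ * (δ * z / u))) 0 := by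
      apply ContinuousAt.div
      · fun_prop
      · fun_prop
      · simp
    have h2 := h1.tendsto
    simpa using h2
  have hmul : Tendsto (fun z : ℝ => δ * z / u) (𝓝 0) (𝓝 0) := by
    have h1 : ContinuousAt (fun z : ℝ => δ * z / u) 0 := by fun_prop
    simpa using h1.tendsto
  have hev : ∀ᶠ z in 𝓝 (0 : ℝ), 0 < 1 - κ * (δ * z / u) := hmul.eventually (ev_pos κ)
  -- the point of the line in the two parametrisations
  have key : ∀ z : ℝ, 0 < 1 - κ * (δ * z / u) → 0 < 1 - e * z →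
      (U (pt U θ + (δ * z / u / (1 - κ * (δ * z / u))) • tv U θ) - 1)
        / W (pt U θ + (δ * z / u / (1 - κ * (δ * z / u))) • tv U θ)
      = (G0 e δ θ (uu U) z - (u - κ * δ * z)) / G0 e δ θ (uu W) z ∧
      0 < G0 e δ θ (uu W) z := by
    intro z h1 h2
    set X : ℝ × ℝ := ((1 - e * z) * Real.cos θ - δ * z * Real.sin θ,
      (1 - e * z) * Real.sin θ + δ * z * Real.cos θ) with hX
    have hXU : U X = G0 e δ θ (uu U) z := on_line homU (uu0 (f := U)) h2
    have hXW : W X = G0 e δ θ (uu W) z := on_line homW (uu0 (f := W)) h2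
    have hX0 : X ≠ 0 := by
      intro h0
      have e1 : (1 - e * z) * Real.cos θ - δ * z * Real.sin θ = 0 := congrArg Prod.fst h0
      have e2 : (1 - e * z) * Real.sin θ + δ * z * Real.cos θ = 0 := congrArg Prod.snd h0
      have e3 := Real.sin_sq_add_cos_sq θ
      have e4 : 1 - e * z = 0 := by
        linear_combination Real.cos θ * e1 + Real.sin θ * e2 - (1 - e * z) * e3
      linarith
    have hm : 0 < (u * (1 - κ * (δ * z / u)))⁻¹ := inv_pos.2 (mul_pos hu h1)
    have hpt : pt U θ + (δ * z / u / (1 - κ * (δ * z / u))) • tv U θ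
        = (u * (1 - κ * (δ * z / u)))⁻¹ • X := by
      have g1 := h1.ne'
      have g2 := hu.ne'
      have g3 : u - κ * (δ * z) ≠ 0 := by
        intro h0
        apply g1
        field_simp
        linarith
      have g4 : u * (1 - κ * (δ * z / u)) = u - κ * (δ * z) := by
        field_simp
      have g5 : 1 - κ * (δ * z / u) = (u - κ * (δ * z)) / u := by
        field_simp
      rw [g4, g5, hX, he]
      unfold pt tv
      rw [← hudef, ← hu1def]
      obtain ⟨q, hq⟩ : ∃ q, q = u - κ * (δ * z) := ⟨_, rfl⟩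
      rw [← hq] at g3 ⊢
      ext
      · simp only [Prod.smul_mk, Prod.mk_add_mk, smul_eq_mul]
        field_simp
        linear_combination Real.cos θ * hq
      · simp only [Prod.smul_mk, Prod.mk_add_mk, smul_eq_mul]
        field_simp
        linear_combination Real.sin θ * hq
    have hWX : 0 < W X := posW X hX0
    rw [hpt, homU _ hm, homW _ hm, ← hXU, ← hXW]
    refine ⟨?_, hWX⟩
    have g4 : u * (1 - κ * (δ * z / u)) = u - κ * δ * z := by
      have g2 := hu.ne'
      field_simp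
    have g6 : 0 < u - κ * δ * z := by
      rw [← g4]
      exact mul_pos hu h1
    rw [g4]
    have g7 := g6.ne'
    have g8 := hWX.ne'
    field_simp
  filter_upwards [hmap.eventually hc, hev, hneg.eventually hev, ev_pos e,
    hneg.eventually (ev_pos e)] with z a1 a2 a3 a4 a5
  obtain ⟨b1, b2⟩ := key z a2 a4
  obtain ⟨c1, c2⟩ := key (-z) a3 a5
  have b3 : δ * z / u / (1 - κ * (δ * z / u)) / (1 + c * (δ * z / u / (1 - κ * (δ * z / u))))
      = -(δ * (-z) / u / (1 - κ * (δ * (-z) / u))) := by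
    have h1 := a2.ne'
    have h2 := a3.ne'
    have h4 : δ * (-z) / u = -(δ * z / u) := by ring
    rw [h4] at h2 ⊢
    set σ := δ * z / u
    have hcc : c = 2 * κ := by rw [hκ]; ring
    have h3 : 1 + c * (σ / (1 - κ * σ)) = (1 - κ * -σ) / (1 - κ * σ) := by
      rw [hcc]; field_simp; ring
    rw [h3, div_div_div_cancel_right₀ h1]
    ring
  rw [b1, b3, neg_smul, sub_neg_eq_add, c1] at a1
  rw [div_eq_div_iff b2.ne' c2.ne'] at a1
  exact a1

end

end Pool.Agent.W99.GP
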