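import Pool.Agent.W99.GP.Fin

set_option autoImplicit false

open Filter Topology

namespace Pool.Agent.W99.GP

open Pool.Agent.TH3.PI Pool.Agent.W5h70.PG

lemma zero_of_homog {f : ℝ × ℝ → ℝ} (h : ∀ t : ℝ, 0 < t → ∀ x, f (t • x) = t * f x) : f 0 = 0 := by
  have := h 2 two_pos 0
  rw [smul_zero] at this
  linarith

/-- jets of the functions `a cos + b sin` -/
noncomputable def CS (a b : ℝ) : ℕ → ℝ → ℝ
  | 0 => fun t => a * Real.cos t + b * Real.sin t
  | 1 => fun t => b * Real.cos t - a * Real.sin t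
  | j + 2 => fun t => -CS a b j t

lemma hCS (a b : ℝ) : ∀ k t, HasDerivAt (CS a b k) (CS a b (k + 1) t) t := by
  intro k
  induction k using Nat.strong_induction_on with
  | _ k ih =>
    intro t
    match k, ih with
    | 0, _ =>
      refine HasDerivAt.congr_deriv (f := CS a b 0) (((Real.hasDerivAt_cos t).const_mul a).fun_add
        ((Real.hasDerivAt_sin t).const_mul b)) ?_
      simp only [CS]
      ring
    | 1, _ =>
      refine HasDerivAt.congr_deriv (f := CS a b 1) (((Real.hasDerivAt_cos t).const_mul b).fun_sub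
        ((Real.hasDerivAt_sin t).const_mul a)) ?_
      simp only [CS]
      ring
    | j + 2, ih => exact (ih j (by omega) t).fun_neg

lemma R2_CS (a b t : ℝ) : R2 (CS a b) 0 t = 0 := by
  simp only [R2, CS]
  ring

section

variable {U W : ℝ × ℝ → ℝ} {L p p1 w0 w1 : ℝ → ℝ} {Qj Kj nj : ℕ → ℝ → ℝ}

/-- From `n = 0` and `Q = q > 0` to the explicit form of `U` and `W`. -/
theorem explicit (H : Gauge U W L p p1 w0 w1 Qj Kj nj)
    (smU : ContDiffOn ℝ (⊤ : ℕ∞) U {x | x ≠ 0})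
    (homU : ∀ t : ℝ, 0 < t → ∀ x, U (t • x) = t * U x)
    (homW : ∀ t : ℝ, 0 < t → ∀ x, W (t • x) = t * W x)
    (posW : ∀ x, x ≠ 0 → 0 < W x)
    (hn : ∀ t, nj 0 t = 0) {q : ℝ} (hq : 0 < q) (hQ : ∀ t, Qj 0 t = q) :
    ∃ a b c l m k : ℝ, 0 < a ∧ b ^ 2 < a * c ∧ 0 < k ∧
      (∀ x y, U (x, y) = √(a * x ^ 2 + 2 * b * x * y + c * y ^ 2) + (l * x + m * y)) ∧
      ∀ x y, W (x, y) = k * √(a * x ^ 2 + 2 * b * x * y + c * y ^ 2) := by
  have hL := H.Lpos
  have hν0 : ∀ t, L t ^ 2 ≠ 0 := fun t => pow_ne_zero 2 (H.Lpos t).ne'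
  have hw0 : ∀ t, 0 < w0 t := fun t => by
    rw [H.w]
    exact mul_pos (hL t) (uu0_pos posW t)
  have hwc : ∀ t, w0 t = w0 0 := fun t => H.dw.const_of_zero (fun t => by
    have h1 := H.n0 t
    rw [hn, eq_div_iff (mul_pos two_pos (hw0 t)).ne'] at h1
    linarith) t 0
  -- the function `v - 1/q`
  obtain ⟨s1, s2⟩ := second_order hL H.dL H.dp H.Q0 (huu smU)
  set z : ℝ → ℝ := fun t => L t * uu U 0 t - 1 / q with hz
  set z1 : ℝ → ℝ := fun t => p t * (L t * uu U 0 t) + uu U 1 t / L t with hz1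
  have dz : ∀ t, HasDerivAt z (L t ^ 2 * z1 t) t := fun t => (s1 t).sub_const (1 / q)
  have dz1 : ∀ t, HasDerivAt z1 (L t ^ 2 * (-q * z t)) t := fun t => by
    refine (s2 t).congr_deriv ?_
    simp only [smul_eq_mul, H.L3, hQ, hz]
    have := (hL t).ne'
    field_simp
    ring
  have key : ∀ x y : ℝ, ∃ A B : ℝ → ℝ, (∀ t, A t = L t * (x * Real.sin t - y * Real.cos t)) ∧
      (∀ t, B t = p t * (L t * (x * Real.sin t - y * Real.cos t))
        + (x * Real.cos t + y * Real.sin t) / L t) ∧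
      (∀ t, q * A t ^ 2 + B t ^ 2 = q * A 0 ^ 2 + B 0 ^ 2) ∧
      (∀ t, z t * B t - z1 t * A t = z 0 * B 0 - z1 0 * A 0) := by
    intro x y
    obtain ⟨r1, r2⟩ := second_order hL H.dL H.dp H.Q0 (hCS (-y) x)
    have r1' : ∀ t, HasDerivAt (fun t => L t * CS (-y) x 0 t)
        (L t ^ 2 * (p t * (L t * CS (-y) x 0 t) + CS (-y) x 1 t / L t)) t := r1
    have r2' : ∀ t, HasDerivAt (fun t => p t * (L t * CS (-y) x 0 t) + CS (-y) x 1 t / L t)
        (L t ^ 2 * (-q * (L t * CS (-y) x 0 t))) t := fun t => by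
      refine (r2 t).congr_deriv ?_
      simp only [smul_eq_mul, R2_CS, hQ]
      ring
    refine ⟨fun t => L t * CS (-y) x 0 t,
      fun t => p t * (L t * CS (-y) x 0 t) + CS (-y) x 1 t / L t, fun t => ?_, fun t => ?_,
      fun t => ?_, fun t => ?_⟩
    · simp only [CS]
      ring
    · simp only [CS]
      ring
    · have hd : ∀ t, HasDerivAt (fun t => q * (L t * CS (-y) x 0 t) ^ 2
          + (p t * (L t * CS (-y) x 0 t) + CS (-y) x 1 t / L t) ^ 2) 0 t := fun t => by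
        refine ((((r1' t).fun_pow 2).const_mul q).fun_add ((r2' t).fun_pow 2)).congr_deriv ?_
        norm_num
        ring
      exact is_const_of_deriv_eq_zero (fun t => (hd t).differentiableAt) (fun t => (hd t).deriv) t 0
    · have hd : ∀ t, HasDerivAt (fun t => z t * (p t * (L t * CS (-y) x 0 t) + CS (-y) x 1 t / L t)
          - z1 t * (L t * CS (-y) x 0 t)) 0 t := fun t => by
        refine (((dz t).fun_mul (r2' t)).fun_sub ((dz1 t).fun_mul (r1' t))).congr_deriv ?_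
        ring
      exact is_const_of_deriv_eq_zero (fun t => (hd t).differentiableAt) (fun t => (hd t).deriv) t 0
  set L0 := L 0 with hL0
  set p0 := p 0 with hp0
  have hL0pos : 0 < L0 := hL 0
  have hL0ne := hL0pos.ne'
  -- the two forms
  have form : ∀ x y : ℝ, q * (L0 * (x * Real.sin 0 - y * Real.cos 0)) ^ 2
      + (p0 * (L0 * (x * Real.sin 0 - y * Real.cos 0)) + (x * Real.cos 0 + y * Real.sin 0) / L0) ^ 2
      = q ^ 2 * ((1 / (L0 ^ 2 * q ^ 2)) * x ^ 2 + 2 * (-p0 / q ^ 2) * x * y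
        + ((q * L0 ^ 2 + p0 ^ 2 * L0 ^ 2) / q ^ 2) * y ^ 2) := by
    intro x y
    simp only [Real.sin_zero, Real.cos_zero]
    field_simp
    ring
  have main : ∀ x y : ℝ,
      U (x, y) = √((1 / (L0 ^ 2 * q ^ 2)) * x ^ 2 + 2 * (-p0 / q ^ 2) * x * y
        + ((q * L0 ^ 2 + p0 ^ 2 * L0 ^ 2) / q ^ 2) * y ^ 2)
        + (z 0 / L0 * x + (z1 0 * L0 - z 0 * p0 * L0) * y) ∧
      W (x, y) = (q * w0 0) * √((1 / (L0 ^ 2 * q ^ 2)) * x ^ 2 + 2 * (-p0 / q ^ 2) * x * y
        + ((q * L0 ^ 2 + p0 ^ 2 * L0 ^ 2) / q ^ 2) * y ^ 2) := by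
    intro x y
    by_cases hxy : ((x, y) : ℝ × ℝ) = 0
    · have hx : x = 0 := congrArg Prod.fst hxy
      have hy : y = 0 := congrArg Prod.snd hxy
      subst hx
      subst hy
      have h1 : U ((0 : ℝ), (0 : ℝ)) = 0 := zero_of_homog homU
      have h2 : W ((0 : ℝ), (0 : ℝ)) = 0 := zero_of_homog homW
      rw [h1, h2]
      simp
    · set c : ℂ := ⟨x, y⟩ with hc
      have hc0 : c ≠ 0 := by
        intro h
        apply hxy
        have h1 : c.re = 0 := by rw [h]; rfl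
        have h2 : c.im = 0 := by rw [h]; rfl
        ext
        · exact h1
        · exact h2
      have hr : 0 < ‖c‖ := norm_pos_iff.mpr hc0
      have h1 : ‖c‖ * Real.cos c.arg = x := Complex.norm_mul_cos_arg c
      have h2 : ‖c‖ * Real.sin c.arg = y := Complex.norm_mul_sin_arg c
      set r := ‖c‖
      set t := c.arg
      have h3 := homU r hr (Real.cos t, Real.sin t)
      have h4 := homW r hr (Real.cos t, Real.sin t)
      rw [Prod.smul_mk, smul_eq_mul, smul_eq_mul, h1, h2, ← uu0 (f := U)] at h3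
      rw [Prod.smul_mk, smul_eq_mul, smul_eq_mul, h1, h2, ← uu0 (f := W)] at h4
      obtain ⟨A, B, hA, hB, e1, e2⟩ := key x y
      have hLt := hL t
      have hLt' := hLt.ne'
      have a0 : A t = 0 := by
        rw [hA, ← h1, ← h2]
        ring
      have b0 : B t = r / L t := by
        have h5 := Real.sin_sq_add_cos_sq t
        rw [hB, ← h1, ← h2]
        field_simp
        linear_combination h5
      have f1 := e1 t
      rw [a0, b0, hA, hB, form] at f1
      have f2 := e2 t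
      rw [a0, b0, hA, hB] at f2
      simp only [Real.sin_zero, Real.cos_zero] at f2
      set q2 := (1 / (L0 ^ 2 * q ^ 2)) * x ^ 2 + 2 * (-p0 / q ^ 2) * x * y
        + ((q * L0 ^ 2 + p0 ^ 2 * L0 ^ 2) / q ^ 2) * y ^ 2 with hq2
      have hs : √q2 = r / L t / q := by
        have h6 : q2 = (r / L t / q) ^ 2 := by
          have h7 := hq.ne'
          rw [eq_comm, div_pow, div_eq_iff (pow_ne_zero 2 h7)]
          linear_combination f1
        rw [h6]
        exact Real.sqrt_sq (by positivity)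
      rw [hs]
      constructor
      · rw [h3]
        have h8 : L t * uu U 0 t = z t + 1 / q := by simp only [hz]; ring
        have h9 : uu U 0 t = (z t + 1 / q) / L t := by
          rw [eq_div_iff hLt']
          linarith
        rw [h9]
        have h10 : z t * (r / L t) = z 0 / L0 * x + (z1 0 * L0 - z 0 * p0 * L0) * y := by
          have h11 : z 0 / L0 * x + (z1 0 * L0 - z 0 * p0 * L0) * y
              = z 0 * (p 0 * (L 0 * (x * 0 - y * 1)) + (x * 1 + y * 0) / L 0)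
                - z1 0 * (L 0 * (x * 0 - y * 1)) := by
            rw [← hL0, ← hp0]
            field_simp
            ring
          rw [h11, ← f2]
          ring
        rw [← h10]
        ring
      · rw [h4]
        have h8 : uu W 0 t = w0 0 / L t := by
          rw [eq_div_iff hLt', ← hwc t, H.w]
          ring
        rw [h8]
        have := hq.ne'
        field_simp
  refine ⟨1 / (L0 ^ 2 * q ^ 2), -p0 / q ^ 2, (q * L0 ^ 2 + p0 ^ 2 * L0 ^ 2) / q ^ 2, z 0 / L0,
    z1 0 * L0 - z 0 * p0 * L0, q * w0 0, by positivity, ?_, mul_pos hq (hw0 0),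
    fun x y => (main x y).1, fun x y => (main x y).2⟩
  have h1 : 1 / (L0 ^ 2 * q ^ 2) * ((q * L0 ^ 2 + p0 ^ 2 * L0 ^ 2) / q ^ 2) - (-p0 / q ^ 2) ^ 2
      = 1 / q ^ 3 := by
    have := hq.ne'
    field_simp
    ring
  have h2 : 0 < 1 / q ^ 3 := by positivity
  linarith

end

theorem main (U W : ℝ × ℝ → ℝ)
    (smU : ContDiffOn ℝ (⊤ : ℕ∞) U {x | x ≠ 0}) (smW : ContDiffOn ℝ (⊤ : ℕ∞) W {x | x ≠ 0})
    (homU : ∀ t : ℝ, 0 < t → ∀ x, U (t • x) = t * U x)
    (homW : ∀ t : ℝ, 0 < t → ∀ x, W (t • x) = t * W x)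
    (posU : ∀ x, x ≠ 0 → 0 < U x) (posW : ∀ x, x ≠ 0 → 0 < W x)
    (curved : ∀ p v, U p = 1 → v ≠ 0 → fderiv ℝ U p v = 0 →
      0 < deriv (deriv fun s : ℝ => U (p + s • v)) 0)
    (proj : ∀ p v, U p = 1 → v ≠ 0 → fderiv ℝ U p v = 0 →
      ∃ c : ℝ, ∀ᶠ s in 𝓝 (0 : ℝ), (U (p + s • v) - 1) / W (p + s • v)
        = (U (p - (s / (1 + c * s)) • v) - 1) / W (p - (s / (1 + c * s)) • v)) :
    ∃ a b c l m k : ℝ, 0 < a ∧ b ^ 2 < a * c ∧ 0 < k ∧
      (∀ x y, U (x, y) = √(a * x ^ 2 + 2 * b * x * y + c * y ^ 2) + (l * x + m * y)) ∧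
      ∀ x y, W (x, y) = k * √(a * x ^ 2 + 2 * b * x * y + c * y ^ 2) := by
  have hf0 : U 0 = 0 := zero_of_homog homU
  have hne : ∀ θ, pt U θ ≠ 0 := by
    intro θ h
    have := f_pt homU posU θ
    rw [h, hf0] at this
    norm_num at this
  have hfd : ∀ θ, fderiv ℝ U (pt U θ) (tv U θ) = 0 := fun θ =>
    fderiv_zero smU homU posU θ (hne θ)
  have hρ : ∀ t, 0 < R2 (uu U) 0 t := fun θ =>
    curv_pos smU homU posU θ (curved _ _ (f_pt homU posU θ) (tv_ne θ) (hfd θ))
  obtain ⟨L, p, p1, w0, w1, Qj, Kj, nj, H, cL, hLper⟩ := exists_gauge smU smW hρ posW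
  obtain ⟨hn, q, hq, hQ⟩ := flat H cL.continuous hLper smU smW homU homW posU posW
    (fun θ => proj _ _ (f_pt homU posU θ) (tv_ne θ) (hfd θ))
  exact explicit H smU homU homW posW hn hq hQ

end Pool.Agent.W99.GP
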