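import Pool.Agent.W99.GP.Theta
import Pool.Agent.W99.GP.Cert

set_option autoImplicit false
set_option linter.unusedSimpArgs false

open Filter Topology

namespace Pool.Agent.W99.GP

open Pool.Agent.TH3.PI Pool.Agent.W5h70.PG

section

variable {ν : ℝ → ℝ} {Qj Kj nj : ℕ → ℝ → ℝ}

/-- a periodic function cannot have a positive derivative -/
theorem no_pos {T : ℝ} (hT : 0 < T) (hν : ∀ t, 0 < ν t) {v1 v2 : ℝ → ℝ} (h : HD ν v1 v2)
    (hper : ∀ t, v1 (t + T) = v1 t) (hpos : ∀ t, 0 < v2 t) : False := by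
  have hm : StrictMono v1 := strictMono_of_deriv_pos fun t => by
    rw [(h t).deriv]
    exact mul_pos (hν t) (hpos t)
  have h1 := hm (show (0 : ℝ) < 0 + T by linarith)
  rw [hper] at h1
  exact lt_irrefl _ h1

theorem core {T : ℝ} (hT : 0 < T) (hν : ∀ t, 0 < ν t) (hνc : Continuous ν)
    (dQ : ∀ j, HD ν (Qj j) (Qj (j + 1)))
    (dK : ∀ j, HD ν (Kj j) (Kj (j + 1))) (dn : ∀ j, HD ν (nj j) (nj (j + 1)))
    (h5 : ∀ t, eval (rho Qj Kj nj (nj 0 t) t) xG5 = 0)
    (h7 : ∀ t, eval (rho Qj Kj nj (nj 0 t) t) xG7 = 0)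
    (h9 : ∀ t, eval (rho Qj Kj nj (nj 0 t) t) xG9 = 0)
    {v v1 v2 w0 w1 : ℝ → ℝ} (hv1 : HD ν v1 v2) (hv2 : ∀ t, v2 t = 1 - Qj 0 t * v t)
    (hvp : ∀ t, 0 < v t) (hper1 : ∀ t, v1 (t + T) = v1 t)
    (hw : HD ν w0 w1) (hw1 : ∀ t, w1 t = -2 * nj 0 t * w0 t) (hw0 : ∀ t, 0 < w0 t)
    (hwper : w0 T = w0 0) :
    (∀ t, nj 0 t = 0) ∧ ∃ q : ℝ, 0 < q ∧ ∀ t, Qj 0 t = q := by
  have hν0 : ∀ t, ν t ≠ 0 := fun t => (hν t).ne'
  obtain ⟨hQ1, hN4, t0, t1, t2, t3, t4, t5⟩ := reduce hν0 dQ dK dn h5 h7 h9
  have cQ : Continuous (Qj 0) := continuous_iff_continuousAt.2 fun t => (dQ 0 t).continuousAt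
  have cn : ∀ j, Continuous (nj j) := fun j =>
    continuous_iff_continuousAt.2 fun t => (dn j t).continuousAt
  have cn0 := cn 0
  have cn1 := cn 1
  have cn2 := cn 2
  have cn3 := cn 3
  have cw : Continuous w0 := continuous_iff_continuousAt.2 fun t => (hw t).continuousAt
  obtain ⟨c, -, hc⟩ := exists_deriv_eq_zero hT cw.continuousOn hwper.symm
  have hz : nj 0 c = 0 := by
    rw [(hw c).deriv, smul_eq_mul] at hc
    have h1 := (mul_eq_zero.1 hc).resolve_left (hν0 c)
    rw [hw1] at h1
    have h2 := (mul_eq_zero.1 h1).resolve_right (hw0 c).ne'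
    linarith
  have s0 := t0 c
  have s1 := t1 c
  have s2 := t2 c
  have s3 := t3 c
  have s5 := t5 c
  simp only [xT0, xT1, xT2, xT3, xT5, eval, rr, hz] at s0 s1 s2 s3 s5
  have hcert := cert (Qj 0 c) (nj 1 c) (nj 2 c) (nj 3 c) (by linear_combination s0)
    (by linear_combination s1) (by linear_combination s2) (by linear_combination s3)
    (by linear_combination s5)
  rcases hcert with ⟨h1, h2, h3⟩ | ⟨hQ, h2, h3⟩
  · -- `n = 0`
    have key : ∀ (i : Fin 4) t, (![nj 0, nj 1, nj 2, nj 3] : Fin 4 → ℝ → ℝ) i t = 0 := by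
      refine linear_zero (a := ![![fun _ => 0, ν, fun _ => 0, fun _ => 0],
        ![fun _ => 0, fun _ => 0, ν, fun _ => 0], ![fun _ => 0, fun _ => 0, fun _ => 0, ν],
        ![fun t => ν t * ((-34300 / 1859) * Qj 0 t * nj 0 t ^ 2 + (5690 / 143) * Qj 0 t * nj 1 t +
          (36 / 11) * Qj 0 t ^ 2 + (-386560 / 1859) * nj 0 t * nj 2 t +
          (154880 / 169) * nj 0 t ^ 2 * nj 1 t + (-720064 / 1859) * nj 0 t ^ 4 +
          (-47040 / 143) * nj 1 t ^ 2 + (3220 / 143) * nj 3 t), fun _ => 0,
          fun t => ν t * ((-95 / 11) * Qj 0 t + (680 / 13) * nj 1 t), fun _ => 0]])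
        (fun i j => ?_) (fun i t => ?_) (t₀ := c) (fun i => ?_)
      · fin_cases i <;> fin_cases j <;> simp <;> fun_prop
      · rw [Fin.sum_univ_four]
        fin_cases i
        · refine (dn 0 t).congr_deriv ?_
          simp
        · refine (dn 1 t).congr_deriv ?_
          simp
        · refine (dn 2 t).congr_deriv ?_
          simp
        · refine (dn 3 t).congr_deriv ?_
          have := hN4 t
          simp only [xN4, eval, rr] at this
          simp
          rw [this]
          ring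
      · fin_cases i
        · exact hz
        · exact h1
        · exact h2
        · exact h3
    have hn : ∀ t, nj 0 t = 0 := fun t => key 0 t
    have hn1 : ∀ t, nj 1 t = 0 := fun t => key 1 t
    have hn2 : ∀ t, nj 2 t = 0 := fun t => key 2 t
    refine ⟨hn, Qj 0 0, ?_, ?_⟩
    · have hconst : ∀ t, Qj 0 t = Qj 0 0 := fun t => (dQ 0).const_of_zero (fun t => by
        have h := hQ1 t
        simp only [xQ1, eval, rr, hn, hn2] at h
        rw [zero_add, h]
        ring) t 0
      by_contra hneg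
      push Not at hneg
      refine no_pos hT hν hv1 hper1 fun t => ?_
      rw [hv2, hconst]
      nlinarith [hvp t]
    · exact fun t => (dQ 0).const_of_zero (fun t => by
        have h := hQ1 t
        simp only [xQ1, eval, rr, hn, hn2] at h
        rw [zero_add, h]
        ring) t 0
  · exfalso
    set H : ℝ → ℝ := fun t => nj 2 t - 6 * (nj 0 t * nj 1 t) + 4 * (nj 0 t * (nj 0 t * nj 0 t)) with hH
    set H1 : ℝ → ℝ := fun t => nj 3 t - 6 * (nj 1 t * nj 1 t + nj 0 t * nj 2 t) +
      4 * (nj 1 t * (nj 0 t * nj 0 t) + nj 0 t * (nj 1 t * nj 0 t + nj 0 t * nj 1 t)) with hH1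
    have dH : ∀ t, HasDerivAt H (ν t * H1 t) t := fun t => by
      have h1 := dn 0 t
      have h2 := dn 1 t
      have h3 := dn 2 t
      simp only [zero_add, smul_eq_mul] at h1
      simp only [smul_eq_mul] at h2 h3
      refine ((h3.fun_sub ((h1.fun_mul h2).const_mul 6)).fun_add
        ((h1.fun_mul (h1.fun_mul h1)).const_mul 4)).congr_deriv ?_
      simp only [hH1]
      ring
    have key : ∀ (i : Fin 3) t, (![Qj 0, H, H1] : Fin 3 → ℝ → ℝ) i t = 0 := by
      refine linear_zero (a := ![![fun t => ν t * ((50 / 13) * nj 0 t), fun t => ν t * (20 / 13),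
          fun _ => 0],
        ![fun _ => 0, fun _ => 0, ν],
        ![fun t => ν t * (2720 / 169 * nj 0 t ^ 3 + 36 / 11 * Qj 0 t * nj 0 t
            - 1720 / 143 * nj 0 t * nj 1 t),
          fun t => ν t * (-95 / 11 * Qj 0 t - 180016 / 1859 * nj 0 t ^ 2 + 446 / 13 * nj 1 t),
          fun t => ν t * (2362 / 143 * nj 0 t)]])
        (fun i j => ?_) (fun i t => ?_) (t₀ := c) (fun i => ?_)
      · fin_cases i <;> fin_cases j <;> simp <;> fun_prop
      · rw [Fin.sum_univ_three]
        fin_cases i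
        · refine (dQ 0 t).congr_deriv ?_
          have := hQ1 t
          simp only [xQ1, eval, rr] at this
          simp
          rw [this]
          simp only [hH]
          ring
        · refine (dH t).congr_deriv ?_
          simp
        · have h1 := dn 0 t
          have h2 := dn 1 t
          have h3 := dn 2 t
          have h4 := dn 3 t
          have h5 := hN4 t
          simp only [zero_add, smul_eq_mul] at h1
          simp only [smul_eq_mul] at h2 h3 h4
          rw [show 3 + 1 = 4 from rfl, h5] at h4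
          simp only [xN4, eval, rr] at h4
          have h6 : HasDerivAt H1 _ t := (h4.fun_sub (((h2.fun_mul h2).fun_add
            (h1.fun_mul h3)).const_mul 6)).fun_add
            (((h2.fun_mul (h1.fun_mul h1)).fun_add (h1.fun_mul ((h2.fun_mul h1).fun_add
              (h1.fun_mul h2)))).const_mul 4)
          refine h6.congr_deriv ?_
          simp [hH, hH1]
          ring
      · fin_cases i
        · exact hQ
        · simp [hH, hz, h2]
        · simp [hH1, hz, h3]
          ring
    have hQ0 : ∀ t, Qj 0 t = 0 := fun t => key 0 t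
    refine no_pos hT hν hv1 hper1 fun t => ?_
    rw [hv2, hQ0]
    norm_num

end

end Pool.Agent.W99.GP
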