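import Mathlib

set_option autoImplicit false

open Filter Topology

namespace Pool.Agent.W99.GP

/-- variables: the invariant `s` of a line and the jets of three functions -/
inductive Va
  | s : Va
  | Q : ℕ → Va
  | K : ℕ → Va
  | n : ℕ → Va

/-- polynomial expressions -/
inductive Ex
  | c : ℝ → Ex
  | v : Va → Ex
  | add : Ex → Ex → Ex
  | mul : Ex → Ex → Ex
  | pow : Ex → ℕ → Ex

noncomputable def eval (ρ : Va → ℝ) : Ex → ℝ
  | .c q => q
  | .v i => ρ i
  | .add a b => eval ρ a + eval ρ b
  | .mul a b => eval ρ a * eval ρ b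
  | .pow a n => eval ρ a ^ n

/-- the derivation with `x ↦ V x` on the variables -/
noncomputable def der (V : Va → Ex) : Ex → Ex
  | .c _ => .c 0
  | .v i => V i
  | .add a b => .add (der V a) (der V b)
  | .mul a b => .add (.mul (der V a) b) (.mul a (der V b))
  | .pow a n => .mul (.mul (.c n) (.pow a (n - 1))) (der V a)

theorem hasDerivAt_eval {ρ : ℝ → Va → ℝ} {V : Va → Ex} {φ t : ℝ}
    (h : ∀ i, HasDerivAt (fun t => ρ t i) (φ * eval (ρ t) (V i)) t) (e : Ex) :
    HasDerivAt (fun t => eval (ρ t) e) (φ * eval (ρ t) (der V e)) t := by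
  induction e with
  | c q => simpa [eval, der] using hasDerivAt_const t q
  | v i => exact h i
  | add a b ha hb =>
    refine (ha.add hb).congr_deriv ?_
    simp only [eval, der]
    ring
  | mul a b ha hb =>
    refine (ha.mul hb).congr_deriv ?_
    simp only [eval, der]
    ring
  | pow a n ha =>
    refine (ha.pow n).congr_deriv ?_
    simp only [eval, der]
    ring

/-- the derivation is well defined on polynomial functions -/
theorem der_congr {V : Va → Ex} {a b : Ex} (h : ∀ ρ, eval ρ a = eval ρ b) (ρ : Va → ℝ) :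
    eval ρ (der V a) = eval ρ (der V b) := by
  have key : ∀ e, HasDerivAt (fun t : ℝ => eval (fun i => ρ i + t * eval ρ (V i)) e)
      (1 * eval (fun i => ρ i + (0 : ℝ) * eval ρ (V i)) (der V e)) 0 := by
    intro e
    refine hasDerivAt_eval (ρ := fun t i => ρ i + t * eval ρ (V i)) (φ := 1) (fun i => ?_) e
    have h1 : HasDerivAt (fun t : ℝ => ρ i + t * eval ρ (V i)) (1 * eval ρ (V i)) 0 :=
      ((hasDerivAt_id (0 : ℝ)).mul_const (eval ρ (V i))).const_add (ρ i)
    refine h1.congr_deriv ?_
    simp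
  have h1 := key a
  have h2 := key b
  have e1 : (fun t : ℝ => eval (fun i => ρ i + t * eval ρ (V i)) a)
      = fun t => eval (fun i => ρ i + t * eval ρ (V i)) b := funext fun t => h _
  rw [e1] at h1
  have h3 := h1.unique h2
  simpa using h3

/-- `s ↦ s² + Q₀`, and each jet goes to the next one -/
noncomputable def Vf : Va → Ex
  | .s => .add (.pow (.v .s) 2) (.v (.Q 0))
  | .Q j => .v (.Q (j + 1))
  | .K j => .v (.K (j + 1))
  | .n j => .v (.n (j + 1))

/-- the derivation for functions of the parameter: here `s` is the jet `n₀` -/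
noncomputable def Vt : Va → Ex
  | .s => .v (.n 1)
  | .Q j => .v (.Q (j + 1))
  | .K j => .v (.K (j + 1))
  | .n j => .v (.n (j + 1))

/-- one step of the ladder of the derivatives along a line -/
noncomputable def lad (e : Ex) (j : ℕ) : Ex :=
  .add (der Vf e) (.mul (.mul (.c (-(2 * j + 3))) (.v .s)) e)

noncomputable def BB : ℕ → Ex
  | 0 => .c 1
  | j + 1 => lad (BB j) j

noncomputable def CC : ℕ → Ex
  | 0 => .v (.K 0)
  | j + 1 => lad (CC j) j

/-- `K_j / w` in terms of the jets of `n` and `Q` -/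
noncomputable def KK : ℕ → Ex
  | 0 => .add (.mul (.c 4) (.pow (.v (.n 0)) 2)) (.add (.mul (.c (-2)) (.v (.n 1))) (.v (.Q 0)))
  | j + 1 => .add (der Vt (KK j)) (.mul (.mul (.c (-2)) (.v (.n 0))) (KK j))

theorem lad_congr {a b : Ex} (h : ∀ ρ, eval ρ a = eval ρ b) (j : ℕ) (ρ : Va → ℝ) :
    eval ρ (lad a j) = eval ρ (lad b j) := by
  simp only [lad, eval]
  rw [der_congr h, h]

end Pool.Agent.W99.GP
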