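import Pool.Agent.W99.GP.Setup

set_option autoImplicit false

open Filter Topology

namespace Pool.Agent.W99.GP

open Pool.Agent.TH3.PI Pool.Agent.W5h70.PG

section

variable {U W : ℝ × ℝ → ℝ} {L p p1 w0 w1 : ℝ → ℝ} {Qj Kj nj : ℕ → ℝ → ℝ}

/-- `K_j` in terms of the jets of `n` and `Q` -/
lemma K_eq (H : Gauge U W L p p1 w0 w1 Qj Kj nj) (smW : ContDiffOn ℝ (⊤ : ℕ∞) W {x | x ≠ 0})
    (hw0 : ∀ t, 0 < w0 t) (j : ℕ) :
    ∀ t, Kj j t = w0 t * eval (rho Qj Kj nj (nj 0 t) t) (KK j) := by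
  have hν0 : ∀ t, L t ^ 2 ≠ 0 := fun t => pow_ne_zero 2 (H.Lpos t).ne'
  have hw1 : ∀ t, w1 t = -2 * nj 0 t * w0 t := fun t => by
    have := (hw0 t).ne'
    rw [H.n0]
    field_simp
  induction j with
  | zero =>
    intro t
    obtain ⟨s1, s2⟩ := second_order H.Lpos H.dL H.dp H.Q0 (huu smW)
    have s3 : HD (fun t => L t ^ 2) w0 (fun t => p t * (L t * uu W 0 t) + uu W 1 t / L t) :=
      s1.congr (fun t => (H.w t).symm) fun t => rfl
    have e1 : ∀ t, w1 t = p t * (L t * uu W 0 t) + uu W 1 t / L t := H.dw.unique hν0 s3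
    have s4 := s2.congr (fun t => (e1 t).symm) fun t => rfl
    have s5 : HD (fun t => L t ^ 2) w1 _ :=
      (((H.dn 0).const_smul (-2)).mul H.dw).congr
        (fun t => by rw [hw1]; simp) (fun t => rfl)
    have e2 := s4.unique hν0 s5 t
    simp only [smul_eq_mul, zero_add] at e2
    rw [hw1, ← H.K0, ← H.w] at e2
    simp only [KK, eval, rho]
    linear_combination e2
  | succ j ih =>
    intro t
    have h1 := (H.dw.mul (HD_rt H.dQ H.dK H.dn (KK j))).congr (fun t => (ih t).symm)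
      fun t => rfl
    have h2 := (H.dK j).unique hν0 h1 t
    rw [h2, hw1]
    rw [show KK (j + 1) = .add (der Vt (KK j)) (.mul (.mul (.c (-2)) (.v (.n 0))) (KK j)) from rfl]
    simp only [eval]
    rw [show rho Qj Kj nj (nj 0 t) t (Va.n 0) = nj 0 t from rfl]
    ring

/-- The hypothesis gives `n = 0` and constant `Q > 0`. -/
theorem flat (H : Gauge U W L p p1 w0 w1 Qj Kj nj) (cL : Continuous L)
    (hLper : ∀ t, L (t + 2 * Real.pi) = L t)
    (smU : ContDiffOn ℝ (⊤ : ℕ∞) U {x | x ≠ 0}) (smW : ContDiffOn ℝ (⊤ : ℕ∞) W {x | x ≠ 0})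
    (homU : ∀ t : ℝ, 0 < t → ∀ x, U (t • x) = t * U x)
    (homW : ∀ t : ℝ, 0 < t → ∀ x, W (t • x) = t * W x)
    (posU : ∀ x, x ≠ 0 → 0 < U x) (posW : ∀ x, x ≠ 0 → 0 < W x)
    (hp : ∀ θ, ∃ c : ℝ, ∀ᶠ s in 𝓝 (0 : ℝ),
      (U (pt U θ + s • tv U θ) - 1) / W (pt U θ + s • tv U θ)
        = (U (pt U θ - (s / (1 + c * s)) • tv U θ) - 1)
          / W (pt U θ - (s / (1 + c * s)) • tv U θ)) :
    (∀ t, nj 0 t = 0) ∧ ∃ q : ℝ, 0 < q ∧ ∀ t, Qj 0 t = q := by
  have hL := H.Lpos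
  have hw0 : ∀ t, 0 < w0 t := fun t => by
    rw [H.w]
    exact mul_pos (hL t) (uu0_pos posW t)
  have hw1 : ∀ t, w1 t = -2 * nj 0 t * w0 t := fun t => by
    have := (hw0 t).ne'
    rw [H.n0]
    field_simp
  have key : ∀ θ, eval (rho Qj Kj nj (nj 0 θ) θ) xG5 = 0 ∧
      eval (rho Qj Kj nj (nj 0 θ) θ) xG7 = 0 ∧ eval (rho Qj Kj nj (nj 0 θ) θ) xG9 = 0 := by
    intro θ
    obtain ⟨κ, hκ⟩ := cross homU homW posU posW (δ := (L θ ^ 2)⁻¹) (hp θ)
    obtain ⟨g, b, g0, g1, b0, b1, g2, b2, h⟩ := rel H smU smW rfl (uu0_pos posU θ) (hw0 θ) hκ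
    have hK : ∀ j, rho Qj Kj nj (nj 0 θ) θ (.K j)
        = w0 θ * eval (rho Qj Kj nj (nj 0 θ) θ) (KK j) := fun j => K_eq H smW hw0 j θ
    exact ⟨alg5 _ _ (hw0 θ).ne' rfl hK g b g0 g1 b0 b1 g2 b2 (h 5 (by decide)),
      alg7 _ _ (hw0 θ).ne' rfl hK g b g0 g1 b0 b1 g2 b2 (h 7 (by decide)),
      alg9 _ _ (hw0 θ).ne' rfl hK g b g0 g1 b0 b1 g2 b2 (h 9 (by decide))⟩
  obtain ⟨s1, s2⟩ := second_order hL H.dL H.dp H.Q0 (huu smU)
  have hpper : ∀ t, p (t + 2 * Real.pi) = p t := by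
    have h1 : ∀ t, HasDerivAt L ((L t ^ 2) • (p (t + 2 * Real.pi) * L t)) t := fun t => by
      have h2 := H.dL (t + 2 * Real.pi)
      have h3 := HasDerivAt.comp_add_const t (2 * Real.pi) h2
      have h4 : (fun x => L (x + 2 * Real.pi)) = L := funext hLper
      rw [h4] at h3
      refine h3.congr_deriv ?_
      simp only [hLper]
    intro t
    have h5 := (h1 t).unique (H.dL t)
    have h6 := (hL t).ne'
    simp only [smul_eq_mul] at h5
    have h7 : L t ^ 3 * (p (t + 2 * Real.pi) - p t) = 0 := by linear_combination h5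
    have h8 := (mul_eq_zero.1 h7).resolve_left (pow_ne_zero 3 h6)
    linarith
  refine core (T := 2 * Real.pi) (by positivity) (ν := fun t => L t ^ 2)
    (fun t => pow_pos (hL t) 2) (cL.pow 2) H.dQ H.dK H.dn (fun t => (key t).1)
    (fun t => (key t).2.1) (fun t => (key t).2.2) (v := fun t => L t * uu U 0 t) s2
    (fun t => ?_) (fun t => mul_pos (hL t) (uu0_pos posU t)) (fun t => ?_) H.dw hw1 hw0 ?_
  · simp only [H.L3]
    rw [div_self (pow_ne_zero 3 (hL t).ne')]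
  · simp only [hLper, hpper, uu_per]
  · rw [H.w, H.w]
    have h1 := hLper 0
    have h2 := uu_per (f := W) 0 0
    rw [zero_add] at h1 h2
    rw [h1, h2]

end

end Pool.Agent.W99.GP
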