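import Pool.Agent.W99.GP.Concl

/-!
# MP_ae5b4e_an: foliations by the curves `U - r W = 1`

`U` and `W` are two arbitrary smooth positive functions on the punctured plane, positively
homogeneous of degree one. The curve `γ = {U = 1}` is closed and `curved` says that it has positive
curvature (on the tangent line at `p` the function `U` has a nondegenerate minimum at `p`). The
leaves are the curves `γ_r = {U - r W = 1}`: they foliate the exterior side of `γ` for small
`r ≥ 0`, with the first integral `F = (U - 1) / W`. Geometrically: a point `O` is given inside `γ`,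
and on each ray from `O` the parameter `r` of the leaves is a projective coordinate with `r = ∞`
at `O`; `γ` and one further leaf can be chosen arbitrarily. (For `W = U` these are the
homothetic copies of `γ`.)

`proj` says that for every `p` in `γ` the involution of the tangent line at `p`, which exchanges
the two intersection points of the leaves near `p`, is projective: a projective involution of the
line (coordinate `s`) that fixes `s = 0` and exchanges the two sides is `s ↦ -s / (1 + c s)`.

Conclusion: there are a positive definite quadratic form `q = a x² + 2 b x y + c y²` and a linear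
form `l x + m y` with `U = √q + (l x + m y)` and `W = k √q`. So `γ` is an ellipse,
`γ = {q = (1 - l x - m y)²}` (`q - (l x + m y)²` is positive definite), and the leaf `γ_r` lies on
the conic `(1 - r k)² q = (1 - l x - m y)²` of the pencil spanned by `q` and the square of
`1 - l x - m y`.
-/

set_option autoImplicit false

open Filter Topology

namespace Pool.Agent.Results.MP_ae5b4e_an.GaugePencils

theorem result (U W : ℝ × ℝ → ℝ)
    (smoothU : ContDiffOn ℝ (⊤ : ℕ∞) U {x | x ≠ 0})
    (smoothW : ContDiffOn ℝ (⊤ : ℕ∞) W {x | x ≠ 0})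
    (homogU : ∀ t : ℝ, 0 < t → ∀ x, U (t • x) = t * U x)
    (homogW : ∀ t : ℝ, 0 < t → ∀ x, W (t • x) = t * W x)
    (posU : ∀ x, x ≠ 0 → 0 < U x) (posW : ∀ x, x ≠ 0 → 0 < W x)
    (curved : ∀ p v, U p = 1 → v ≠ 0 → fderiv ℝ U p v = 0 →
      0 < deriv (deriv fun s : ℝ => U (p + s • v)) 0)
    (proj : ∀ p v, U p = 1 → v ≠ 0 → fderiv ℝ U p v = 0 →
      ∃ c : ℝ, ∀ᶠ s in 𝓝 (0 : ℝ), (U (p + s • v) - 1) / W (p + s • v)
        = (U (p - (s / (1 + c * s)) • v) - 1) / W (p - (s / (1 + c * s)) • v)) :
    ∃ a b c l m k : ℝ, 0 < k ∧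
      -- `q` and `q - (l x + m y)²` are positive definite
      (0 < a ∧ b ^ 2 < a * c) ∧ (0 < a - l ^ 2 ∧ (b - l * m) ^ 2 < (a - l ^ 2) * (c - m ^ 2)) ∧
      (∀ x y, U (x, y) = √(a * x ^ 2 + 2 * b * x * y + c * y ^ 2) + (l * x + m * y)) ∧
      (∀ x y, W (x, y) = k * √(a * x ^ 2 + 2 * b * x * y + c * y ^ 2)) ∧
      -- `γ` is the ellipse `q = (1 - l x - m y)²`
      (∀ x y, U (x, y) = 1 ↔
        a * x ^ 2 + 2 * b * x * y + c * y ^ 2 = (1 - l * x - m * y) ^ 2) ∧
      -- the leaves lie on the conics of one pencil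
      ∀ r x y, U (x, y) - r * W (x, y) = 1 →
        (1 - r * k) ^ 2 * (a * x ^ 2 + 2 * b * x * y + c * y ^ 2) = (1 - l * x - m * y) ^ 2 := by
  obtain ⟨a, b, c, l, m, k, ha, hb, hk, hU, hW⟩ := Pool.Agent.W99.GP.main U W smoothU smoothW homogU
    homogW posU posW curved proj
  have hq : ∀ x y : ℝ, 0 ≤ a * x ^ 2 + 2 * b * x * y + c * y ^ 2 := by
    intro x y
    have h1 : a * (a * x ^ 2 + 2 * b * x * y + c * y ^ 2)
        = (a * x + b * y) ^ 2 + (a * c - b ^ 2) * y ^ 2 := by ring
    have h2 : 0 ≤ (a * x + b * y) ^ 2 + (a * c - b ^ 2) * y ^ 2 := by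
      have : 0 ≤ (a * c - b ^ 2) := by linarith
      positivity
    rw [← h1] at h2
    exact (mul_nonneg_iff_of_pos_left ha).1 h2
  have hpos : ∀ x y : ℝ, ((x, y) : ℝ × ℝ) ≠ 0 →
      |l * x + m * y| < √(a * x ^ 2 + 2 * b * x * y + c * y ^ 2) := by
    intro x y hxy
    have h1 := posU (x, y) hxy
    have h2 := posU (-x, -y) (by
      intro h
      apply hxy
      have e1 : -x = 0 := congrArg Prod.fst h
      have e2 : -y = 0 := congrArg Prod.snd h
      ext
      · simpa using e1
      · simpa using e2)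
    rw [hU] at h1 h2
    have h3 : a * (-x) ^ 2 + 2 * b * -x * -y + c * (-y) ^ 2
        = a * x ^ 2 + 2 * b * x * y + c * y ^ 2 := by ring
    rw [h3] at h2
    rw [abs_lt]
    constructor <;> linarith
  have hsq : ∀ x y : ℝ, ((x, y) : ℝ × ℝ) ≠ 0 →
      0 < (a * x ^ 2 + 2 * b * x * y + c * y ^ 2) - (l * x + m * y) ^ 2 := by
    intro x y hxy
    have h1 := hpos x y hxy
    have h2 := Real.sq_sqrt (hq x y)
    have h3 := abs_nonneg (l * x + m * y)
    have h4 := sq_abs (l * x + m * y)
    nlinarith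
  have hal : 0 < a - l ^ 2 := by
    have h1 := hsq 1 0 (by simp)
    nlinarith
  refine ⟨a, b, c, l, m, k, hk, ⟨ha, hb⟩, ⟨hal, ?_⟩, hU, hW, fun x y => ⟨fun h => ?_, fun h => ?_⟩,
    fun r x y h => ?_⟩
  · have h1 := hsq (-(b - l * m)) (a - l ^ 2) (by
      intro h
      have e2 : a - l ^ 2 = 0 := congrArg Prod.snd h
      linarith)
    have h2 : (a * (-(b - l * m)) ^ 2 + 2 * b * (-(b - l * m)) * (a - l ^ 2)
        + c * (a - l ^ 2) ^ 2) - (l * (-(b - l * m)) + m * (a - l ^ 2)) ^ 2
        = (a - l ^ 2) * ((a - l ^ 2) * (c - m ^ 2) - (b - l * m) ^ 2) := by ring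
    rw [h2] at h1
    have h3 := (mul_pos_iff_of_pos_left hal).1 h1
    linarith
  · rw [hU] at h
    have h1 := Real.sq_sqrt (hq x y)
    rw [← h1]
    have h2 : √(a * x ^ 2 + 2 * b * x * y + c * y ^ 2) = 1 - l * x - m * y := by linarith
    rw [h2]
  · rw [hU, h, Real.sqrt_sq_eq_abs]
    rcases le_total 0 (1 - l * x - m * y) with h1 | h1
    · rw [abs_of_nonneg h1]
      ring
    · exfalso
      have hxy : ((x, y) : ℝ × ℝ) ≠ 0 := by
        intro h0
        have e1 : x = 0 := congrArg Prod.fst h0
        have e2 : y = 0 := congrArg Prod.snd h0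
        rw [e1, e2] at h1
        norm_num at h1
      have h2 := hpos x y hxy
      rw [h, Real.sqrt_sq_eq_abs, abs_of_nonpos h1] at h2
      have h3 := le_abs_self (l * x + m * y)
      linarith
  · rw [hU, hW] at h
    have h1 := Real.sq_sqrt (hq x y)
    have h2 : (1 - r * k) * √(a * x ^ 2 + 2 * b * x * y + c * y ^ 2) = 1 - l * x - m * y := by
      linear_combination h
    rw [← h2, mul_pow, h1]

end Pool.Agent.Results.MP_ae5b4e_an.GaugePencils
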