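import Pool.Agent.W99.GP.Ex

set_option autoImplicit false
set_option linter.unusedSimpArgs false

namespace Pool.Agent.W99.GP

noncomputable def b0 : Ex :=
  .c (1)

noncomputable def b1 : Ex :=
  .mul (.c (-3)) (.v .s)

noncomputable def b2 : Ex :=
  .add (.mul (.c (-3)) (.v (.Q 0))) (.mul (.c (12)) (.pow (.v .s) 2))

noncomputable def b3 : Ex :=
  .add (.mul (.mul (.c (45)) (.v (.Q 0))) (.v .s)) (.add (.mul (.c (-3)) (.v (.Q 1))) (.mul (.c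
  (-60)) (.pow (.v .s) 3)))

noncomputable def b4 : Ex :=
  .add (.add (.mul (.mul (.c (-540)) (.v (.Q 0))) (.pow (.v .s) 2)) (.mul (.c (45)) (.pow (.v (.Q
  0)) 2))) (.add (.mul (.mul (.c (72)) (.v (.Q 1))) (.v .s)) (.add (.mul (.c (-3)) (.v (.Q 2)))
  (.mul (.c (360)) (.pow (.v .s) 4))))

noncomputable def b5 : Ex :=
  .add (.add (.mul (.mul (.c (162)) (.v (.Q 0))) (.v (.Q 1))) (.add (.mul (.mul (.c (6300)) (.v
  (.Q 0))) (.pow (.v .s) 3)) (.mul (.mul (.c (-1575)) (.pow (.v (.Q 0)) 2)) (.v .s)))) (.add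
  (.add (.mul (.mul (.c (-1260)) (.v (.Q 1))) (.pow (.v .s) 2)) (.mul (.mul (.c (105)) (.v (.Q
  2))) (.v .s))) (.add (.mul (.c (-3)) (.v (.Q 3))) (.mul (.c (-2520)) (.pow (.v .s) 5))))

noncomputable def b6 : Ex :=
  .add (.add (.add (.mul (.mul (.mul (.c (-7776)) (.v (.Q 0))) (.v (.Q 1))) (.v .s)) (.mul (.mul
  (.c (267)) (.v (.Q 0))) (.v (.Q 2)))) (.add (.mul (.mul (.c (-75600)) (.v (.Q 0))) (.pow (.v
  .s) 4)) (.add (.mul (.mul (.c (37800)) (.pow (.v (.Q 0)) 2)) (.pow (.v .s) 2)) (.mul (.c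
  (-1575)) (.pow (.v (.Q 0)) 3))))) (.add (.add (.mul (.mul (.c (20160)) (.v (.Q 1))) (.pow (.v
  .s) 3)) (.add (.mul (.c (162)) (.pow (.v (.Q 1)) 2)) (.mul (.mul (.c (-2520)) (.v (.Q 2)))
  (.pow (.v .s) 2)))) (.add (.mul (.mul (.c (144)) (.v (.Q 3))) (.v .s)) (.add (.mul (.c (-3))
  (.v (.Q 4))) (.mul (.c (20160)) (.pow (.v .s) 6)))))

noncomputable def b7 : Ex :=
  .add (.add (.add (.mul (.mul (.mul (.c (244944)) (.v (.Q 0))) (.v (.Q 1))) (.pow (.v .s) 2))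
  (.add (.mul (.mul (.mul (.c (-16821)) (.v (.Q 0))) (.v (.Q 2))) (.v .s)) (.mul (.mul (.c (411))
  (.v (.Q 0))) (.v (.Q 3))))) (.add (.add (.mul (.mul (.c (952560)) (.v (.Q 0))) (.pow (.v .s)
  5)) (.mul (.mul (.c (-12501)) (.pow (.v (.Q 0)) 2)) (.v (.Q 1)))) (.add (.mul (.mul (.c
  (-793800)) (.pow (.v (.Q 0)) 2)) (.pow (.v .s) 3)) (.mul (.mul (.c (99225)) (.pow (.v (.Q 0))
  3)) (.v .s))))) (.add (.add (.add (.mul (.mul (.c (591)) (.v (.Q 1))) (.v (.Q 2))) (.mul (.mul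
  (.c (-317520)) (.v (.Q 1))) (.pow (.v .s) 4))) (.add (.mul (.mul (.c (-10206)) (.pow (.v (.Q
  1)) 2)) (.v .s)) (.mul (.mul (.c (52920)) (.v (.Q 2))) (.pow (.v .s) 3)))) (.add (.add (.mul
  (.mul (.c (-4536)) (.v (.Q 3))) (.pow (.v .s) 2)) (.mul (.mul (.c (189)) (.v (.Q 4))) (.v .s)))
  (.add (.mul (.c (-3)) (.v (.Q 5))) (.mul (.c (-181440)) (.pow (.v .s) 7)))))

noncomputable def c0 : Ex :=
  .mul (.c (1)) (.v (.K 0))

noncomputable def c1 : Ex :=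
  .add (.mul (.mul (.c (-3)) (.v (.K 0))) (.v .s)) (.mul (.c (1)) (.v (.K 1)))

noncomputable def c2 : Ex :=
  .add (.add (.mul (.mul (.c (-3)) (.v (.K 0))) (.v (.Q 0))) (.mul (.mul (.c (12)) (.v (.K 0)))
  (.pow (.v .s) 2))) (.add (.mul (.mul (.c (-8)) (.v (.K 1))) (.v .s)) (.mul (.c (1)) (.v (.K
  2))))

noncomputable def c3 : Ex :=
  .add (.add (.mul (.mul (.mul (.c (45)) (.v (.K 0))) (.v (.Q 0))) (.v .s)) (.add (.mul (.mul (.c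
  (-3)) (.v (.K 0))) (.v (.Q 1))) (.mul (.mul (.c (-60)) (.v (.K 0))) (.pow (.v .s) 3)))) (.add
  (.add (.mul (.mul (.c (-11)) (.v (.K 1))) (.v (.Q 0))) (.mul (.mul (.c (60)) (.v (.K 1))) (.pow
  (.v .s) 2))) (.add (.mul (.mul (.c (-15)) (.v (.K 2))) (.v .s)) (.mul (.c (1)) (.v (.K 3)))))

noncomputable def c4 : Ex :=
  .add (.add (.add (.mul (.mul (.mul (.c (-540)) (.v (.K 0))) (.v (.Q 0))) (.pow (.v .s) 2))
  (.add (.mul (.mul (.c (45)) (.v (.K 0))) (.pow (.v (.Q 0)) 2)) (.mul (.mul (.mul (.c (72)) (.v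
  (.K 0))) (.v (.Q 1))) (.v .s)))) (.add (.mul (.mul (.c (-3)) (.v (.K 0))) (.v (.Q 2))) (.add
  (.mul (.mul (.c (360)) (.v (.K 0))) (.pow (.v .s) 4)) (.mul (.mul (.mul (.c (264)) (.v (.K 1)))
  (.v (.Q 0))) (.v .s))))) (.add (.add (.mul (.mul (.c (-14)) (.v (.K 1))) (.v (.Q 1))) (.add
  (.mul (.mul (.c (-480)) (.v (.K 1))) (.pow (.v .s) 3)) (.mul (.mul (.c (-26)) (.v (.K 2))) (.v
  (.Q 0))))) (.add (.mul (.mul (.c (180)) (.v (.K 2))) (.pow (.v .s) 2)) (.add (.mul (.mul (.c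
  (-24)) (.v (.K 3))) (.v .s)) (.mul (.c (1)) (.v (.K 4))))))

noncomputable def c5 : Ex :=
  .add (.add (.add (.add (.mul (.mul (.mul (.c (162)) (.v (.K 0))) (.v (.Q 0))) (.v (.Q 1)))
  (.mul (.mul (.mul (.c (6300)) (.v (.K 0))) (.v (.Q 0))) (.pow (.v .s) 3))) (.add (.mul (.mul
  (.mul (.c (-1575)) (.v (.K 0))) (.pow (.v (.Q 0)) 2)) (.v .s)) (.mul (.mul (.mul (.c (-1260))
  (.v (.K 0))) (.v (.Q 1))) (.pow (.v .s) 2)))) (.add (.add (.mul (.mul (.mul (.c (105)) (.v (.K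
  0))) (.v (.Q 2))) (.v .s)) (.mul (.mul (.c (-3)) (.v (.K 0))) (.v (.Q 3)))) (.add (.mul (.mul
  (.c (-2520)) (.v (.K 0))) (.pow (.v .s) 5)) (.add (.mul (.mul (.mul (.c (-4620)) (.v (.K 1)))
  (.v (.Q 0))) (.pow (.v .s) 2)) (.mul (.mul (.c (309)) (.v (.K 1))) (.pow (.v (.Q 0)) 2))))))
  (.add (.add (.add (.mul (.mul (.mul (.c (490)) (.v (.K 1))) (.v (.Q 1))) (.v .s)) (.mul (.mul
  (.c (-17)) (.v (.K 1))) (.v (.Q 2)))) (.add (.mul (.mul (.c (4200)) (.v (.K 1))) (.pow (.v .s)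
  4)) (.add (.mul (.mul (.mul (.c (910)) (.v (.K 2))) (.v (.Q 0))) (.v .s)) (.mul (.mul (.c
  (-40)) (.v (.K 2))) (.v (.Q 1)))))) (.add (.add (.mul (.mul (.c (-2100)) (.v (.K 2))) (.pow (.v
  .s) 3)) (.mul (.mul (.c (-50)) (.v (.K 3))) (.v (.Q 0)))) (.add (.mul (.mul (.c (420)) (.v (.K
  3))) (.pow (.v .s) 2)) (.add (.mul (.mul (.c (-35)) (.v (.K 4))) (.v .s)) (.mul (.c (1)) (.v
  (.K 5)))))))

noncomputable def k0 : Ex :=
  .add (.mul (.c (1)) (.v (.Q 0))) (.add (.mul (.c (4)) (.pow (.v (.n 0)) 2)) (.mul (.c (-2)) (.v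
  (.n 1))))

noncomputable def k1 : Ex :=
  .add (.add (.mul (.mul (.c (-2)) (.v (.Q 0))) (.v (.n 0))) (.mul (.c (1)) (.v (.Q 1)))) (.add
  (.mul (.mul (.c (12)) (.v (.n 0))) (.v (.n 1))) (.add (.mul (.c (-8)) (.pow (.v (.n 0)) 3))
  (.mul (.c (-2)) (.v (.n 2)))))

noncomputable def k2 : Ex :=
  .add (.add (.add (.mul (.mul (.c (4)) (.v (.Q 0))) (.pow (.v (.n 0)) 2)) (.mul (.mul (.c (-2))
  (.v (.Q 0))) (.v (.n 1)))) (.add (.mul (.mul (.c (-4)) (.v (.Q 1))) (.v (.n 0))) (.mul (.c (1))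
  (.v (.Q 2))))) (.add (.add (.mul (.mul (.c (16)) (.v (.n 0))) (.v (.n 2))) (.mul (.mul (.c
  (-48)) (.pow (.v (.n 0)) 2)) (.v (.n 1)))) (.add (.mul (.c (16)) (.pow (.v (.n 0)) 4)) (.add
  (.mul (.c (12)) (.pow (.v (.n 1)) 2)) (.mul (.c (-2)) (.v (.n 3))))))

noncomputable def k3 : Ex :=
  .add (.add (.add (.mul (.mul (.mul (.c (12)) (.v (.Q 0))) (.v (.n 0))) (.v (.n 1))) (.add (.mul
  (.mul (.c (-8)) (.v (.Q 0))) (.pow (.v (.n 0)) 3)) (.mul (.mul (.c (-2)) (.v (.Q 0))) (.v (.n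
  2))))) (.add (.add (.mul (.mul (.c (12)) (.v (.Q 1))) (.pow (.v (.n 0)) 2)) (.mul (.mul (.c
  (-6)) (.v (.Q 1))) (.v (.n 1)))) (.add (.mul (.mul (.c (-6)) (.v (.Q 2))) (.v (.n 0))) (.mul
  (.c (1)) (.v (.Q 3)))))) (.add (.add (.mul (.mul (.c (-120)) (.v (.n 0))) (.pow (.v (.n 1)) 2))
  (.add (.mul (.mul (.c (20)) (.v (.n 0))) (.v (.n 3))) (.mul (.mul (.c (-80)) (.pow (.v (.n 0))
  2)) (.v (.n 2))))) (.add (.add (.mul (.mul (.c (160)) (.pow (.v (.n 0)) 3)) (.v (.n 1))) (.mul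
  (.c (-32)) (.pow (.v (.n 0)) 5))) (.add (.mul (.mul (.c (40)) (.v (.n 1))) (.v (.n 2))) (.mul
  (.c (-2)) (.v (.n 4))))))

noncomputable def k4 : Ex :=
  .add (.add (.add (.add (.mul (.mul (.mul (.c (16)) (.v (.Q 0))) (.v (.n 0))) (.v (.n 2))) (.mul
  (.mul (.mul (.c (-48)) (.v (.Q 0))) (.pow (.v (.n 0)) 2)) (.v (.n 1)))) (.add (.mul (.mul (.c
  (16)) (.v (.Q 0))) (.pow (.v (.n 0)) 4)) (.add (.mul (.mul (.c (12)) (.v (.Q 0))) (.pow (.v (.n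
  1)) 2)) (.mul (.mul (.c (-2)) (.v (.Q 0))) (.v (.n 3)))))) (.add (.add (.mul (.mul (.mul (.c
  (48)) (.v (.Q 1))) (.v (.n 0))) (.v (.n 1))) (.add (.mul (.mul (.c (-32)) (.v (.Q 1))) (.pow
  (.v (.n 0)) 3)) (.mul (.mul (.c (-8)) (.v (.Q 1))) (.v (.n 2))))) (.add (.mul (.mul (.c (24))
  (.v (.Q 2))) (.pow (.v (.n 0)) 2)) (.add (.mul (.mul (.c (-12)) (.v (.Q 2))) (.v (.n 1))) (.mul
  (.mul (.c (-8)) (.v (.Q 3))) (.v (.n 0))))))) (.add (.add (.add (.mul (.c (1)) (.v (.Q 4)))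
  (.add (.mul (.mul (.mul (.c (-480)) (.v (.n 0))) (.v (.n 1))) (.v (.n 2))) (.mul (.mul (.c
  (24)) (.v (.n 0))) (.v (.n 4))))) (.add (.mul (.mul (.c (720)) (.pow (.v (.n 0)) 2)) (.pow (.v
  (.n 1)) 2)) (.add (.mul (.mul (.c (-120)) (.pow (.v (.n 0)) 2)) (.v (.n 3))) (.mul (.mul (.c
  (320)) (.pow (.v (.n 0)) 3)) (.v (.n 2)))))) (.add (.add (.mul (.mul (.c (-480)) (.pow (.v (.n
  0)) 4)) (.v (.n 1))) (.add (.mul (.c (64)) (.pow (.v (.n 0)) 6)) (.mul (.mul (.c (60)) (.v (.n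
  1))) (.v (.n 3))))) (.add (.mul (.c (-120)) (.pow (.v (.n 1)) 3)) (.add (.mul (.c (40)) (.pow
  (.v (.n 2)) 2)) (.mul (.c (-2)) (.v (.n 5)))))))

noncomputable def k5 : Ex :=
  .add (.add (.add (.add (.add (.mul (.mul (.mul (.c (-120)) (.v (.Q 0))) (.v (.n 0))) (.pow (.v
  (.n 1)) 2)) (.mul (.mul (.mul (.c (20)) (.v (.Q 0))) (.v (.n 0))) (.v (.n 3)))) (.add (.mul
  (.mul (.mul (.c (-80)) (.v (.Q 0))) (.pow (.v (.n 0)) 2)) (.v (.n 2))) (.mul (.mul (.mul (.c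
  (160)) (.v (.Q 0))) (.pow (.v (.n 0)) 3)) (.v (.n 1))))) (.add (.add (.mul (.mul (.c (-32)) (.v
  (.Q 0))) (.pow (.v (.n 0)) 5)) (.mul (.mul (.mul (.c (40)) (.v (.Q 0))) (.v (.n 1))) (.v (.n
  2)))) (.add (.mul (.mul (.c (-2)) (.v (.Q 0))) (.v (.n 4))) (.mul (.mul (.mul (.c (80)) (.v (.Q
  1))) (.v (.n 0))) (.v (.n 2)))))) (.add (.add (.add (.mul (.mul (.mul (.c (-240)) (.v (.Q 1)))
  (.pow (.v (.n 0)) 2)) (.v (.n 1))) (.mul (.mul (.c (80)) (.v (.Q 1))) (.pow (.v (.n 0)) 4)))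
  (.add (.mul (.mul (.c (60)) (.v (.Q 1))) (.pow (.v (.n 1)) 2)) (.mul (.mul (.c (-10)) (.v (.Q
  1))) (.v (.n 3))))) (.add (.add (.mul (.mul (.mul (.c (120)) (.v (.Q 2))) (.v (.n 0))) (.v (.n
  1))) (.mul (.mul (.c (-80)) (.v (.Q 2))) (.pow (.v (.n 0)) 3))) (.add (.mul (.mul (.c (-20))
  (.v (.Q 2))) (.v (.n 2))) (.add (.mul (.mul (.c (40)) (.v (.Q 3))) (.pow (.v (.n 0)) 2)) (.mul
  (.mul (.c (-20)) (.v (.Q 3))) (.v (.n 1)))))))) (.add (.add (.add (.add (.mul (.mul (.c (-10))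
  (.v (.Q 4))) (.v (.n 0))) (.mul (.c (1)) (.v (.Q 5)))) (.add (.mul (.mul (.mul (.c (-840)) (.v
  (.n 0))) (.v (.n 1))) (.v (.n 3))) (.mul (.mul (.c (1680)) (.v (.n 0))) (.pow (.v (.n 1)) 3))))
  (.add (.add (.mul (.mul (.c (-560)) (.v (.n 0))) (.pow (.v (.n 2)) 2)) (.mul (.mul (.c (28))
  (.v (.n 0))) (.v (.n 5)))) (.add (.mul (.mul (.mul (.c (3360)) (.pow (.v (.n 0)) 2)) (.v (.n
  1))) (.v (.n 2))) (.mul (.mul (.c (-168)) (.pow (.v (.n 0)) 2)) (.v (.n 4)))))) (.add (.add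
  (.add (.mul (.mul (.c (-3360)) (.pow (.v (.n 0)) 3)) (.pow (.v (.n 1)) 2)) (.mul (.mul (.c
  (560)) (.pow (.v (.n 0)) 3)) (.v (.n 3)))) (.add (.mul (.mul (.c (-1120)) (.pow (.v (.n 0)) 4))
  (.v (.n 2))) (.mul (.mul (.c (1344)) (.pow (.v (.n 0)) 5)) (.v (.n 1))))) (.add (.add (.mul (.c
  (-128)) (.pow (.v (.n 0)) 7)) (.mul (.mul (.c (84)) (.v (.n 1))) (.v (.n 4)))) (.add (.mul
  (.mul (.c (-840)) (.pow (.v (.n 1)) 2)) (.v (.n 2))) (.add (.mul (.mul (.c (140)) (.v (.n 2)))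
  (.v (.n 3))) (.mul (.c (-2)) (.v (.n 6))))))))

theorem eb0 (ρ : Va → ℝ) : eval ρ (BB 0) = eval ρ b0 := by
  simp only [BB, b0, eval]
  try ring

theorem eb1 (ρ : Va → ℝ) : eval ρ (BB 1) = eval ρ b1 := by
  rw [show BB 1 = lad (BB 0) 0 from rfl, lad_congr eb0]
  simp only [lad, b0, b1, eval, der, Vf, Nat.reduceAdd, Nat.reduceSub, Nat.cast_ofNat, Nat.cast_one, Nat.cast_zero]
  ring

theorem eb2 (ρ : Va → ℝ) : eval ρ (BB 2) = eval ρ b2 := by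
  rw [show BB 2 = lad (BB 1) 1 from rfl, lad_congr eb1]
  simp only [lad, b1, b2, eval, der, Vf, Nat.reduceAdd, Nat.reduceSub, Nat.cast_ofNat, Nat.cast_one, Nat.cast_zero]
  ring

theorem eb3 (ρ : Va → ℝ) : eval ρ (BB 3) = eval ρ b3 := by
  rw [show BB 3 = lad (BB 2) 2 from rfl, lad_congr eb2]
  simp only [lad, b2, b3, eval, der, Vf, Nat.reduceAdd, Nat.reduceSub, Nat.cast_ofNat, Nat.cast_one, Nat.cast_zero]
  ring

theorem eb4 (ρ : Va → ℝ) : eval ρ (BB 4) = eval ρ b4 := by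
  rw [show BB 4 = lad (BB 3) 3 from rfl, lad_congr eb3]
  simp only [lad, b3, b4, eval, der, Vf, Nat.reduceAdd, Nat.reduceSub, Nat.cast_ofNat, Nat.cast_one, Nat.cast_zero]
  ring

theorem eb5 (ρ : Va → ℝ) : eval ρ (BB 5) = eval ρ b5 := by
  rw [show BB 5 = lad (BB 4) 4 from rfl, lad_congr eb4]
  simp only [lad, b4, b5, eval, der, Vf, Nat.reduceAdd, Nat.reduceSub, Nat.cast_ofNat, Nat.cast_one, Nat.cast_zero]
  ring

theorem eb6 (ρ : Va → ℝ) : eval ρ (BB 6) = eval ρ b6 := by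
  rw [show BB 6 = lad (BB 5) 5 from rfl, lad_congr eb5]
  simp only [lad, b5, b6, eval, der, Vf, Nat.reduceAdd, Nat.reduceSub, Nat.cast_ofNat, Nat.cast_one, Nat.cast_zero]
  ring

theorem eb7 (ρ : Va → ℝ) : eval ρ (BB 7) = eval ρ b7 := by
  rw [show BB 7 = lad (BB 6) 6 from rfl, lad_congr eb6]
  simp only [lad, b6, b7, eval, der, Vf, Nat.reduceAdd, Nat.reduceSub, Nat.cast_ofNat, Nat.cast_one, Nat.cast_zero]
  ring

theorem ec0 (ρ : Va → ℝ) : eval ρ (CC 0) = eval ρ c0 := by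
  simp only [CC, c0, eval]
  try ring

theorem ec1 (ρ : Va → ℝ) : eval ρ (CC 1) = eval ρ c1 := by
  rw [show CC 1 = lad (CC 0) 0 from rfl, lad_congr ec0]
  simp only [lad, c0, c1, eval, der, Vf, Nat.reduceAdd, Nat.reduceSub, Nat.cast_ofNat, Nat.cast_one, Nat.cast_zero]
  ring

theorem ec2 (ρ : Va → ℝ) : eval ρ (CC 2) = eval ρ c2 := by
  rw [show CC 2 = lad (CC 1) 1 from rfl, lad_congr ec1]
  simp only [lad, c1, c2, eval, der, Vf, Nat.reduceAdd, Nat.reduceSub, Nat.cast_ofNat, Nat.cast_one, Nat.cast_zero]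
  ring

theorem ec3 (ρ : Va → ℝ) : eval ρ (CC 3) = eval ρ c3 := by
  rw [show CC 3 = lad (CC 2) 2 from rfl, lad_congr ec2]
  simp only [lad, c2, c3, eval, der, Vf, Nat.reduceAdd, Nat.reduceSub, Nat.cast_ofNat, Nat.cast_one, Nat.cast_zero]
  ring

theorem ec4 (ρ : Va → ℝ) : eval ρ (CC 4) = eval ρ c4 := by
  rw [show CC 4 = lad (CC 3) 3 from rfl, lad_congr ec3]
  simp only [lad, c3, c4, eval, der, Vf, Nat.reduceAdd, Nat.reduceSub, Nat.cast_ofNat, Nat.cast_one, Nat.cast_zero]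
  ring

theorem ec5 (ρ : Va → ℝ) : eval ρ (CC 5) = eval ρ c5 := by
  rw [show CC 5 = lad (CC 4) 4 from rfl, lad_congr ec4]
  simp only [lad, c4, c5, eval, der, Vf, Nat.reduceAdd, Nat.reduceSub, Nat.cast_ofNat, Nat.cast_one, Nat.cast_zero]
  ring

theorem ek0 (ρ : Va → ℝ) : eval ρ (KK 0) = eval ρ k0 := by
  simp only [KK, k0, eval]
  ring

theorem ek1 (ρ : Va → ℝ) : eval ρ (KK 1) = eval ρ k1 := by
  rw [show KK 1 = .add (der Vt (KK 0)) (.mul (.mul (.c (-2)) (.v (.n 0))) (KK 0)) from rfl]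
  rw [eval, eval, der_congr ek0, ek0]
  simp only [k0, k1, eval, der, Vt, Nat.reduceAdd, Nat.reduceSub, Nat.cast_ofNat, Nat.cast_one, Nat.cast_zero]
  ring

theorem ek2 (ρ : Va → ℝ) : eval ρ (KK 2) = eval ρ k2 := by
  rw [show KK 2 = .add (der Vt (KK 1)) (.mul (.mul (.c (-2)) (.v (.n 0))) (KK 1)) from rfl]
  rw [eval, eval, der_congr ek1, ek1]
  simp only [k1, k2, eval, der, Vt, Nat.reduceAdd, Nat.reduceSub, Nat.cast_ofNat, Nat.cast_one, Nat.cast_zero]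
  ring

theorem ek3 (ρ : Va → ℝ) : eval ρ (KK 3) = eval ρ k3 := by
  rw [show KK 3 = .add (der Vt (KK 2)) (.mul (.mul (.c (-2)) (.v (.n 0))) (KK 2)) from rfl]
  rw [eval, eval, der_congr ek2, ek2]
  simp only [k2, k3, eval, der, Vt, Nat.reduceAdd, Nat.reduceSub, Nat.cast_ofNat, Nat.cast_one, Nat.cast_zero]
  ring

theorem ek4 (ρ : Va → ℝ) : eval ρ (KK 4) = eval ρ k4 := by
  rw [show KK 4 = .add (der Vt (KK 3)) (.mul (.mul (.c (-2)) (.v (.n 0))) (KK 3)) from rfl]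
  rw [eval, eval, der_congr ek3, ek3]
  simp only [k3, k4, eval, der, Vt, Nat.reduceAdd, Nat.reduceSub, Nat.cast_ofNat, Nat.cast_one, Nat.cast_zero]
  ring

theorem ek5 (ρ : Va → ℝ) : eval ρ (KK 5) = eval ρ k5 := by
  rw [show KK 5 = .add (der Vt (KK 4)) (.mul (.mul (.c (-2)) (.v (.n 0))) (KK 4)) from rfl]
  rw [eval, eval, der_congr ek4, ek4]
  simp only [k4, k5, eval, der, Vt, Nat.reduceAdd, Nat.reduceSub, Nat.cast_ofNat, Nat.cast_one, Nat.cast_zero]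
  ring

end Pool.Agent.W99.GP
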