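import Pool.Agent.W99.GP.Line

set_option autoImplicit false

open Filter Topology

namespace Pool.Agent.W99.GP

open Pool.Agent.TH3.PI Pool.Agent.W5h70.PG

/-- the values of the variables at the parameter `t`, with the value `s` of the line invariant -/
def rho (Qj Kj nj : ℕ → ℝ → ℝ) (s t : ℝ) : Va → ℝ
  | .s => s
  | .Q j => Qj j t
  | .K j => Kj j t
  | .n j => nj j t

section

variable {L p p1 : ℝ → ℝ} {e θ z : ℝ} {Qj Kj nj : ℕ → ℝ → ℝ}

/-- the values of the variables along the line -/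
noncomputable def rl (L p : ℝ → ℝ) (Qj Kj nj : ℕ → ℝ → ℝ) (e θ z : ℝ) : Va → ℝ :=
  rho Qj Kj nj (sz L p e θ z) (tz L e θ z)

lemma hasDerivAt_rl (hL : ∀ t, 0 < L t) (hLp : HD (fun t => L t ^ 2) L (fun t => p t * L t))
    (hp : HD (fun t => L t ^ 2) p p1) (hQ0 : ∀ t, Qj 0 t = (L t ^ 4)⁻¹ - p t ^ 2 - p1 t)
    (hQ : ∀ j, HD (fun t => L t ^ 2) (Qj j) (Qj (j + 1)))
    (hK : ∀ j, HD (fun t => L t ^ 2) (Kj j) (Kj (j + 1)))
    (hn : ∀ j, HD (fun t => L t ^ 2) (nj j) (nj (j + 1))) (h : 0 < 1 - e * z) (i : Va) :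
    HasDerivAt (fun z => rl L p Qj Kj nj e θ z i)
      (rz L e θ z ^ 2 * eval (rl L p Qj Kj nj e θ z) (Vf i)) z := by
  cases i with
  | s =>
    refine (hasDerivAt_sz hL hLp hp h).congr_deriv ?_
    simp only [Vf, eval, rl, rho, hQ0]
  | Q j => exact hasDerivAt_comp_tz hL (hQ j) h
  | K j => exact hasDerivAt_comp_tz hL (hK j) h
  | n j => exact hasDerivAt_comp_tz hL (hn j) h

lemma ladder (hL : ∀ t, 0 < L t) (hLp : HD (fun t => L t ^ 2) L (fun t => p t * L t))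
    (hp : HD (fun t => L t ^ 2) p p1) (hQ0 : ∀ t, Qj 0 t = (L t ^ 4)⁻¹ - p t ^ 2 - p1 t)
    (hQ : ∀ j, HD (fun t => L t ^ 2) (Qj j) (Qj (j + 1)))
    (hK : ∀ j, HD (fun t => L t ^ 2) (Kj j) (Kj (j + 1)))
    (hn : ∀ j, HD (fun t => L t ^ 2) (nj j) (nj (j + 1))) (h : 0 < 1 - e * z) (a : Ex) (j : ℕ) :
    HasDerivAt (fun z => rz L e θ z ^ (2 * j + 3) * eval (rl L p Qj Kj nj e θ z) a)
      (rz L e θ z ^ (2 * (j + 1) + 3) * eval (rl L p Qj Kj nj e θ z) (lad a j)) z := by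
  have h1 := hasDerivAt_eval (fun i => hasDerivAt_rl (θ := θ) hL hLp hp hQ0 hQ hK hn h i) a
  have h2 := (hasDerivAt_rz (θ := θ) hL hLp h).pow (2 * j + 3)
  refine (h2.mul h1).congr_deriv ?_
  simp only [lad, eval]
  have h3 : 2 * j + 3 - 1 = 2 * j + 2 := by omega
  rw [h3]
  have h4 : rl L p Qj Kj nj e θ z .s = sz L p e θ z := rfl
  rw [h4]
  push_cast
  simp only [Pi.pow_apply]
  ring

end

end Pool.Agent.W99.GP
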