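import Mathlib

set_option autoImplicit false

open Filter Topology Finset

namespace Pool.Agent.W99.GP

/-- the `m`-th derivative of `g z * b (-z)` -/
noncomputable def Fm (g b : ℕ → ℝ → ℝ) (m : ℕ) (z : ℝ) : ℝ :=
  ∑ ij ∈ antidiagonal m, (m.choose ij.1 : ℝ) * (g ij.2 z * ((-1) ^ ij.1 * b ij.1 (-z)))

theorem hasDerivAt_Fm {g b : ℕ → ℝ → ℝ} {m : ℕ} {z : ℝ}
    (hg : ∀ k ≤ m, HasDerivAt (g k) (g (k + 1) z) z)
    (hb : ∀ k ≤ m, HasDerivAt (b k) (b (k + 1) (-z)) (-z)) :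
    HasDerivAt (Fm g b m) (Fm g b (m + 1) z) z := by
  have h1 : HasDerivAt (Fm g b m) (∑ ij ∈ antidiagonal m, (m.choose ij.1 : ℝ) *
      (g (ij.2 + 1) z * ((-1) ^ ij.1 * b ij.1 (-z))
        + g ij.2 z * ((-1) ^ ij.1 * (b (ij.1 + 1) (-z) * (-1))))) z := by
    refine HasDerivAt.fun_sum fun ij hij => ?_
    have h2 := mem_antidiagonal.1 hij
    have h3 := hg ij.2 (by omega)
    have h4 : HasDerivAt (fun z => b ij.1 (-z)) (b (ij.1 + 1) (-z) * (-1)) z :=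
      HasDerivAt.comp z (hb ij.1 (by omega)) (hasDerivAt_neg z)
    exact (h3.mul (h4.const_mul _)).const_mul _
  refine h1.congr_deriv ?_
  unfold Fm
  rw [Finset.sum_antidiagonal_choose_succ_mul (fun i j => g j z * ((-1) ^ i * b i (-z))) m,
    ← Finset.sum_add_distrib]
  refine Finset.sum_congr rfl fun ij hij => ?_
  have h2 := mem_antidiagonal.1 hij
  have h3 : m.choose ij.2 = m.choose ij.1 := by
    rw [← h2]
    exact (Nat.choose_symm_add).symm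
  rw [h3]
  ring

theorem parity {g b : ℕ → ℝ → ℝ} {N : ℕ}
    (hg : ∀ k < N, ∀ᶠ z in 𝓝 (0 : ℝ), HasDerivAt (g k) (g (k + 1) z) z)
    (hb : ∀ k < N, ∀ᶠ z in 𝓝 (0 : ℝ), HasDerivAt (b k) (b (k + 1) z) z)
    (h : ∀ᶠ z in 𝓝 (0 : ℝ), g 0 z * b 0 (-z) = g 0 (-z) * b 0 z) :
    ∀ m ≤ N, ∀ᶠ z in 𝓝 (0 : ℝ), Fm g b m z = (-1) ^ m * Fm g b m (-z) := by
  have hneg : Tendsto (fun s : ℝ => -s) (𝓝 0) (𝓝 0) := by
    simpa using (continuous_neg (G := ℝ)).tendsto 0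
  intro m
  induction m with
  | zero =>
    intro _
    filter_upwards [h] with z hz
    simpa [Fm] using hz
  | succ m ih =>
    intro hm
    have h1 := ih (by omega)
    have hg' : ∀ᶠ z in 𝓝 (0 : ℝ), ∀ k ∈ Finset.range N, HasDerivAt (g k) (g (k + 1) z) z :=
      (Filter.eventually_all_finset _).2 fun k hk => hg k (Finset.mem_range.1 hk)
    have hb' : ∀ᶠ z in 𝓝 (0 : ℝ), ∀ k ∈ Finset.range N, HasDerivAt (b k) (b (k + 1) z) z :=
      (Filter.eventually_all_finset _).2 fun k hk => hb k (Finset.mem_range.1 hk)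
    filter_upwards [h1.eventually_nhds, hg', hb', hneg.eventually hg', hneg.eventually hb']
      with z a1 a2 a3 a4 a5
    have d1 : HasDerivAt (Fm g b m) (Fm g b (m + 1) z) z :=
      hasDerivAt_Fm (fun k hk => a2 k (Finset.mem_range.2 (by omega)))
        (fun k hk => a5 k (Finset.mem_range.2 (by omega)))
    have d2 : HasDerivAt (Fm g b m) (Fm g b (m + 1) (-z)) (-z) :=
      hasDerivAt_Fm (fun k hk => a4 k (Finset.mem_range.2 (by omega)))
        (fun k hk => by rw [neg_neg]; exact a3 k (Finset.mem_range.2 (by omega)))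
    have d3 : HasDerivAt (fun z => (-1) ^ m * Fm g b m (-z))
        ((-1) ^ m * (Fm g b (m + 1) (-z) * (-1))) z :=
      (HasDerivAt.comp z d2 (hasDerivAt_neg z)).const_mul _
    have d4 := d1.unique (d3.congr_of_eventuallyEq a1)
    rw [d4]
    ring

theorem parity_zero {g b : ℕ → ℝ → ℝ} {N : ℕ}
    (hg : ∀ k < N, ∀ᶠ z in 𝓝 (0 : ℝ), HasDerivAt (g k) (g (k + 1) z) z)
    (hb : ∀ k < N, ∀ᶠ z in 𝓝 (0 : ℝ), HasDerivAt (b k) (b (k + 1) z) z)
    (h : ∀ᶠ z in 𝓝 (0 : ℝ), g 0 z * b 0 (-z) = g 0 (-z) * b 0 z)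
    (m : ℕ) (hm : m ≤ N) (ho : Odd m) : Fm g b m 0 = 0 := by
  have h1 := (parity hg hb h m hm).self_of_nhds
  rw [ho.neg_one_pow, neg_zero] at h1
  linarith

end Pool.Agent.W99.GP
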