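import Pool.Agent.TH3.PI.Final
import Pool.Agent.W5h70.PG.Alg
import Pool.Agent.W99.GP.Jets
import Pool.Agent.W99.GP.Par

set_option autoImplicit false

open Filter Topology

namespace Pool.Agent.W99.GP

open Pool.Agent.TH3.PI Pool.Agent.W5h70.PG

/-- the angle along the line -/
noncomputable def tz (L : ℝ → ℝ) (e θ z : ℝ) : ℝ := th e ((L θ ^ 2)⁻¹) θ z

noncomputable def rz (L : ℝ → ℝ) (e θ z : ℝ) : ℝ :=
  L (tz L e θ z) * JJ e ((L θ ^ 2)⁻¹) z / L θ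

noncomputable def sz (L p : ℝ → ℝ) (e θ z : ℝ) : ℝ :=
  L θ ^ 2 * mm e ((L θ ^ 2)⁻¹) z / L (tz L e θ z) ^ 2 - p (tz L e θ z)

section

variable {L p p1 : ℝ → ℝ} {e θ z : ℝ}

lemma hasDerivAt_tz (hL : ∀ t, 0 < L t) (h : 0 < 1 - e * z) :
    HasDerivAt (tz L e θ) (rz L e θ z ^ 2 / L (tz L e θ z) ^ 2) z := by
  have h1 := hasDerivAt_th (δ := (L θ ^ 2)⁻¹) (θ := θ) h
  refine HasDerivAt.congr_deriv (f := tz L e θ) h1 ?_
  unfold rz
  have h2 := (hL θ).ne'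
  have h3 := (hL (tz L e θ z)).ne'
  field_simp

lemma hasDerivAt_comp_tz (hL : ∀ t, 0 < L t) {f g : ℝ → ℝ} (hf : HD (fun t => L t ^ 2) f g)
    (h : 0 < 1 - e * z) :
    HasDerivAt (fun z => f (tz L e θ z)) (rz L e θ z ^ 2 * g (tz L e θ z)) z := by
  have h1 := (hf (tz L e θ z)).comp z (hasDerivAt_tz hL h)
  refine HasDerivAt.congr_deriv (f := fun z => f (tz L e θ z)) h1 ?_
  have h3 := (hL (tz L e θ z)).ne'
  simp only [smul_eq_mul]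
  field_simp

/-- `D L = p L` -/
lemma hasDerivAt_rz (hL : ∀ t, 0 < L t) (hLp : HD (fun t => L t ^ 2) L (fun t => p t * L t))
    (h : 0 < 1 - e * z) :
    HasDerivAt (rz L e θ) (-(rz L e θ z ^ 3 * sz L p e θ z)) z := by
  have h1 := hasDerivAt_comp_tz (θ := θ) hL hLp h
  have h2 := hasDerivAt_JJ (δ := (L θ ^ 2)⁻¹) h
  have h3 := (h1.mul h2).div_const (L θ)
  refine HasDerivAt.congr_deriv (f := rz L e θ) h3 ?_
  have h4 := (hL (tz L e θ z)).ne'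
  have h5 := (hL θ).ne'
  unfold rz sz
  field_simp
  ring

lemma hasDerivAt_sz (hL : ∀ t, 0 < L t) (hLp : HD (fun t => L t ^ 2) L (fun t => p t * L t))
    (hp : HD (fun t => L t ^ 2) p p1) (h : 0 < 1 - e * z) :
    HasDerivAt (sz L p e θ) (rz L e θ z ^ 2 * (sz L p e θ z ^ 2 +
      ((L (tz L e θ z) ^ 4)⁻¹ - p (tz L e θ z) ^ 2 - p1 (tz L e θ z)))) z := by
  have h1 := hasDerivAt_comp_tz (θ := θ) hL hLp h
  have h2 := hasDerivAt_comp_tz (θ := θ) hL hp h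
  have h3 := hasDerivAt_mm e ((L θ ^ 2)⁻¹) z
  have h4 := (hL (tz L e θ z)).ne'
  have h5 := (hL θ).ne'
  have h6 := ((h3.const_mul (L θ ^ 2)).div (h1.pow 2) (pow_ne_zero 2 h4)).sub h2
  refine HasDerivAt.congr_deriv (f := sz L p e θ) h6 ?_
  have h7 := lagrJ (δ := (L θ ^ 2)⁻¹) h
  have h8 : rz L e θ z ^ 2 = L (tz L e θ z) ^ 2 * JJ e ((L θ ^ 2)⁻¹) z ^ 2 / L θ ^ 2 := by
    unfold rz
    ring
  have h9 : rz L e θ z ^ 2 * L θ ^ 2 = L (tz L e θ z) ^ 2 * JJ e ((L θ ^ 2)⁻¹) z ^ 2 := by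
    rw [h8]
    field_simp
  rw [h7]
  simp only [Pi.pow_apply]
  unfold sz
  rw [h8]
  set A := L (tz L e θ z)
  set J := JJ e ((L θ ^ 2)⁻¹) z
  set m := mm e ((L θ ^ 2)⁻¹) z
  field_simp
  ring

end

end Pool.Agent.W99.GP
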