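import Mathlib

set_option autoImplicit false

open Filter Topology

namespace Pool.Agent.W99.GP

/-- If `|E'| ≤ C E` with `E ≥ 0` and `E` vanishes at one point, then `E = 0`. -/
theorem gronwall_zero {E E' C : ℝ → ℝ} (hE : ∀ t, HasDerivAt E (E' t) t) (h0 : ∀ t, 0 ≤ E t)
    (hC : Continuous C) (hb : ∀ t, |E' t| ≤ C t * E t) {t₀ : ℝ} (hz : E t₀ = 0) :
    ∀ t, E t = 0 := by
  have hA : ∀ t, HasDerivAt (fun u => ∫ x in t₀..u, C x) (C t) t := fun t =>
    (hC.integral_hasStrictDerivAt t₀ t).hasDerivAt
  set A : ℝ → ℝ := fun u => ∫ x in t₀..u, C x with hAdef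
  intro t
  rcases le_total t₀ t with ht | ht
  · have hd : ∀ s, HasDerivAt (fun s => E s * Real.exp (-A s))
        ((E' s - C s * E s) * Real.exp (-A s)) s := fun s => by
      refine ((hE s).mul ((hA s).fun_neg.exp)).congr_deriv ?_
      ring
    have hanti : Antitone (fun s => E s * Real.exp (-A s)) := by
      refine antitone_of_deriv_nonpos (fun s => (hd s).differentiableAt) fun s => ?_
      rw [(hd s).deriv]
      have h1 := (abs_le.1 (hb s)).2
      exact mul_nonpos_of_nonpos_of_nonneg (by linarith) (Real.exp_pos _).le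
    have h1 := hanti ht
    simp only [hz, zero_mul] at h1
    have h2 := Real.exp_pos (-A t)
    have h3 : E t ≤ 0 := by
      by_contra h4
      push Not at h4
      have := mul_pos h4 h2
      linarith
    exact le_antisymm h3 (h0 t)
  · have hd : ∀ s, HasDerivAt (fun s => E s * Real.exp (A s))
        ((E' s + C s * E s) * Real.exp (A s)) s := fun s => by
      refine ((hE s).mul ((hA s).exp)).congr_deriv ?_
      ring
    have hmono : Monotone (fun s => E s * Real.exp (A s)) := by
      refine monotone_of_deriv_nonneg (fun s => (hd s).differentiableAt) fun s => ?_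
      rw [(hd s).deriv]
      have h1 := (abs_le.1 (hb s)).1
      exact mul_nonneg (by linarith) (Real.exp_pos _).le
    have h1 := hmono ht
    simp only [hz, zero_mul] at h1
    have h2 := Real.exp_pos (A t)
    have h3 : E t ≤ 0 := by
      by_contra h4
      push Not at h4
      have := mul_pos h4 h2
      linarith
    exact le_antisymm h3 (h0 t)

/-- Uniqueness for linear systems `y' = a y`. -/
theorem linear_zero {ι : Type*} [Fintype ι] {y : ι → ℝ → ℝ} {a : ι → ι → ℝ → ℝ}
    (ha : ∀ i j, Continuous (a i j))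
    (hy : ∀ i t, HasDerivAt (y i) (∑ j, a i j t * y j t) t) {t₀ : ℝ} (hz : ∀ i, y i t₀ = 0) :
    ∀ i t, y i t = 0 := by
  have hE : ∀ t, HasDerivAt (fun t => ∑ i, y i t ^ 2)
      (∑ i, 2 * y i t * ∑ j, a i j t * y j t) t := fun t => by
    refine HasDerivAt.fun_sum fun i _ => ?_
    refine ((hy i t).pow 2).congr_deriv ?_
    norm_num
  have hsum0 : ∀ t, 0 ≤ ∑ i, y i t ^ 2 := fun t => Finset.sum_nonneg fun i _ => sq_nonneg _
  have key := gronwall_zero (C := fun t => ∑ i, ∑ j, 2 * |a i j t|) hE hsum0
    (by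
      refine continuous_finsetSum _ fun i _ => continuous_finsetSum _ fun j _ => ?_
      exact continuous_const.mul (ha i j).abs) (fun t => ?_) (t₀ := t₀) (by simp [hz])
  · intro i t
    have h1 := key t
    have h2 := (Finset.sum_eq_zero_iff_of_nonneg (fun i _ => sq_nonneg (y i t))).1 h1 i
      (Finset.mem_univ i)
    exact pow_eq_zero_iff (two_ne_zero) |>.1 h2
  · have hle : ∀ i, y i t ^ 2 ≤ ∑ i, y i t ^ 2 := fun i =>
      Finset.single_le_sum (f := fun i => y i t ^ 2) (fun i _ => sq_nonneg _) (Finset.mem_univ i)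
    set S := ∑ i, y i t ^ 2 with hS
    simp only [Finset.mul_sum, Finset.sum_mul]
    refine (Finset.abs_sum_le_sum_abs _ _).trans (Finset.sum_le_sum fun i _ => ?_)
    refine (Finset.abs_sum_le_sum_abs _ _).trans (Finset.sum_le_sum fun j _ => ?_)
    have h1 : |y i t * y j t| ≤ S := by
      rw [abs_le]
      constructor <;> nlinarith [sq_nonneg (y i t - y j t), sq_nonneg (y i t + y j t), hle i, hle j]
    calc |2 * y i t * (a i j t * y j t)| = 2 * |a i j t| * |y i t * y j t| := by
          rw [abs_mul, abs_mul, abs_mul, abs_mul, abs_two]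
          ring
      _ ≤ 2 * |a i j t| * S := mul_le_mul_of_nonneg_left h1 (by positivity)

end Pool.Agent.W99.GP
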