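import Pool.Agent.W99.GP.Ex

set_option autoImplicit false
set_option linter.unusedSimpArgs false

namespace Pool.Agent.W99.GP

noncomputable def xQ1 : Ex :=
  .add (.add (.mul (.mul (.c (50 / 13)) (.v (.Q 0))) (.v (.n 0))) (.mul (.mul (.c (-120 / 13))
  (.v (.n 0))) (.v (.n 1)))) (.add (.mul (.c (80 / 13)) (.pow (.v (.n 0)) 3)) (.mul (.c (20 /
  13)) (.v (.n 2))))

noncomputable def xQ2 : Ex :=
  .add (.add (.mul (.mul (.c (2500 / 169)) (.v (.Q 0))) (.pow (.v (.n 0)) 2)) (.add (.mul (.mul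
  (.c (50 / 13)) (.v (.Q 0))) (.v (.n 1))) (.mul (.mul (.c (-560 / 169)) (.v (.n 0))) (.v (.n
  2))))) (.add (.add (.mul (.mul (.c (-2880 / 169)) (.pow (.v (.n 0)) 2)) (.v (.n 1))) (.mul (.c
  (4000 / 169)) (.pow (.v (.n 0)) 4))) (.add (.mul (.c (-120 / 13)) (.pow (.v (.n 1)) 2)) (.mul
  (.c (20 / 13)) (.v (.n 3)))))

noncomputable def xQ3 : Ex :=
  .add (.add (.add (.mul (.mul (.mul (.c (15100 / 143)) (.v (.Q 0))) (.v (.n 0))) (.v (.n 1)))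
  (.mul (.mul (.c (53000 / 1859)) (.v (.Q 0))) (.pow (.v (.n 0)) 3))) (.add (.mul (.mul (.c
  (-1350 / 143)) (.v (.Q 0))) (.v (.n 2))) (.add (.mul (.mul (.c (720 / 143)) (.pow (.v (.Q 0))
  2)) (.v (.n 0))) (.mul (.mul (.c (-82320 / 143)) (.v (.n 0))) (.pow (.v (.n 1)) 2))))) (.add
  (.add (.mul (.mul (.c (4480 / 143)) (.v (.n 0))) (.v (.n 3))) (.mul (.mul (.c (-584080 / 1859))
  (.pow (.v (.n 0)) 2)) (.v (.n 2)))) (.add (.mul (.mul (.c (235200 / 169)) (.pow (.v (.n 0)) 3))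
  (.v (.n 1))) (.add (.mul (.c (-938560 / 1859)) (.pow (.v (.n 0)) 5)) (.mul (.mul (.c (840 /
  13)) (.v (.n 1))) (.v (.n 2))))))

noncomputable def xQ4 : Ex :=
  .add (.add (.add (.add (.mul (.mul (.mul (.c (-3799200 / 20449)) (.v (.Q 0))) (.v (.n 0))) (.v
  (.n 2))) (.mul (.mul (.mul (.c (33644400 / 20449)) (.v (.Q 0))) (.pow (.v (.n 0)) 2)) (.v (.n
  1)))) (.add (.mul (.mul (.c (-8310800 / 20449)) (.v (.Q 0))) (.pow (.v (.n 0)) 4)) (.mul (.mul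
  (.c (15100 / 143)) (.v (.Q 0))) (.pow (.v (.n 1)) 2)))) (.add (.add (.mul (.mul (.c (-1350 /
  143)) (.v (.Q 0))) (.v (.n 3))) (.mul (.mul (.c (2888640 / 20449)) (.pow (.v (.Q 0)) 2)) (.pow
  (.v (.n 0)) 2))) (.add (.mul (.mul (.c (720 / 143)) (.pow (.v (.Q 0)) 2)) (.v (.n 1))) (.mul
  (.mul (.mul (.c (201920 / 1859)) (.v (.n 0))) (.v (.n 1))) (.v (.n 2)))))) (.add (.add (.add
  (.mul (.mul (.c (-145293600 / 20449)) (.pow (.v (.n 0)) 2)) (.pow (.v (.n 1)) 2)) (.mul (.mul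
  (.c (615440 / 1573)) (.pow (.v (.n 0)) 2)) (.v (.n 3)))) (.add (.mul (.mul (.c (-105046400 /
  20449)) (.pow (.v (.n 0)) 3)) (.v (.n 2))) (.mul (.mul (.c (3800000 / 143)) (.pow (.v (.n 0))
  4)) (.v (.n 1))))) (.add (.add (.mul (.c (-244557440 / 20449)) (.pow (.v (.n 0)) 6)) (.mul
  (.mul (.c (13720 / 143)) (.v (.n 1))) (.v (.n 3)))) (.add (.mul (.c (-82320 / 143)) (.pow (.v
  (.n 1)) 3)) (.mul (.c (93120 / 1859)) (.pow (.v (.n 2)) 2)))))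

noncomputable def xQ5 : Ex :=
  .add (.add (.add (.add (.mul (.mul (.mul (.c (215263800 / 20449)) (.v (.Q 0))) (.v (.n 0)))
  (.pow (.v (.n 1)) 2)) (.mul (.mul (.mul (.c (-8888700 / 20449)) (.v (.Q 0))) (.v (.n 0))) (.v
  (.n 3)))) (.add (.mul (.mul (.mul (.c (-147882400 / 2924207)) (.v (.Q 0))) (.pow (.v (.n 0))
  2)) (.v (.n 2))) (.add (.mul (.mul (.mul (.c (21353735200 / 2924207)) (.v (.Q 0))) (.pow (.v
  (.n 0)) 3)) (.v (.n 1))) (.mul (.mul (.c (-9903575200 / 2924207)) (.v (.Q 0))) (.pow (.v (.n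
  0)) 5))))) (.add (.add (.mul (.mul (.mul (.c (-26206000 / 20449)) (.v (.Q 0))) (.v (.n 1))) (.v
  (.n 2))) (.mul (.mul (.mul (.c (5308740 / 20449)) (.pow (.v (.Q 0)) 2)) (.v (.n 0))) (.v (.n
  1)))) (.add (.mul (.mul (.c (7431195960 / 2924207)) (.pow (.v (.Q 0)) 2)) (.pow (.v (.n 0)) 3))
  (.add (.mul (.mul (.c (136170 / 1573)) (.pow (.v (.Q 0)) 2)) (.v (.n 2))) (.mul (.mul (.c
  (-48600 / 1573)) (.pow (.v (.Q 0)) 3)) (.v (.n 0))))))) (.add (.add (.add (.mul (.mul (.mul (.c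
  (64182960 / 20449)) (.v (.n 0))) (.v (.n 1))) (.v (.n 3))) (.mul (.mul (.c (-955908000 /
  20449)) (.v (.n 0))) (.pow (.v (.n 1)) 3))) (.add (.mul (.mul (.c (-47109440 / 265837)) (.v (.n
  0))) (.pow (.v (.n 2)) 2)) (.add (.mul (.mul (.mul (.c (-600796800 / 24167)) (.pow (.v (.n 0))
  2)) (.v (.n 1))) (.v (.n 2))) (.mul (.mul (.c (149079892800 / 2924207)) (.pow (.v (.n 0)) 3))
  (.pow (.v (.n 1)) 2))))) (.add (.add (.mul (.mul (.c (813138400 / 224939)) (.pow (.v (.n 0))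
  3)) (.v (.n 3))) (.add (.mul (.mul (.c (-165369958400 / 2924207)) (.pow (.v (.n 0)) 4)) (.v (.n
  2))) (.mul (.mul (.c (70053436800 / 265837)) (.pow (.v (.n 0)) 5)) (.v (.n 1))))) (.add (.mul
  (.c (-450469692160 / 2924207)) (.pow (.v (.n 0)) 7)) (.add (.mul (.mul (.c (6623040 / 1859))
  (.pow (.v (.n 1)) 2)) (.v (.n 2))) (.mul (.mul (.c (337600 / 1859)) (.v (.n 2))) (.v (.n
  3)))))))

noncomputable def xN4 : Ex :=
  .add (.add (.add (.mul (.mul (.mul (.c (5690 / 143)) (.v (.Q 0))) (.v (.n 0))) (.v (.n 1)))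
  (.mul (.mul (.c (-34300 / 1859)) (.v (.Q 0))) (.pow (.v (.n 0)) 3))) (.add (.mul (.mul (.c (-95
  / 11)) (.v (.Q 0))) (.v (.n 2))) (.add (.mul (.mul (.c (36 / 11)) (.pow (.v (.Q 0)) 2)) (.v (.n
  0))) (.mul (.mul (.c (-47040 / 143)) (.v (.n 0))) (.pow (.v (.n 1)) 2))))) (.add (.add (.mul
  (.mul (.c (3220 / 143)) (.v (.n 0))) (.v (.n 3))) (.mul (.mul (.c (-386560 / 1859)) (.pow (.v
  (.n 0)) 2)) (.v (.n 2)))) (.add (.mul (.mul (.c (154880 / 169)) (.pow (.v (.n 0)) 3)) (.v (.n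
  1))) (.add (.mul (.c (-720064 / 1859)) (.pow (.v (.n 0)) 5)) (.mul (.mul (.c (680 / 13)) (.v
  (.n 1))) (.v (.n 2))))))

noncomputable def xN5 : Ex :=
  .add (.add (.add (.add (.mul (.mul (.mul (.c (-279720 / 1573)) (.v (.Q 0))) (.v (.n 0))) (.v
  (.n 2))) (.mul (.mul (.mul (.c (19083880 / 20449)) (.v (.Q 0))) (.pow (.v (.n 0)) 2)) (.v (.n
  1)))) (.add (.mul (.mul (.c (-9123320 / 20449)) (.v (.Q 0))) (.pow (.v (.n 0)) 4)) (.mul (.mul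
  (.c (5690 / 143)) (.v (.Q 0))) (.pow (.v (.n 1)) 2)))) (.add (.add (.mul (.mul (.c (-95 / 11))
  (.v (.Q 0))) (.v (.n 3))) (.mul (.mul (.c (155520 / 1573)) (.pow (.v (.Q 0)) 2)) (.pow (.v (.n
  0)) 2))) (.add (.mul (.mul (.c (36 / 11)) (.pow (.v (.Q 0)) 2)) (.v (.n 1))) (.mul (.mul (.mul
  (.c (455440 / 1859)) (.v (.n 0))) (.v (.n 1))) (.v (.n 2)))))) (.add (.add (.add (.mul (.mul
  (.c (-102758160 / 20449)) (.pow (.v (.n 0)) 2)) (.pow (.v (.n 1)) 2)) (.mul (.mul (.c (470480 /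
  1573)) (.pow (.v (.n 0)) 2)) (.v (.n 3)))) (.add (.mul (.mul (.c (-78674720 / 20449)) (.pow (.v
  (.n 0)) 3)) (.v (.n 2))) (.mul (.mul (.c (35534080 / 1859)) (.pow (.v (.n 0)) 4)) (.v (.n
  1))))) (.add (.add (.mul (.c (-180676160 / 20449)) (.pow (.v (.n 0)) 6)) (.mul (.mul (.c (10700
  / 143)) (.v (.n 1))) (.v (.n 3)))) (.add (.mul (.c (-47040 / 143)) (.pow (.v (.n 1)) 3)) (.mul
  (.c (5580 / 143)) (.pow (.v (.n 2)) 2)))))

noncomputable def xN6 : Ex :=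
  .add (.add (.add (.add (.mul (.mul (.mul (.c (941060 / 121)) (.v (.Q 0))) (.v (.n 0))) (.pow
  (.v (.n 1)) 2)) (.mul (.mul (.mul (.c (-637870 / 1573)) (.v (.Q 0))) (.v (.n 0))) (.v (.n 3))))
  (.add (.mul (.mul (.mul (.c (-52582120 / 224939)) (.v (.Q 0))) (.pow (.v (.n 0)) 2)) (.v (.n
  2))) (.add (.mul (.mul (.mul (.c (45430400 / 17303)) (.v (.Q 0))) (.pow (.v (.n 0)) 3)) (.v (.n
  1))) (.mul (.mul (.c (-601147920 / 224939)) (.v (.Q 0))) (.pow (.v (.n 0)) 5))))) (.add (.add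
  (.mul (.mul (.mul (.c (-1865800 / 1573)) (.v (.Q 0))) (.v (.n 1))) (.v (.n 2))) (.mul (.mul
  (.mul (.c (195290 / 1573)) (.pow (.v (.Q 0)) 2)) (.v (.n 0))) (.v (.n 1)))) (.add (.mul (.mul
  (.c (427100140 / 224939)) (.pow (.v (.Q 0)) 2)) (.pow (.v (.n 0)) 3)) (.add (.mul (.mul (.c
  (9421 / 121)) (.pow (.v (.Q 0)) 2)) (.v (.n 2))) (.mul (.mul (.c (-3420 / 121)) (.pow (.v (.Q
  0)) 3)) (.v (.n 0))))))) (.add (.add (.add (.mul (.mul (.mul (.c (4102040 / 1573)) (.v (.n 0)))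
  (.v (.n 1))) (.v (.n 3))) (.mul (.mul (.c (-55104240 / 1573)) (.v (.n 0))) (.pow (.v (.n 1))
  3))) (.add (.mul (.mul (.c (-584560 / 20449)) (.v (.n 0))) (.pow (.v (.n 2)) 2)) (.add (.mul
  (.mul (.mul (.c (-202720 / 11)) (.pow (.v (.n 0)) 2)) (.v (.n 1))) (.v (.n 2))) (.mul (.mul (.c
  (8609303520 / 224939)) (.pow (.v (.n 0)) 3)) (.pow (.v (.n 1)) 2))))) (.add (.add (.mul (.mul
  (.c (49043760 / 17303)) (.pow (.v (.n 0)) 3)) (.v (.n 3))) (.add (.mul (.mul (.c (-10090828320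
  / 224939)) (.pow (.v (.n 0)) 4)) (.v (.n 2))) (.mul (.mul (.c (4130155840 / 20449)) (.pow (.v
  (.n 0)) 5)) (.v (.n 1))))) (.add (.mul (.c (-26677248640 / 224939)) (.pow (.v (.n 0)) 7)) (.add
  (.mul (.mul (.c (462360 / 143)) (.pow (.v (.n 1)) 2)) (.v (.n 2))) (.mul (.mul (.c (19960 /
  143)) (.v (.n 2))) (.v (.n 3)))))))

noncomputable def xT0 : Ex :=
  .add (.add (.add (.add (.mul (.mul (.mul (.c (-52609 / 5153148)) (.v (.Q 0))) (.v (.n 0)))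
  (.pow (.v (.n 1)) 2)) (.mul (.mul (.mul (.c (4463 / 10306296)) (.v (.Q 0))) (.v (.n 0))) (.v
  (.n 3)))) (.add (.mul (.mul (.mul (.c (-1519514 / 184225041)) (.v (.Q 0))) (.pow (.v (.n 0))
  2)) (.v (.n 2))) (.add (.mul (.mul (.mul (.c (16711049 / 368450082)) (.v (.Q 0))) (.pow (.v (.n
  0)) 3)) (.v (.n 1))) (.mul (.mul (.c (-4350616 / 184225041)) (.v (.Q 0))) (.pow (.v (.n 0))
  5))))) (.add (.add (.mul (.mul (.mul (.c (669 / 572572)) (.v (.Q 0))) (.v (.n 1))) (.v (.n 2)))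
  (.mul (.mul (.mul (.c (293 / 1472328)) (.pow (.v (.Q 0)) 2)) (.v (.n 0))) (.v (.n 1)))) (.add
  (.mul (.mul (.c (46729 / 736900164)) (.pow (.v (.Q 0)) 2)) (.pow (.v (.n 0)) 3)) (.add (.mul
  (.mul (.c (-1 / 88088)) (.pow (.v (.Q 0)) 2)) (.v (.n 2))) (.mul (.mul (.c (-9 / 88088)) (.pow
  (.v (.Q 0)) 3)) (.v (.n 0))))))) (.add (.add (.add (.mul (.mul (.mul (.c (32555 / 5153148)) (.v
  (.n 0))) (.v (.n 1))) (.v (.n 3))) (.mul (.mul (.c (-32555 / 858858)) (.v (.n 0))) (.pow (.v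
  (.n 1)) 3))) (.add (.mul (.mul (.c (159833 / 11165154)) (.v (.n 0))) (.pow (.v (.n 2)) 2))
  (.add (.mul (.mul (.mul (.c (-224047 / 1522521)) (.pow (.v (.n 0)) 2)) (.v (.n 1))) (.v (.n
  2))) (.mul (.mul (.c (3440516 / 8772621)) (.pow (.v (.n 0)) 3)) (.pow (.v (.n 1)) 2))))) (.add
  (.add (.mul (.mul (.c (-60124 / 14171157)) (.pow (.v (.n 0)) 3)) (.v (.n 3))) (.add (.mul (.mul
  (.c (16610941 / 184225041)) (.pow (.v (.n 0)) 4)) (.v (.n 2))) (.mul (.mul (.c (-7374470 /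
  16747731)) (.pow (.v (.n 0)) 5)) (.v (.n 1))))) (.add (.mul (.c (24006520 / 184225041)) (.pow
  (.v (.n 0)) 7)) (.add (.mul (.mul (.c (327 / 52052)) (.pow (.v (.n 1)) 2)) (.v (.n 2))) (.mul
  (.mul (.c (-109 / 104104)) (.v (.n 2))) (.v (.n 3)))))))

noncomputable def xT1 : Ex :=
  .add (.add (.add (.add (.mul (.mul (.mul (.mul (.c (-6458273 / 61408347)) (.v (.Q 0))) (.v (.n
  0))) (.v (.n 1))) (.v (.n 2))) (.add (.mul (.mul (.mul (.c (24815369 / 122816694)) (.v (.Q 0)))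
  (.pow (.v (.n 0)) 2)) (.pow (.v (.n 1)) 2)) (.mul (.mul (.mul (.c (259411 / 81877796)) (.v (.Q
  0))) (.pow (.v (.n 0)) 2)) (.v (.n 3))))) (.add (.add (.mul (.mul (.mul (.c (-537385729 /
  26344180863)) (.v (.Q 0))) (.pow (.v (.n 0)) 3)) (.v (.n 2))) (.mul (.mul (.mul (.c (495028220
  / 2927131207)) (.v (.Q 0))) (.pow (.v (.n 0)) 4)) (.v (.n 1)))) (.add (.mul (.mul (.c
  (-1576262528 / 8781393621)) (.v (.Q 0))) (.pow (.v (.n 0)) 6)) (.mul (.mul (.mul (.c (16505 /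
  10306296)) (.v (.Q 0))) (.v (.n 1))) (.v (.n 3)))))) (.add (.add (.add (.mul (.mul (.c (-52609
  / 5153148)) (.v (.Q 0))) (.pow (.v (.n 1)) 3)) (.mul (.mul (.c (11653 / 1145144)) (.v (.Q 0)))
  (.pow (.v (.n 2)) 2))) (.add (.mul (.mul (.mul (.c (-71105 / 9447438)) (.pow (.v (.Q 0)) 2))
  (.v (.n 0))) (.v (.n 2))) (.mul (.mul (.mul (.c (7821538 / 184225041)) (.pow (.v (.Q 0)) 2))
  (.pow (.v (.n 0)) 2)) (.v (.n 1))))) (.add (.add (.mul (.mul (.c (-408747499 / 17562787242))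
  (.pow (.v (.Q 0)) 2)) (.pow (.v (.n 0)) 4)) (.mul (.mul (.c (293 / 1472328)) (.pow (.v (.Q 0))
  2)) (.pow (.v (.n 1)) 2))) (.add (.mul (.mul (.c (-1 / 88088)) (.pow (.v (.Q 0)) 2)) (.v (.n
  3))) (.mul (.mul (.c (1501 / 6298292)) (.pow (.v (.Q 0)) 3)) (.pow (.v (.n 0)) 2)))))) (.add
  (.add (.add (.add (.mul (.mul (.c (-9 / 88088)) (.pow (.v (.Q 0)) 3)) (.v (.n 1))) (.mul (.mul
  (.mul (.c (8050907 / 33495462)) (.v (.n 0))) (.pow (.v (.n 1)) 2)) (.v (.n 2)))) (.add (.mul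
  (.mul (.mul (.c (806431 / 66990924)) (.v (.n 0))) (.v (.n 2))) (.v (.n 3))) (.mul (.mul (.mul
  (.c (-3984143 / 184225041)) (.pow (.v (.n 0)) 2)) (.v (.n 1))) (.v (.n 3))))) (.add (.add (.mul
  (.mul (.c (-49577774 / 61408347)) (.pow (.v (.n 0)) 2)) (.pow (.v (.n 1)) 3)) (.mul (.mul (.c
  (138604909 / 2394925533)) (.pow (.v (.n 0)) 2)) (.pow (.v (.n 2)) 2))) (.add (.mul (.mul (.mul
  (.c (-409528546 / 342132219)) (.pow (.v (.n 0)) 3)) (.v (.n 1))) (.v (.n 2))) (.mul (.mul (.c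
  (118606532050 / 26344180863)) (.pow (.v (.n 0)) 4)) (.pow (.v (.n 1)) 2))))) (.add (.add (.add
  (.mul (.mul (.c (-1826233 / 675491817)) (.pow (.v (.n 0)) 4)) (.v (.n 3))) (.mul (.mul (.c
  (2861603414 / 3763454409)) (.pow (.v (.n 0)) 5)) (.v (.n 2)))) (.add (.mul (.mul (.c
  (-11797316800 / 2394925533)) (.pow (.v (.n 0)) 6)) (.v (.n 1))) (.mul (.c (4384953984 /
  2927131207)) (.pow (.v (.n 0)) 8)))) (.add (.add (.mul (.mul (.c (-11204 / 429429)) (.v (.n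
  1))) (.pow (.v (.n 2)) 2)) (.mul (.mul (.c (16232 / 1288287)) (.pow (.v (.n 1)) 2)) (.v (.n
  3)))) (.add (.mul (.c (-32555 / 858858)) (.pow (.v (.n 1)) 4)) (.mul (.c (-109 / 104104)) (.pow
  (.v (.n 3)) 2))))))

noncomputable def xT2 : Ex :=
  .add (.add (.add (.add (.add (.mul (.mul (.mul (.mul (.c (-7920331 / 56684628)) (.v (.Q 0)))
  (.v (.n 0))) (.v (.n 1))) (.v (.n 3))) (.mul (.mul (.mul (.c (3171601 / 9447438)) (.v (.Q 0)))
  (.v (.n 0))) (.pow (.v (.n 1)) 3))) (.add (.mul (.mul (.mul (.c (-71167123 / 368450082)) (.v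
  (.Q 0))) (.v (.n 0))) (.pow (.v (.n 2)) 2)) (.mul (.mul (.mul (.mul (.c (2863329691 /
  4052950902)) (.v (.Q 0))) (.pow (.v (.n 0)) 2)) (.v (.n 1))) (.v (.n 2))))) (.add (.add (.mul
  (.mul (.mul (.c (9472675 / 2026475451)) (.v (.Q 0))) (.pow (.v (.n 0)) 3)) (.pow (.v (.n 1))
  2)) (.mul (.mul (.mul (.c (411884359 / 4052950902)) (.v (.Q 0))) (.pow (.v (.n 0)) 3)) (.v (.n
  3)))) (.add (.mul (.mul (.mul (.c (-269834693330 / 289785989493)) (.v (.Q 0))) (.pow (.v (.n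
  0)) 4)) (.v (.n 2))) (.add (.mul (.mul (.mul (.c (898441303126 / 289785989493)) (.v (.Q 0)))
  (.pow (.v (.n 0)) 5)) (.v (.n 1))) (.mul (.mul (.c (-208080054356 / 96595329831)) (.v (.Q 0)))
  (.pow (.v (.n 0)) 7)))))) (.add (.add (.add (.mul (.mul (.mul (.c (-9082669 / 56684628)) (.v
  (.Q 0))) (.pow (.v (.n 1)) 2)) (.v (.n 2))) (.mul (.mul (.mul (.c (412289 / 10306296)) (.v (.Q
  0))) (.v (.n 2))) (.v (.n 3)))) (.add (.mul (.mul (.mul (.c (113349 / 572572)) (.pow (.v (.Q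
  0)) 2)) (.v (.n 0))) (.pow (.v (.n 1)) 2)) (.add (.mul (.mul (.mul (.c (-139091 / 9447438))
  (.pow (.v (.Q 0)) 2)) (.v (.n 0))) (.v (.n 3))) (.mul (.mul (.mul (.c (455603 / 8105901804))
  (.pow (.v (.Q 0)) 2)) (.pow (.v (.n 0)) 2)) (.v (.n 2)))))) (.add (.add (.mul (.mul (.mul (.c
  (23192999 / 96498831)) (.pow (.v (.Q 0)) 2)) (.pow (.v (.n 0)) 3)) (.v (.n 1))) (.mul (.mul (.c
  (-22944778627 / 96595329831)) (.pow (.v (.Q 0)) 2)) (.pow (.v (.n 0)) 5))) (.add (.mul (.mul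
  (.mul (.c (-356699 / 16195608)) (.pow (.v (.Q 0)) 2)) (.v (.n 1))) (.v (.n 2))) (.add (.mul
  (.mul (.mul (.c (12871 / 3149146)) (.pow (.v (.Q 0)) 3)) (.v (.n 0))) (.v (.n 1))) (.mul (.mul
  (.c (230848 / 17320303)) (.pow (.v (.Q 0)) 3)) (.pow (.v (.n 0)) 3))))))) (.add (.add (.add
  (.add (.mul (.mul (.c (-1 / 242242)) (.pow (.v (.Q 0)) 3)) (.v (.n 2))) (.mul (.mul (.c (-9 /
  242242)) (.pow (.v (.Q 0)) 4)) (.v (.n 0)))) (.add (.mul (.mul (.mul (.c (178773688 /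
  184225041)) (.v (.n 0))) (.v (.n 1))) (.pow (.v (.n 2)) 2)) (.add (.mul (.mul (.mul (.c
  (10910645 / 9447438)) (.v (.n 0))) (.pow (.v (.n 1)) 2)) (.v (.n 3))) (.mul (.mul (.c (-8920162
  / 1574573)) (.v (.n 0))) (.pow (.v (.n 1)) 4))))) (.add (.add (.mul (.mul (.c (-180953 /
  5153148)) (.v (.n 0))) (.pow (.v (.n 3)) 2)) (.mul (.mul (.mul (.c (-764070446 / 61408347))
  (.pow (.v (.n 0)) 2)) (.pow (.v (.n 1)) 2)) (.v (.n 2)))) (.add (.mul (.mul (.mul (.c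
  (148392973 / 184225041)) (.pow (.v (.n 0)) 2)) (.v (.n 2))) (.v (.n 3))) (.add (.mul (.mul
  (.mul (.c (-7362729830 / 2026475451)) (.pow (.v (.n 0)) 3)) (.v (.n 1))) (.v (.n 3))) (.mul
  (.mul (.c (23467850680 / 675491817)) (.pow (.v (.n 0)) 3)) (.pow (.v (.n 1)) 3)))))) (.add
  (.add (.add (.mul (.mul (.c (-32218151324 / 8781393621)) (.pow (.v (.n 0)) 3)) (.pow (.v (.n
  2)) 2)) (.mul (.mul (.mul (.c (737511342310 / 26344180863)) (.pow (.v (.n 0)) 4)) (.v (.n 1)))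
  (.v (.n 2)))) (.add (.mul (.mul (.c (-5185631497016 / 96595329831)) (.pow (.v (.n 0)) 5)) (.pow
  (.v (.n 1)) 2)) (.add (.mul (.mul (.c (34107761158 / 22291229961)) (.pow (.v (.n 0)) 5)) (.v
  (.n 3))) (.mul (.mul (.c (-910722937984 / 96595329831)) (.pow (.v (.n 0)) 6)) (.v (.n 2))))))
  (.add (.add (.mul (.mul (.c (77455920896 / 3763454409)) (.pow (.v (.n 0)) 7)) (.v (.n 1)))
  (.mul (.c (-5546645056 / 96595329831)) (.pow (.v (.n 0)) 9))) (.add (.mul (.mul (.mul (.c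
  (-628763 / 5153148)) (.v (.n 1))) (.v (.n 2))) (.v (.n 3))) (.add (.mul (.mul (.c (628763 /
  858858)) (.pow (.v (.n 1)) 3)) (.v (.n 2))) (.mul (.c (-116509 / 11165154)) (.pow (.v (.n 2))
  3)))))))

noncomputable def xT3 : Ex :=
  .add (.add (.add (.add (.add (.mul (.mul (.mul (.mul (.c (-1994384156 / 61408347)) (.v (.Q 0)))
  (.v (.n 0))) (.pow (.v (.n 1)) 2)) (.v (.n 2))) (.add (.mul (.mul (.mul (.mul (.c (200776010 /
  184225041)) (.v (.Q 0))) (.v (.n 0))) (.v (.n 2))) (.v (.n 3))) (.mul (.mul (.mul (.mul (.c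
  (-1619622209 / 311765454)) (.v (.Q 0))) (.pow (.v (.n 0)) 2)) (.v (.n 1))) (.v (.n 3))))) (.add
  (.mul (.mul (.mul (.c (357996475 / 3996993)) (.v (.Q 0))) (.pow (.v (.n 0)) 2)) (.pow (.v (.n
  1)) 3)) (.add (.mul (.mul (.mul (.c (-806719861477 / 52688361726)) (.v (.Q 0))) (.pow (.v (.n
  0)) 2)) (.pow (.v (.n 2)) 2)) (.mul (.mul (.mul (.mul (.c (1879215133940 / 13799332833)) (.v
  (.Q 0))) (.pow (.v (.n 0)) 3)) (.v (.n 1))) (.v (.n 2)))))) (.add (.add (.mul (.mul (.mul (.c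
  (-10105152995290 / 32198443277)) (.v (.Q 0))) (.pow (.v (.n 0)) 4)) (.pow (.v (.n 1)) 2)) (.add
  (.mul (.mul (.mul (.c (21270828385 / 7430409987)) (.v (.Q 0))) (.pow (.v (.n 0)) 4)) (.v (.n
  3))) (.mul (.mul (.mul (.c (-30016124584288 / 455377983489)) (.v (.Q 0))) (.pow (.v (.n 0)) 5))
  (.v (.n 2))))) (.add (.add (.mul (.mul (.mul (.c (98946227914460 / 354182876047)) (.v (.Q 0)))
  (.pow (.v (.n 0)) 6)) (.v (.n 1))) (.mul (.mul (.c (-251198751807056 / 3187645884423)) (.v (.Q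
  0))) (.pow (.v (.n 0)) 8))) (.add (.mul (.mul (.mul (.c (630020555 / 245633388)) (.v (.Q 0)))
  (.v (.n 1))) (.pow (.v (.n 2)) 2)) (.mul (.mul (.mul (.c (-607250 / 2024451)) (.v (.Q 0)))
  (.pow (.v (.n 1)) 2)) (.v (.n 3))))))) (.add (.add (.add (.mul (.mul (.c (3171601 / 9447438))
  (.v (.Q 0))) (.pow (.v (.n 1)) 4)) (.add (.mul (.mul (.c (412289 / 10306296)) (.v (.Q 0)))
  (.pow (.v (.n 3)) 2)) (.mul (.mul (.mul (.mul (.c (7597867399 / 4052950902)) (.pow (.v (.Q 0))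
  2)) (.v (.n 0))) (.v (.n 1))) (.v (.n 2))))) (.add (.add (.mul (.mul (.mul (.c (147197023 /
  28342314)) (.pow (.v (.Q 0)) 2)) (.pow (.v (.n 0)) 2)) (.pow (.v (.n 1)) 2)) (.mul (.mul (.mul
  (.c (-420605785 / 623530908)) (.pow (.v (.Q 0)) 2)) (.pow (.v (.n 0)) 2)) (.v (.n 3)))) (.add
  (.mul (.mul (.mul (.c (1270431698036 / 289785989493)) (.pow (.v (.Q 0)) 2)) (.pow (.v (.n 0))
  3)) (.v (.n 2))) (.mul (.mul (.mul (.c (-253824458155 / 13799332833)) (.pow (.v (.Q 0)) 2))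
  (.pow (.v (.n 0)) 4)) (.v (.n 1)))))) (.add (.add (.mul (.mul (.c (23123287892990 /
  3187645884423)) (.pow (.v (.Q 0)) 2)) (.pow (.v (.n 0)) 6)) (.add (.mul (.mul (.mul (.c
  (-4165985 / 113369256)) (.pow (.v (.Q 0)) 2)) (.v (.n 1))) (.v (.n 3))) (.mul (.mul (.c (113349
  / 572572)) (.pow (.v (.Q 0)) 2)) (.pow (.v (.n 1)) 3)))) (.add (.add (.mul (.mul (.c (-89031 /
  242242)) (.pow (.v (.Q 0)) 2)) (.pow (.v (.n 2)) 2)) (.mul (.mul (.mul (.c (27215215 /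
  103921818)) (.pow (.v (.Q 0)) 3)) (.v (.n 0))) (.v (.n 2)))) (.add (.mul (.mul (.mul (.c
  (-49601171 / 51960909)) (.pow (.v (.Q 0)) 3)) (.pow (.v (.n 0)) 2)) (.v (.n 1))) (.mul (.mul
  (.c (73133226272 / 96595329831)) (.pow (.v (.Q 0)) 3)) (.pow (.v (.n 0)) 4))))))) (.add (.add
  (.add (.add (.mul (.mul (.c (12871 / 3149146)) (.pow (.v (.Q 0)) 3)) (.pow (.v (.n 1)) 2))
  (.add (.mul (.mul (.c (-1 / 242242)) (.pow (.v (.Q 0)) 3)) (.v (.n 3))) (.mul (.mul (.c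
  (-844446 / 17320303)) (.pow (.v (.Q 0)) 4)) (.pow (.v (.n 0)) 2)))) (.add (.mul (.mul (.c (-9 /
  242242)) (.pow (.v (.Q 0)) 4)) (.v (.n 1))) (.add (.mul (.mul (.mul (.mul (.c (-210699298 /
  184225041)) (.v (.n 0))) (.v (.n 1))) (.v (.n 2))) (.v (.n 3))) (.mul (.mul (.mul (.c
  (3377226796 / 61408347)) (.v (.n 0))) (.pow (.v (.n 1)) 3)) (.v (.n 2)))))) (.add (.add (.mul
  (.mul (.c (537462238 / 798308511)) (.v (.n 0))) (.pow (.v (.n 2)) 3)) (.add (.mul (.mul (.mul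
  (.c (100938605674 / 2927131207)) (.pow (.v (.n 0)) 2)) (.v (.n 1))) (.pow (.v (.n 2)) 2)) (.mul
  (.mul (.mul (.c (1405788988 / 51960909)) (.pow (.v (.n 0)) 2)) (.pow (.v (.n 1)) 2)) (.v (.n
  3))))) (.add (.add (.mul (.mul (.c (-4828412180 / 17320303)) (.pow (.v (.n 0)) 2)) (.pow (.v
  (.n 1)) 4)) (.mul (.mul (.c (-1221721 / 1574573)) (.pow (.v (.n 0)) 2)) (.pow (.v (.n 3)) 2)))
  (.add (.mul (.mul (.mul (.c (-1751235900020 / 2927131207)) (.pow (.v (.n 0)) 3)) (.pow (.v (.n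
  1)) 2)) (.v (.n 2))) (.mul (.mul (.mul (.c (44932744702 / 2026475451)) (.pow (.v (.n 0)) 3))
  (.v (.n 2))) (.v (.n 3))))))) (.add (.add (.add (.mul (.mul (.mul (.c (-2503898579080 /
  22291229961)) (.pow (.v (.n 0)) 4)) (.v (.n 1))) (.v (.n 3))) (.add (.mul (.mul (.c
  (27421456801720 / 13799332833)) (.pow (.v (.n 0)) 4)) (.pow (.v (.n 1)) 3)) (.mul (.mul (.c
  (-41184697797470 / 289785989493)) (.pow (.v (.n 0)) 4)) (.pow (.v (.n 2)) 2)))) (.add (.add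
  (.mul (.mul (.mul (.c (47485363980640 / 32198443277)) (.pow (.v (.n 0)) 5)) (.v (.n 1))) (.v
  (.n 2))) (.mul (.mul (.c (-1475131943915744 / 354182876047)) (.pow (.v (.n 0)) 6)) (.pow (.v
  (.n 1)) 2))) (.add (.mul (.mul (.c (12959984684848 / 245203529571)) (.pow (.v (.n 0)) 6)) (.v
  (.n 3))) (.mul (.mul (.c (-151690895486384 / 245203529571)) (.pow (.v (.n 0)) 7)) (.v (.n
  2)))))) (.add (.add (.mul (.mul (.c (91701572580032 / 32198443277)) (.pow (.v (.n 0)) 8)) (.v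
  (.n 1))) (.add (.mul (.c (-1931469405690304 / 3187645884423)) (.pow (.v (.n 0)) 10)) (.mul
  (.mul (.c (-202429 / 1288287)) (.v (.n 1))) (.pow (.v (.n 3)) 2)))) (.add (.add (.mul (.mul (.c
  (-141737217 / 40938898)) (.pow (.v (.n 1)) 2)) (.pow (.v (.n 2)) 2)) (.mul (.mul (.c (2971173 /
  1574573)) (.pow (.v (.n 1)) 3)) (.v (.n 3)))) (.add (.mul (.c (-8920162 / 1574573)) (.pow (.v
  (.n 1)) 5)) (.mul (.mul (.c (-292771 / 3190044)) (.pow (.v (.n 2)) 2)) (.v (.n 3))))))))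

noncomputable def xT4 : Ex :=
  .add (.add (.add (.add (.add (.add (.mul (.mul (.mul (.mul (.c (-261496951930 / 26344180863))
  (.v (.Q 0))) (.v (.n 0))) (.v (.n 1))) (.pow (.v (.n 2)) 2)) (.mul (.mul (.mul (.mul (.c
  (-25742012225 / 289496493)) (.v (.Q 0))) (.v (.n 0))) (.pow (.v (.n 1)) 2)) (.v (.n 3)))) (.add
  (.mul (.mul (.mul (.c (236775940715 / 675491817)) (.v (.Q 0))) (.v (.n 0))) (.pow (.v (.n 1))
  4)) (.mul (.mul (.mul (.c (2244054095 / 736900164)) (.v (.Q 0))) (.v (.n 0))) (.pow (.v (.n 3))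
  2)))) (.add (.add (.mul (.mul (.mul (.mul (.c (-90798775279175 / 289785989493)) (.v (.Q 0)))
  (.pow (.v (.n 0)) 2)) (.pow (.v (.n 1)) 2)) (.v (.n 2))) (.mul (.mul (.mul (.mul (.c
  (-217697119505 / 17562787242)) (.v (.Q 0))) (.pow (.v (.n 0)) 2)) (.v (.n 2))) (.v (.n 3))))
  (.add (.mul (.mul (.mul (.mul (.c (11605401481075 / 289785989493)) (.v (.Q 0))) (.pow (.v (.n
  0)) 3)) (.v (.n 1))) (.v (.n 3))) (.mul (.mul (.mul (.c (426386972585570 / 289785989493)) (.v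
  (.Q 0))) (.pow (.v (.n 0)) 3)) (.pow (.v (.n 1)) 3))))) (.add (.add (.add (.mul (.mul (.mul (.c
  (-414597818818780 / 1255739287803)) (.v (.Q 0))) (.pow (.v (.n 0)) 3)) (.pow (.v (.n 2)) 2))
  (.mul (.mul (.mul (.mul (.c (147287711498541920 / 41439396497499)) (.v (.Q 0))) (.pow (.v (.n
  0)) 4)) (.v (.n 1))) (.v (.n 2)))) (.add (.mul (.mul (.mul (.c (-401237728464428500 /
  41439396497499)) (.v (.Q 0))) (.pow (.v (.n 0)) 5)) (.pow (.v (.n 1)) 2)) (.mul (.mul (.mul (.c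
  (-1173380593670 / 1062548628141)) (.v (.Q 0))) (.pow (.v (.n 0)) 5)) (.v (.n 3))))) (.add (.add
  (.mul (.mul (.mul (.c (-115967295730310300 / 65119051638927)) (.v (.Q 0))) (.pow (.v (.n 0))
  6)) (.v (.n 2))) (.mul (.mul (.mul (.c (450517877444779080 / 50648151274721)) (.v (.Q 0)))
  (.pow (.v (.n 0)) 7)) (.v (.n 1)))) (.add (.mul (.mul (.c (-149632801129950560 /
  65119051638927)) (.v (.Q 0))) (.pow (.v (.n 0)) 9)) (.mul (.mul (.mul (.mul (.c (507874995 /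
  40938898)) (.v (.Q 0))) (.v (.n 1))) (.v (.n 2))) (.v (.n 3))))))) (.add (.add (.add (.add
  (.mul (.mul (.mul (.c (-126679270775 / 2026475451)) (.v (.Q 0))) (.pow (.v (.n 1)) 3)) (.v (.n
  2))) (.mul (.mul (.c (273468275 / 122816694)) (.v (.Q 0))) (.pow (.v (.n 2)) 3))) (.add (.mul
  (.mul (.mul (.mul (.c (6365358001 / 4052950902)) (.pow (.v (.Q 0)) 2)) (.v (.n 0))) (.v (.n
  1))) (.v (.n 3))) (.mul (.mul (.mul (.c (36729544570 / 2026475451)) (.pow (.v (.Q 0)) 2)) (.v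
  (.n 0))) (.pow (.v (.n 1)) 3)))) (.add (.add (.mul (.mul (.mul (.c (-5475209617 / 578992986))
  (.pow (.v (.Q 0)) 2)) (.v (.n 0))) (.pow (.v (.n 2)) 2)) (.mul (.mul (.mul (.mul (.c
  (48189293038877 / 579571978986)) (.pow (.v (.Q 0)) 2)) (.pow (.v (.n 0)) 2)) (.v (.n 1))) (.v
  (.n 2)))) (.add (.mul (.mul (.mul (.c (19841745766121 / 289785989493)) (.pow (.v (.Q 0)) 2))
  (.pow (.v (.n 0)) 3)) (.pow (.v (.n 1)) 2)) (.mul (.mul (.mul (.c (-2178133526377 /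
  96595329831)) (.pow (.v (.Q 0)) 2)) (.pow (.v (.n 0)) 3)) (.v (.n 3)))))) (.add (.add (.add
  (.mul (.mul (.mul (.c (7942251364264618 / 41439396497499)) (.pow (.v (.Q 0)) 2)) (.pow (.v (.n
  0)) 4)) (.v (.n 2))) (.mul (.mul (.mul (.c (-37228130685789200 / 41439396497499)) (.pow (.v (.Q
  0)) 2)) (.pow (.v (.n 0)) 5)) (.v (.n 1)))) (.add (.mul (.mul (.c (205679987300036252 /
  455833361472489)) (.pow (.v (.Q 0)) 2)) (.pow (.v (.n 0)) 7)) (.mul (.mul (.mul (.c (2325509887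
  / 736900164)) (.pow (.v (.Q 0)) 2)) (.pow (.v (.n 1)) 2)) (.v (.n 2))))) (.add (.add (.mul
  (.mul (.mul (.c (-165836071 / 113369256)) (.pow (.v (.Q 0)) 2)) (.v (.n 2))) (.v (.n 3))) (.mul
  (.mul (.mul (.c (-34880800937 / 8105901804)) (.pow (.v (.Q 0)) 3)) (.v (.n 0))) (.pow (.v (.n
  1)) 2))) (.add (.mul (.mul (.mul (.c (7773097 / 14845974)) (.pow (.v (.Q 0)) 3)) (.v (.n 0)))
  (.v (.n 3))) (.add (.mul (.mul (.mul (.c (995116852979 / 89164919844)) (.pow (.v (.Q 0)) 3))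
  (.pow (.v (.n 0)) 2)) (.v (.n 2))) (.mul (.mul (.mul (.c (-144468666526 / 2927131207)) (.pow
  (.v (.Q 0)) 3)) (.pow (.v (.n 0)) 3)) (.v (.n 1))))))))) (.add (.add (.add (.add (.add (.mul
  (.mul (.c (1216336159478837 / 41439396497499)) (.pow (.v (.Q 0)) 3)) (.pow (.v (.n 0)) 5))
  (.mul (.mul (.mul (.c (731990587 / 1247061816)) (.pow (.v (.Q 0)) 3)) (.v (.n 1))) (.v (.n
  2)))) (.add (.mul (.mul (.mul (.c (-7569259 / 34640606)) (.pow (.v (.Q 0)) 4)) (.v (.n 0))) (.v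
  (.n 1))) (.mul (.mul (.c (-7325467755 / 2476803329)) (.pow (.v (.Q 0)) 4)) (.pow (.v (.n 0))
  3)))) (.add (.add (.mul (.mul (.c (-2 / 1332331)) (.pow (.v (.Q 0)) 4)) (.v (.n 2))) (.mul
  (.mul (.c (-18 / 1332331)) (.pow (.v (.Q 0)) 5)) (.v (.n 0)))) (.add (.mul (.mul (.mul (.c
  (-622750819 / 61408347)) (.v (.n 0))) (.v (.n 1))) (.pow (.v (.n 3)) 2)) (.mul (.mul (.mul (.c
  (3442671134894 / 26344180863)) (.v (.n 0))) (.pow (.v (.n 1)) 2)) (.pow (.v (.n 2)) 2)))))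
  (.add (.add (.add (.mul (.mul (.mul (.c (174101777464 / 675491817)) (.v (.n 0))) (.pow (.v (.n
  1)) 3)) (.v (.n 3))) (.mul (.mul (.c (-266000446820 / 225163939)) (.v (.n 0))) (.pow (.v (.n
  1)) 5))) (.add (.mul (.mul (.mul (.c (55442653 / 114044073)) (.v (.n 0))) (.pow (.v (.n 2)) 2))
  (.v (.n 3))) (.mul (.mul (.mul (.mul (.c (3423833311972 / 26344180863)) (.pow (.v (.n 0)) 2))
  (.v (.n 1))) (.v (.n 2))) (.v (.n 3))))) (.add (.add (.mul (.mul (.mul (.c (-3141732695960 /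
  2927131207)) (.pow (.v (.n 0)) 2)) (.pow (.v (.n 1)) 3)) (.v (.n 2))) (.mul (.mul (.c
  (10278391209728 / 342474351219)) (.pow (.v (.n 0)) 2)) (.pow (.v (.n 2)) 3))) (.add (.mul (.mul
  (.mul (.c (-319786604300360 / 3767217863409)) (.pow (.v (.n 0)) 3)) (.v (.n 1))) (.pow (.v (.n
  2)) 2)) (.mul (.mul (.mul (.c (-49207069165960 / 289785989493)) (.pow (.v (.n 0)) 3)) (.pow (.v
  (.n 1)) 2)) (.v (.n 3))))))) (.add (.add (.add (.add (.mul (.mul (.c (-4485963452560 /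
  96595329831)) (.pow (.v (.n 0)) 3)) (.pow (.v (.n 1)) 4)) (.mul (.mul (.c (-8459778256 /
  675491817)) (.pow (.v (.n 0)) 3)) (.pow (.v (.n 3)) 2))) (.add (.mul (.mul (.mul (.c
  (-2893104531839840 / 342474351219)) (.pow (.v (.n 0)) 4)) (.pow (.v (.n 1)) 2)) (.v (.n 2)))
  (.mul (.mul (.mul (.c (42164093103280 / 96595329831)) (.pow (.v (.n 0)) 4)) (.v (.n 2))) (.v
  (.n 3))))) (.add (.add (.mul (.mul (.mul (.c (-6682081006230944 / 3187645884423)) (.pow (.v (.n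
  0)) 5)) (.v (.n 1))) (.v (.n 3))) (.mul (.mul (.c (181744935672705952 / 4604377388611)) (.pow
  (.v (.n 0)) 5)) (.pow (.v (.n 1)) 3))) (.add (.mul (.mul (.c (-136581223308666104 /
  41439396497499)) (.pow (.v (.n 0)) 5)) (.pow (.v (.n 2)) 2)) (.mul (.mul (.mul (.c
  (1496012814387221344 / 41439396497499)) (.pow (.v (.n 0)) 6)) (.v (.n 1))) (.v (.n 2))))))
  (.add (.add (.add (.mul (.mul (.c (-51296485589719592576 / 455833361472489)) (.pow (.v (.n 0))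
  7)) (.pow (.v (.n 1)) 2)) (.mul (.mul (.c (13911108267796000 / 11688034909551)) (.pow (.v (.n
  0)) 7)) (.v (.n 3)))) (.add (.mul (.mul (.c (-7866644247209308544 / 455833361472489)) (.pow (.v
  (.n 0)) 8)) (.v (.n 2))) (.mul (.mul (.c (3660503766011437760 / 41439396497499)) (.pow (.v (.n
  0)) 9)) (.v (.n 1))))) (.add (.add (.mul (.c (-1061452590411177728 / 50648151274721)) (.pow (.v
  (.n 0)) 11)) (.mul (.mul (.c (-436350680 / 61408347)) (.v (.n 1))) (.pow (.v (.n 2)) 3))) (.add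
  (.mul (.mul (.mul (.c (-3556805368 / 184225041)) (.pow (.v (.n 1)) 2)) (.v (.n 2))) (.v (.n
  3))) (.add (.mul (.mul (.c (7730704136 / 61408347)) (.pow (.v (.n 1)) 4)) (.v (.n 2))) (.mul
  (.mul (.c (-667850 / 2392533)) (.v (.n 2))) (.pow (.v (.n 3)) 2))))))))

noncomputable def xT5 : Ex :=
  .add (.add (.add (.add (.add (.add (.mul (.mul (.mul (.mul (.mul (.c (16015847350550 /
  26344180863)) (.v (.Q 0))) (.v (.n 0))) (.v (.n 1))) (.v (.n 2))) (.v (.n 3))) (.mul (.mul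
  (.mul (.mul (.c (-3243781899332320 / 289785989493)) (.v (.Q 0))) (.v (.n 0))) (.pow (.v (.n 1))
  3)) (.v (.n 2)))) (.add (.mul (.mul (.mul (.c (-14492429590 / 418161601)) (.v (.Q 0))) (.v (.n
  0))) (.pow (.v (.n 2)) 3)) (.add (.mul (.mul (.mul (.mul (.c (-2325630242999860 /
  418579762601)) (.v (.Q 0))) (.pow (.v (.n 0)) 2)) (.v (.n 1))) (.pow (.v (.n 2)) 2)) (.mul
  (.mul (.mul (.mul (.c (-519388688013560 / 96595329831)) (.v (.Q 0))) (.pow (.v (.n 0)) 2))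
  (.pow (.v (.n 1)) 2)) (.v (.n 3)))))) (.add (.add (.mul (.mul (.mul (.c (1446791372114460 /
  32198443277)) (.v (.Q 0))) (.pow (.v (.n 0)) 2)) (.pow (.v (.n 1)) 4)) (.add (.mul (.mul (.mul
  (.c (399437650195 / 2927131207)) (.v (.Q 0))) (.pow (.v (.n 0)) 2)) (.pow (.v (.n 3)) 2)) (.mul
  (.mul (.mul (.mul (.c (817271420595820160 / 13813132165833)) (.v (.Q 0))) (.pow (.v (.n 0)) 3))
  (.pow (.v (.n 1)) 2)) (.v (.n 2))))) (.add (.mul (.mul (.mul (.mul (.c (-1116328109267060 /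
  538173980487)) (.v (.Q 0))) (.pow (.v (.n 0)) 3)) (.v (.n 2))) (.v (.n 3))) (.add (.mul (.mul
  (.mul (.mul (.c (414370489623858580 / 41439396497499)) (.v (.Q 0))) (.pow (.v (.n 0)) 4)) (.v
  (.n 1))) (.v (.n 3))) (.mul (.mul (.mul (.c (-6214709692417418840 / 41439396497499)) (.v (.Q
  0))) (.pow (.v (.n 0)) 4)) (.pow (.v (.n 1)) 3)))))) (.add (.add (.add (.mul (.mul (.mul (.c
  (838503623278570300 / 538712154467487)) (.v (.Q 0))) (.pow (.v (.n 0)) 4)) (.pow (.v (.n 2))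
  2)) (.mul (.mul (.mul (.mul (.c (-77834874558124847200 / 5925833699142357)) (.v (.Q 0))) (.pow
  (.v (.n 0)) 5)) (.v (.n 1))) (.v (.n 2)))) (.add (.mul (.mul (.mul (.c (9504947963330364320 /
  282182557102017)) (.v (.Q 0))) (.pow (.v (.n 0)) 6)) (.pow (.v (.n 1)) 2)) (.add (.mul (.mul
  (.mul (.c (-1816240832575509400 / 455833361472489)) (.v (.Q 0))) (.pow (.v (.n 0)) 6)) (.v (.n
  3))) (.mul (.mul (.mul (.c (-163158186038459854400 / 21728056896855309)) (.v (.Q 0))) (.pow (.v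
  (.n 0)) 7)) (.v (.n 2)))))) (.add (.add (.mul (.mul (.mul (.c (592761630696571005040 /
  9312024384366561)) (.v (.Q 0))) (.pow (.v (.n 0)) 8)) (.v (.n 1))) (.add (.mul (.mul (.c
  (-1617660546373041221440 / 65184170690565927)) (.v (.Q 0))) (.pow (.v (.n 0)) 10)) (.mul (.mul
  (.mul (.c (11385804005 / 736900164)) (.v (.Q 0))) (.v (.n 1))) (.pow (.v (.n 3)) 2)))) (.add
  (.mul (.mul (.mul (.c (10875440195 / 17320303)) (.v (.Q 0))) (.pow (.v (.n 1)) 2)) (.pow (.v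
  (.n 2)) 2)) (.add (.mul (.mul (.mul (.c (-27897577850 / 184225041)) (.v (.Q 0))) (.pow (.v (.n
  1)) 3)) (.v (.n 3))) (.mul (.mul (.c (236775940715 / 675491817)) (.v (.Q 0))) (.pow (.v (.n 1))
  5))))))) (.add (.add (.add (.add (.mul (.mul (.mul (.c (1191701620 / 61408347)) (.v (.Q 0)))
  (.pow (.v (.n 2)) 2)) (.v (.n 3))) (.mul (.mul (.mul (.mul (.c (63448675301822 / 32198443277))
  (.pow (.v (.Q 0)) 2)) (.v (.n 0))) (.pow (.v (.n 1)) 2)) (.v (.n 2)))) (.add (.mul (.mul (.mul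
  (.mul (.c (-32870477923 / 289496493)) (.pow (.v (.Q 0)) 2)) (.v (.n 0))) (.v (.n 2))) (.v (.n
  3))) (.add (.mul (.mul (.mul (.mul (.c (130062187635157 / 579571978986)) (.pow (.v (.Q 0)) 2))
  (.pow (.v (.n 0)) 2)) (.v (.n 1))) (.v (.n 3))) (.mul (.mul (.mul (.c (-113731277470403 /
  41397998499)) (.pow (.v (.Q 0)) 2)) (.pow (.v (.n 0)) 2)) (.pow (.v (.n 1)) 3))))) (.add (.add
  (.mul (.mul (.mul (.c (19652847339772 / 41397998499)) (.pow (.v (.Q 0)) 2)) (.pow (.v (.n 0))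
  2)) (.pow (.v (.n 2)) 2)) (.add (.mul (.mul (.mul (.mul (.c (-34147900189979612 /
  13813132165833)) (.pow (.v (.Q 0)) 2)) (.pow (.v (.n 0)) 3)) (.v (.n 1))) (.v (.n 2))) (.mul
  (.mul (.mul (.c (367046902888913530 / 41439396497499)) (.pow (.v (.Q 0)) 2)) (.pow (.v (.n 0))
  4)) (.pow (.v (.n 1)) 2)))) (.add (.mul (.mul (.mul (.c (-443484476194512 / 657768198373))
  (.pow (.v (.Q 0)) 2)) (.pow (.v (.n 0)) 4)) (.v (.n 3))) (.add (.mul (.mul (.mul (.c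
  (6636659606742748736 / 846547671306051)) (.pow (.v (.Q 0)) 2)) (.pow (.v (.n 0)) 5)) (.v (.n
  2))) (.mul (.mul (.mul (.c (-22645086644247020420 / 658425966571373)) (.pow (.v (.Q 0)) 2))
  (.pow (.v (.n 0)) 6)) (.v (.n 1))))))) (.add (.add (.add (.mul (.mul (.c (155161666650152925592
  / 9312024384366561)) (.pow (.v (.Q 0)) 2)) (.pow (.v (.n 0)) 8)) (.mul (.mul (.mul (.c
  (-41450698514 / 225163939)) (.pow (.v (.Q 0)) 2)) (.v (.n 1))) (.pow (.v (.n 2)) 2))) (.add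
  (.mul (.mul (.mul (.c (38311324759 / 8105901804)) (.pow (.v (.Q 0)) 2)) (.pow (.v (.n 1)) 2))
  (.v (.n 3))) (.add (.mul (.mul (.c (36729544570 / 2026475451)) (.pow (.v (.Q 0)) 2)) (.pow (.v
  (.n 1)) 4)) (.mul (.mul (.c (-165836071 / 113369256)) (.pow (.v (.Q 0)) 2)) (.pow (.v (.n 3))
  2))))) (.add (.add (.mul (.mul (.mul (.mul (.c (342431863721 / 22291229961)) (.pow (.v (.Q 0))
  3)) (.v (.n 0))) (.v (.n 1))) (.v (.n 2))) (.add (.mul (.mul (.mul (.c (-342179330148379 /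
  579571978986)) (.pow (.v (.Q 0)) 3)) (.pow (.v (.n 0)) 2)) (.pow (.v (.n 1)) 2)) (.mul (.mul
  (.mul (.c (623188136657 / 12737845692)) (.pow (.v (.Q 0)) 3)) (.pow (.v (.n 0)) 2)) (.v (.n
  3))))) (.add (.mul (.mul (.mul (.c (425580400851611 / 3187645884423)) (.pow (.v (.Q 0)) 3))
  (.pow (.v (.n 0)) 3)) (.v (.n 2))) (.add (.mul (.mul (.mul (.c (-1251469076062555 /
  1973304595119)) (.pow (.v (.Q 0)) 3)) (.pow (.v (.n 0)) 4)) (.v (.n 1))) (.mul (.mul (.c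
  (134179210187325014 / 282182557102017)) (.pow (.v (.Q 0)) 3)) (.pow (.v (.n 0)) 6)))))))) (.add
  (.add (.add (.add (.add (.mul (.mul (.mul (.c (1384930735 / 1247061816)) (.pow (.v (.Q 0)) 3))
  (.v (.n 1))) (.v (.n 3))) (.mul (.mul (.c (-34880800937 / 8105901804)) (.pow (.v (.Q 0)) 3))
  (.pow (.v (.n 1)) 3))) (.add (.mul (.mul (.c (457955717 / 34640606)) (.pow (.v (.Q 0)) 3))
  (.pow (.v (.n 2)) 2)) (.add (.mul (.mul (.mul (.c (-10891630595 / 1143139998)) (.pow (.v (.Q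
  0)) 4)) (.v (.n 0))) (.v (.n 2))) (.mul (.mul (.mul (.c (102090243466 / 7430409987)) (.pow (.v
  (.Q 0)) 4)) (.pow (.v (.n 0)) 2)) (.v (.n 1)))))) (.add (.add (.mul (.mul (.c (-137026099074322
  / 1062548628141)) (.pow (.v (.Q 0)) 4)) (.pow (.v (.n 0)) 4)) (.add (.mul (.mul (.c (-7569259 /
  34640606)) (.pow (.v (.Q 0)) 4)) (.pow (.v (.n 1)) 2)) (.mul (.mul (.c (-2 / 1332331)) (.pow
  (.v (.Q 0)) 4)) (.v (.n 3))))) (.add (.mul (.mul (.c (326420574 / 190523333)) (.pow (.v (.Q 0))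
  5)) (.pow (.v (.n 0)) 2)) (.add (.mul (.mul (.c (-18 / 1332331)) (.pow (.v (.Q 0)) 5)) (.v (.n
  1))) (.mul (.mul (.mul (.c (910308986520 / 2927131207)) (.v (.n 0))) (.v (.n 1))) (.pow (.v (.n
  2)) 3)))))) (.add (.add (.add (.mul (.mul (.mul (.mul (.c (-7081700110460 / 26344180863)) (.v
  (.n 0))) (.pow (.v (.n 1)) 2)) (.v (.n 2))) (.v (.n 3))) (.mul (.mul (.mul (.c (10294738471400
  / 798308511)) (.v (.n 0))) (.pow (.v (.n 1)) 4)) (.v (.n 2)))) (.add (.mul (.mul (.mul (.c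
  (-13615032680 / 798308511)) (.v (.n 0))) (.v (.n 2))) (.pow (.v (.n 3)) 2)) (.add (.mul (.mul
  (.mul (.c (-10338044418410 / 26344180863)) (.pow (.v (.n 0)) 2)) (.v (.n 1))) (.pow (.v (.n 3))
  2)) (.mul (.mul (.mul (.c (25571536232372180 / 3767217863409)) (.pow (.v (.n 0)) 2)) (.pow (.v
  (.n 1)) 2)) (.pow (.v (.n 2)) 2))))) (.add (.add (.mul (.mul (.mul (.c (1131481240521160 /
  96595329831)) (.pow (.v (.n 0)) 2)) (.pow (.v (.n 1)) 3)) (.v (.n 3))) (.add (.mul (.mul (.c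
  (-2838583248002680 / 32198443277)) (.pow (.v (.n 0)) 2)) (.pow (.v (.n 1)) 5)) (.mul (.mul
  (.mul (.c (37440132026510 / 114158117073)) (.pow (.v (.n 0)) 2)) (.pow (.v (.n 2)) 2)) (.v (.n
  3))))) (.add (.mul (.mul (.mul (.mul (.c (25659138516117440 / 3767217863409)) (.pow (.v (.n 0))
  3)) (.v (.n 1))) (.v (.n 2))) (.v (.n 3))) (.add (.mul (.mul (.mul (.c (-191032847750789920 /
  1255739287803)) (.pow (.v (.n 0)) 3)) (.pow (.v (.n 1)) 3)) (.v (.n 2))) (.mul (.mul (.c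
  (-33312808313364560 / 48973832224317)) (.pow (.v (.n 0)) 3)) (.pow (.v (.n 2)) 3))))))) (.add
  (.add (.add (.add (.mul (.mul (.mul (.c (-2206199329450847240 / 76958879209641)) (.pow (.v (.n
  0)) 4)) (.v (.n 1))) (.pow (.v (.n 2)) 2)) (.mul (.mul (.mul (.c (-1409665924332504200 /
  41439396497499)) (.pow (.v (.n 0)) 4)) (.pow (.v (.n 1)) 2)) (.v (.n 3)))) (.add (.mul (.mul
  (.c (943239624940472800 / 1973304595119)) (.pow (.v (.n 0)) 4)) (.pow (.v (.n 1)) 4)) (.add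
  (.mul (.mul (.c (-31520025686180 / 289785989493)) (.pow (.v (.n 0)) 4)) (.pow (.v (.n 3)) 2))
  (.mul (.mul (.mul (.c (104535717187811401280 / 538712154467487)) (.pow (.v (.n 0)) 5)) (.pow
  (.v (.n 1)) 2)) (.v (.n 2)))))) (.add (.add (.mul (.mul (.mul (.c (268839251552596880 /
  41439396497499)) (.pow (.v (.n 0)) 5)) (.v (.n 2))) (.v (.n 3))) (.add (.mul (.mul (.mul (.c
  (-8028014915515273600 / 455833361472489)) (.pow (.v (.n 0)) 6)) (.v (.n 1))) (.v (.n 3))) (.mul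
  (.mul (.c (-504074159290172816320 / 1975277899714119)) (.pow (.v (.n 0)) 6)) (.pow (.v (.n 1))
  3)))) (.add (.mul (.mul (.c (-353326787040545591600 / 5925833699142357)) (.pow (.v (.n 0)) 6))
  (.pow (.v (.n 2)) 2)) (.add (.mul (.mul (.mul (.c (3180442288716645685120 / 5925833699142357))
  (.pow (.v (.n 0)) 7)) (.v (.n 1))) (.v (.n 2))) (.mul (.mul (.c (-14839035584898910537280 /
  9312024384366561)) (.pow (.v (.n 0)) 8)) (.pow (.v (.n 1)) 2)))))) (.add (.add (.add (.mul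
  (.mul (.c (96461516191412063840 / 5014166976197379)) (.pow (.v (.n 0)) 8)) (.v (.n 3))) (.mul
  (.mul (.c (-22340241597184745194880 / 65184170690565927)) (.pow (.v (.n 0)) 9)) (.v (.n 2))))
  (.add (.mul (.mul (.c (10359158264069625572480 / 5925833699142357)) (.pow (.v (.n 0)) 10)) (.v
  (.n 1))) (.add (.mul (.c (-30972402846187272281600 / 65184170690565927)) (.pow (.v (.n 0)) 12))
  (.mul (.mul (.mul (.c (-1423881845 / 20469449)) (.v (.n 1))) (.pow (.v (.n 2)) 2)) (.v (.n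
  3)))))) (.add (.add (.mul (.mul (.c (-493187075 / 16747731)) (.pow (.v (.n 1)) 2)) (.pow (.v
  (.n 3)) 2)) (.add (.mul (.mul (.c (-106238719110 / 225163939)) (.pow (.v (.n 1)) 3)) (.pow (.v
  (.n 2)) 2)) (.mul (.mul (.c (259139522960 / 675491817)) (.pow (.v (.n 1)) 4)) (.v (.n 3)))))
  (.add (.mul (.c (-266000446820 / 225163939)) (.pow (.v (.n 1)) 6)) (.add (.mul (.c (-979292030
  / 266102837)) (.pow (.v (.n 2)) 4)) (.mul (.c (-667850 / 2392533)) (.pow (.v (.n 3)) 3))))))))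

/-- the reduced derivation -/
noncomputable def Vr : Va → Ex
  | .Q 0 => xQ1
  | .n 0 => .v (.n 1)
  | .n 1 => .v (.n 2)
  | .n 2 => .v (.n 3)
  | .n 3 => xN4
  | _ => .c 0

theorem dQ1 (ρ : Va → ℝ) : eval ρ (der Vr xQ1) = eval ρ xQ2 := by
  simp only [xQ1, xQ2, xQ1, xN4, eval, der, Vr, Nat.reduceAdd, Nat.reduceSub, Nat.cast_ofNat, Nat.cast_one, Nat.cast_zero]
  ring

theorem dQ2 (ρ : Va → ℝ) : eval ρ (der Vr xQ2) = eval ρ xQ3 := by
  simp only [xQ2, xQ3, xQ1, xN4, eval, der, Vr, Nat.reduceAdd, Nat.reduceSub, Nat.cast_ofNat, Nat.cast_one, Nat.cast_zero]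
  ring

theorem dQ3 (ρ : Va → ℝ) : eval ρ (der Vr xQ3) = eval ρ xQ4 := by
  simp only [xQ3, xQ4, xQ1, xN4, eval, der, Vr, Nat.reduceAdd, Nat.reduceSub, Nat.cast_ofNat, Nat.cast_one, Nat.cast_zero]
  ring

theorem dQ4 (ρ : Va → ℝ) : eval ρ (der Vr xQ4) = eval ρ xQ5 := by
  simp only [xQ4, xQ5, xQ1, xN4, eval, der, Vr, Nat.reduceAdd, Nat.reduceSub, Nat.cast_ofNat, Nat.cast_one, Nat.cast_zero]
  ring

theorem dN4 (ρ : Va → ℝ) : eval ρ (der Vr xN4) = eval ρ xN5 := by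
  simp only [xN4, xN5, xQ1, xN4, eval, der, Vr, Nat.reduceAdd, Nat.reduceSub, Nat.cast_ofNat, Nat.cast_one, Nat.cast_zero]
  ring

theorem dN5 (ρ : Va → ℝ) : eval ρ (der Vr xN5) = eval ρ xN6 := by
  simp only [xN5, xN6, xQ1, xN4, eval, der, Vr, Nat.reduceAdd, Nat.reduceSub, Nat.cast_ofNat, Nat.cast_one, Nat.cast_zero]
  ring

theorem dT0 (ρ : Va → ℝ) : eval ρ (der Vr xT0) = eval ρ xT1 := by
  simp only [xT0, xT1, xQ1, xN4, eval, der, Vr, Nat.reduceAdd, Nat.reduceSub, Nat.cast_ofNat, Nat.cast_one, Nat.cast_zero]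
  ring

theorem dT1 (ρ : Va → ℝ) : eval ρ (der Vr xT1) = eval ρ xT2 := by
  simp only [xT1, xT2, xQ1, xN4, eval, der, Vr, Nat.reduceAdd, Nat.reduceSub, Nat.cast_ofNat, Nat.cast_one, Nat.cast_zero]
  ring

theorem dT2 (ρ : Va → ℝ) : eval ρ (der Vr xT2) = eval ρ xT3 := by
  simp only [xT2, xT3, xQ1, xN4, eval, der, Vr, Nat.reduceAdd, Nat.reduceSub, Nat.cast_ofNat, Nat.cast_one, Nat.cast_zero]
  ring

theorem dT3 (ρ : Va → ℝ) : eval ρ (der Vr xT3) = eval ρ xT4 := by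
  simp only [xT3, xT4, xQ1, xN4, eval, der, Vr, Nat.reduceAdd, Nat.reduceSub, Nat.cast_ofNat, Nat.cast_one, Nat.cast_zero]
  ring

theorem dT4 (ρ : Va → ℝ) : eval ρ (der Vr xT4) = eval ρ xT5 := by
  simp only [xT4, xT5, xQ1, xN4, eval, der, Vr, Nat.reduceAdd, Nat.reduceSub, Nat.cast_ofNat, Nat.cast_one, Nat.cast_zero]
  ring

end Pool.Agent.W99.GP
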