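import Pool.Agent.W99.GP.Base

set_option autoImplicit false

open Filter Topology

namespace Pool.Agent.W99.GP

open Pool.Agent.TH3.PI Pool.Agent.W5h70.PG

/-- The affine gauge of the curve `U = 1`: `L` is the cube root of its curvature function, and the
jets with respect to `D = L⁻² d/dθ`. -/
structure Gauge (U W : ℝ × ℝ → ℝ) (L p p1 w0 w1 : ℝ → ℝ) (Qj Kj nj : ℕ → ℝ → ℝ) : Prop where
  Lpos : ∀ t, 0 < L t
  L3 : ∀ t, R2 (uu U) 0 t = L t ^ 3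
  dL : HD (fun t => L t ^ 2) L (fun t => p t * L t)
  dp : HD (fun t => L t ^ 2) p p1
  Q0 : ∀ t, Qj 0 t = (L t ^ 4)⁻¹ - p t ^ 2 - p1 t
  dQ : ∀ j, HD (fun t => L t ^ 2) (Qj j) (Qj (j + 1))
  dK : ∀ j, HD (fun t => L t ^ 2) (Kj j) (Kj (j + 1))
  dn : ∀ j, HD (fun t => L t ^ 2) (nj j) (nj (j + 1))
  K0 : ∀ t, Kj 0 t = R2 (uu W) 0 t / L t ^ 3
  w : ∀ t, w0 t = L t * uu W 0 t
  dw : HD (fun t => L t ^ 2) w0 w1
  n0 : ∀ t, nj 0 t = -w1 t / (2 * w0 t)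

section

variable {U W : ℝ × ℝ → ℝ} {L p p1 w0 w1 : ℝ → ℝ} {Qj Kj nj : ℕ → ℝ → ℝ}

noncomputable def gs (U : ℝ × ℝ → ℝ) (L p : ℝ → ℝ) (Qj Kj nj : ℕ → ℝ → ℝ) (e κ θ : ℝ) : ℕ → ℝ → ℝ
  | 0 => fun z => L θ * (G0 e ((L θ ^ 2)⁻¹) θ (uu U) z - (uu U 0 θ - κ * ((L θ ^ 2)⁻¹) * z))
  | 1 => fun z => L θ * (G1 e ((L θ ^ 2)⁻¹) θ (uu U) z + κ * ((L θ ^ 2)⁻¹))
  | j + 2 => fun z => rz L e θ z ^ (2 * j + 3) * eval (rl L p Qj Kj nj e θ z) (BB j)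

noncomputable def bs (W : ℝ × ℝ → ℝ) (L p : ℝ → ℝ) (Qj Kj nj : ℕ → ℝ → ℝ) (e θ : ℝ) : ℕ → ℝ → ℝ
  | 0 => fun z => L θ * G0 e ((L θ ^ 2)⁻¹) θ (uu W) z
  | 1 => fun z => L θ * G1 e ((L θ ^ 2)⁻¹) θ (uu W) z
  | j + 2 => fun z => rz L e θ z ^ (2 * j + 3) * eval (rl L p Qj Kj nj e θ z) (CC j)

lemma second (hL : ∀ t, 0 < L t) (e θ z : ℝ) (f : ℕ → ℝ → ℝ) :
    L θ * G2 e ((L θ ^ 2)⁻¹) θ f z
      = rz L e θ z ^ 3 * (R2 f 0 (tz L e θ z) / L (tz L e θ z) ^ 3) := by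
  have h1 := (hL θ).ne'
  have h2 := (hL (tz L e θ z)).ne'
  unfold G2 rz
  change L θ * (((L θ ^ 2)⁻¹) ^ 2 * JJ e ((L θ ^ 2)⁻¹) z ^ 3 * R2 f 0 (tz L e θ z)) = _
  field_simp

lemma rel (H : Gauge U W L p p1 w0 w1 Qj Kj nj)
    (smU : ContDiffOn ℝ (⊤ : ℕ∞) U {x | x ≠ 0}) (smW : ContDiffOn ℝ (⊤ : ℕ∞) W {x | x ≠ 0})
    {θ κ e : ℝ} (he : e = (L θ ^ 2)⁻¹ * (κ + uu U 1 θ) / uu U 0 θ) (hu : 0 < uu U 0 θ)
    (hw : 0 < w0 θ)
    (hc : ∀ᶠ z in 𝓝 (0 : ℝ),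
      (G0 e ((L θ ^ 2)⁻¹) θ (uu U) z - (uu U 0 θ - κ * ((L θ ^ 2)⁻¹) * z))
        * G0 e ((L θ ^ 2)⁻¹) θ (uu W) (-z)
      = (G0 e ((L θ ^ 2)⁻¹) θ (uu U) (-z) - (uu U 0 θ - κ * ((L θ ^ 2)⁻¹) * (-z)))
        * G0 e ((L θ ^ 2)⁻¹) θ (uu W) z) :
    ∃ g b : ℕ → ℝ, g 0 = 0 ∧ g 1 = 0 ∧ b 0 = w0 θ ∧ b 1 = -(nj 0 θ * w0 θ) ∧
      (∀ j, g (j + 2) = eval (rho Qj Kj nj (nj 0 θ) θ) (BB j)) ∧
      (∀ j, b (j + 2) = eval (rho Qj Kj nj (nj 0 θ) θ) (CC j)) ∧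
      ∀ m, Odd m → ∑ i ∈ Finset.range (m + 1),
        (m.choose i : ℝ) * (g (m - i) * ((-1) ^ i * b i)) = 0 := by
  have hL := H.Lpos
  have hLθ := (hL θ).ne'
  have hr0 : rz L e θ 0 = 1 := by
    unfold rz tz
    rw [th_zero, JJ_zero]
    field_simp
  have ht0 : tz L e θ 0 = θ := th_zero _ _ _
  have hg : ∀ k, ∀ᶠ z in 𝓝 (0 : ℝ), HasDerivAt (gs U L p Qj Kj nj e κ θ k)
      (gs U L p Qj Kj nj e κ θ (k + 1) z) z := by
    intro k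
    filter_upwards [ev_pos e] with z hz
    match k with
    | 0 =>
      have h1 := d0 (θ := θ) (δ := (L θ ^ 2)⁻¹) (huu smU) hz
      have h2 : HasDerivAt (fun z : ℝ => uu U 0 θ - κ * ((L θ ^ 2)⁻¹) * z)
          (-(κ * ((L θ ^ 2)⁻¹))) z := by
        simpa using ((hasDerivAt_id z).const_mul (κ * ((L θ ^ 2)⁻¹))).const_sub (uu U 0 θ)
      refine ((h1.fun_sub h2).const_mul (L θ)).congr_deriv ?_
      simp only [gs]
      ring
    | 1 =>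
      have h1 := d1 (θ := θ) (δ := (L θ ^ 2)⁻¹) (huu smU) hz
      refine ((h1.add_const (κ * ((L θ ^ 2)⁻¹))).const_mul (L θ)).congr_deriv ?_
      rw [second hL, H.L3]
      have := (hL (tz L e θ z)).ne'
      simp only [gs, BB, eval]
      field_simp
    | j + 2 =>
      exact ladder hL H.dL H.dp H.Q0 H.dQ H.dK H.dn hz (BB j) j
  have hb : ∀ k, ∀ᶠ z in 𝓝 (0 : ℝ), HasDerivAt (bs W L p Qj Kj nj e θ k)
      (bs W L p Qj Kj nj e θ (k + 1) z) z := by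
    intro k
    filter_upwards [ev_pos e] with z hz
    match k with
    | 0 => exact (d0 (θ := θ) (δ := (L θ ^ 2)⁻¹) (huu smW) hz).const_mul (L θ)
    | 1 =>
      have h1 := d1 (θ := θ) (δ := (L θ ^ 2)⁻¹) (huu smW) hz
      refine (h1.const_mul (L θ)).congr_deriv ?_
      rw [second hL]
      simp only [bs, CC, eval, rl, rho, H.K0]
    | j + 2 =>
      exact ladder hL H.dL H.dp H.Q0 H.dQ H.dK H.dn hz (CC j) j
  have hpar : ∀ m, Odd m → ∑ i ∈ Finset.range (m + 1), (m.choose i : ℝ) *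
      (gs U L p Qj Kj nj e κ θ (m - i) 0 * ((-1) ^ i * bs W L p Qj Kj nj e θ i 0)) = 0 := by
    intro m hm
    have h1 := parity_zero (g := gs U L p Qj Kj nj e κ θ) (b := bs W L p Qj Kj nj e θ)
      (N := m) (fun k _ => hg k) (fun k _ => hb k) (by
        filter_upwards [hc] with z hz
        simp only [gs, bs]
        linear_combination (L θ) ^ 2 * hz) m le_rfl hm
    unfold Fm at h1
    rw [Finset.Nat.sum_antidiagonal_eq_sum_range_succ_mk] at h1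
    simpa using h1
  -- values at 0
  have hg0 : gs U L p Qj Kj nj e κ θ 0 0 = 0 := by
    simp only [gs, G0]
    rw [th_zero, JJ_zero]
    simp [qq]
  have hg1 : gs U L p Qj Kj nj e κ θ 1 0 = 0 := by
    simp only [gs, G1]
    rw [th_zero, JJ_zero, mm_zero, he]
    field_simp
    ring
  have hb0 : bs W L p Qj Kj nj e θ 0 0 = w0 θ := by
    simp only [bs, G0]
    rw [th_zero, JJ_zero, H.w]
    simp [qq]
  have hs0 : sz L p e θ 0 = -e - p θ := by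
    unfold sz
    rw [ht0, mm_zero]
    field_simp
  have hw1 : w1 θ = p θ * w0 θ + uu W 1 θ / L θ := by
    have h1 := (H.dL θ).mul (huu smW 0 θ)
    have h2 := h1.congr_of_eventuallyEq (f₁ := w0) (Filter.Eventually.of_forall fun t => H.w t)
    have h3 := (H.dw θ).unique h2
    simp only [smul_eq_mul] at h3
    have h4 : L θ ^ 2 ≠ 0 := pow_ne_zero 2 hLθ
    apply mul_left_cancel₀ h4
    rw [h3, H.w]
    field_simp
  have hb1 : bs W L p Qj Kj nj e θ 1 0 = sz L p e θ 0 * w0 θ + w1 θ := by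
    rw [hw1, hs0, H.w]
    simp only [bs, G1]
    rw [th_zero, JJ_zero, mm_zero]
    field_simp
    ring
  have hrl : rl L p Qj Kj nj e θ 0 = rho Qj Kj nj (sz L p e θ 0) θ := by
    unfold rl
    rw [ht0]
  have h3 := hpar 3 (by decide)
  have hs : sz L p e θ 0 = nj 0 θ := by
    have hg2 : gs U L p Qj Kj nj e κ θ 2 0 = 1 := by
      simp only [gs, hr0, BB, eval]
      norm_num
    have hg3 : gs U L p Qj Kj nj e κ θ 3 0 = -3 * sz L p e θ 0 := by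
      simp only [gs, hr0, BB, lad, der, eval, hrl, rho]
      norm_num
    simp only [Finset.sum_range_succ, Finset.sum_range_zero, Nat.sub_zero, Nat.reduceSub, hg0, hg1,
      hg2, hg3, hb0, hb1] at h3
    norm_num [Nat.choose] at h3
    rw [H.n0, eq_div_iff (by positivity)]
    linear_combination (-1 / 3) * h3
  refine ⟨fun k => gs U L p Qj Kj nj e κ θ k 0, fun k => bs W L p Qj Kj nj e θ k 0, hg0, hg1, hb0,
    ?_, fun j => ?_, fun j => ?_, hpar⟩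
  · change bs W L p Qj Kj nj e θ 1 0 = _
    rw [hb1, hs, H.n0]
    field_simp
    ring
  · simp only [gs, hr0, hrl, hs, one_pow, one_mul]
  · simp only [bs, hr0, hrl, hs, one_pow, one_mul]

end

end Pool.Agent.W99.GP
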