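import Pool.Agent.W99.GP.Core

set_option autoImplicit false

open Filter Topology

namespace Pool.Agent.W99.GP

open Pool.Agent.TH3.PI Pool.Agent.W5h70.PG

/-- the derivation `ν⁻¹ d/dt` -/
noncomputable def Dn (ν f : ℝ → ℝ) : ℝ → ℝ := fun t => (ν t)⁻¹ * deriv f t

lemma contDiff_Dn {ν f : ℝ → ℝ} (hν : ContDiff ℝ (⊤ : ℕ∞) ν) (h0 : ∀ t, ν t ≠ 0)
    (hf : ContDiff ℝ (⊤ : ℕ∞) f) : ContDiff ℝ (⊤ : ℕ∞) (Dn ν f) :=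
  (hν.inv h0).mul (hf.iterate_deriv 1)

lemma HD_Dn {ν f : ℝ → ℝ} (h0 : ∀ t, ν t ≠ 0) (hf : ContDiff ℝ (⊤ : ℕ∞) f) :
    HD ν f (Dn ν f) := fun t => by
  have h1 := ((hf.differentiable (by simp)) t).hasDerivAt
  refine h1.congr_deriv ?_
  unfold Dn
  rw [smul_eq_mul, mul_inv_cancel_left₀ (h0 t)]

/-- the jets -/
noncomputable def Jn (ν f : ℝ → ℝ) (j : ℕ) : ℝ → ℝ := (Dn ν)^[j] f

lemma contDiff_Jn {ν f : ℝ → ℝ} (hν : ContDiff ℝ (⊤ : ℕ∞) ν) (h0 : ∀ t, ν t ≠ 0)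
    (hf : ContDiff ℝ (⊤ : ℕ∞) f) (j : ℕ) : ContDiff ℝ (⊤ : ℕ∞) (Jn ν f j) := by
  induction j with
  | zero => exact hf
  | succ j ih =>
    unfold Jn
    rw [Function.iterate_succ_apply']
    exact contDiff_Dn hν h0 ih

lemma HD_Jn {ν f : ℝ → ℝ} (hν : ContDiff ℝ (⊤ : ℕ∞) ν) (h0 : ∀ t, ν t ≠ 0)
    (hf : ContDiff ℝ (⊤ : ℕ∞) f) (j : ℕ) : HD ν (Jn ν f j) (Jn ν f (j + 1)) := by
  have h1 := HD_Dn h0 (contDiff_Jn hν h0 hf j)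
  have h2 : Jn ν f (j + 1) = Dn ν (Jn ν f j) := by
    unfold Jn
    rw [Function.iterate_succ_apply']
  rw [h2]
  exact h1

/-- `D² (L f) = (f + f'') / L³ - Q L f` -/
lemma second_order {L p p1 Q : ℝ → ℝ} (hL : ∀ t, 0 < L t)
    (hLp : HD (fun t => L t ^ 2) L (fun t => p t * L t)) (hp : HD (fun t => L t ^ 2) p p1)
    (hQ : ∀ t, Q t = (L t ^ 4)⁻¹ - p t ^ 2 - p1 t) {f : ℕ → ℝ → ℝ}
    (hf : ∀ k t, HasDerivAt (f k) (f (k + 1) t) t) :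
    HD (fun t => L t ^ 2) (fun t => L t * f 0 t) (fun t => p t * (L t * f 0 t) + f 1 t / L t) ∧
    HD (fun t => L t ^ 2) (fun t => p t * (L t * f 0 t) + f 1 t / L t)
      (fun t => R2 f 0 t / L t ^ 3 - Q t * (L t * f 0 t)) := by
  have h1 : HD (fun t => L t ^ 2) (fun t => L t * f 0 t)
      (fun t => p t * (L t * f 0 t) + f 1 t / L t) := fun t => by
    have h0 := (hL t).ne'
    refine HasDerivAt.congr_deriv ((hLp t).fun_mul (hf 0 t)) ?_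
    simp only [smul_eq_mul]
    field_simp
  refine ⟨h1, fun t => ?_⟩
  have h0 := (hL t).ne'
  refine HasDerivAt.congr_deriv (((hp t).fun_mul (h1 t)).fun_add
    ((hf 1 t).fun_div (hLp t) h0)) ?_
  simp only [smul_eq_mul, hQ, R2]
  field_simp
  ring

section

variable {U W : ℝ × ℝ → ℝ}

lemma contDiff_uu {f : ℝ × ℝ → ℝ} (smooth : ContDiffOn ℝ (⊤ : ℕ∞) f {x | x ≠ 0}) (k : ℕ) :
    ContDiff ℝ (⊤ : ℕ∞) (uu f k) := by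
  unfold uu
  rw [iteratedDeriv_eq_iterate]
  exact (contDiff_circ smooth).iterate_deriv k

/-- the gauge exists -/
theorem exists_gauge (smU : ContDiffOn ℝ (⊤ : ℕ∞) U {x | x ≠ 0})
    (smW : ContDiffOn ℝ (⊤ : ℕ∞) W {x | x ≠ 0}) (hρ : ∀ t, 0 < R2 (uu U) 0 t)
    (posW : ∀ x, x ≠ 0 → 0 < W x) :
    ∃ (L p p1 w0 w1 : ℝ → ℝ) (Qj Kj nj : ℕ → ℝ → ℝ), Gauge U W L p p1 w0 w1 Qj Kj nj ∧
      ContDiff ℝ (⊤ : ℕ∞) L ∧ ∀ t, L (t + 2 * Real.pi) = L t := by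
  set L : ℝ → ℝ := fun t => (R2 (uu U) 0 t) ^ (1 / 3 : ℝ) with hLdef
  have hL : ∀ t, 0 < L t := fun t => Real.rpow_pos_of_pos (hρ t) _
  have hR : ∀ {f : ℝ × ℝ → ℝ}, ContDiffOn ℝ (⊤ : ℕ∞) f {x | x ≠ 0} →
      ContDiff ℝ (⊤ : ℕ∞) (R2 (uu f) 0) := fun hf => (contDiff_uu hf 0).add (contDiff_uu hf 2)
  have cL : ContDiff ℝ (⊤ : ℕ∞) L := (hR smU).rpow_const_of_ne fun t => (hρ t).ne'
  have hν0 : ∀ t, L t ^ 2 ≠ 0 := fun t => pow_ne_zero 2 (hL t).ne'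
  have cν : ContDiff ℝ (⊤ : ℕ∞) (fun t => L t ^ 2) := cL.pow 2
  set ν : ℝ → ℝ := fun t => L t ^ 2 with hνdef
  set p : ℝ → ℝ := fun t => Dn ν L t / L t with hpdef
  have cp : ContDiff ℝ (⊤ : ℕ∞) p := (contDiff_Dn cν hν0 cL).div cL fun t => (hL t).ne'
  set p1 : ℝ → ℝ := Dn ν p with hp1def
  have cp1 : ContDiff ℝ (⊤ : ℕ∞) p1 := contDiff_Dn cν hν0 cp
  set Q0 : ℝ → ℝ := fun t => (L t ^ 4)⁻¹ - p t ^ 2 - p1 t with hQ0def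
  have cQ0 : ContDiff ℝ (⊤ : ℕ∞) Q0 :=
    (((cL.pow 4).inv fun t => pow_ne_zero 4 (hL t).ne').sub (cp.pow 2)).sub cp1
  set K0 : ℝ → ℝ := fun t => R2 (uu W) 0 t / L t ^ 3 with hK0def
  have cK0 : ContDiff ℝ (⊤ : ℕ∞) K0 := (hR smW).div (cL.pow 3) fun t => pow_ne_zero 3 (hL t).ne'
  set w0 : ℝ → ℝ := fun t => L t * uu W 0 t with hw0def
  have cw0 : ContDiff ℝ (⊤ : ℕ∞) w0 := cL.mul (contDiff_uu smW 0)
  set w1 : ℝ → ℝ := Dn ν w0 with hw1def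
  have cw1 : ContDiff ℝ (⊤ : ℕ∞) w1 := contDiff_Dn cν hν0 cw0
  have hw0 : ∀ t, 0 < w0 t := fun t => mul_pos (hL t) (uu0_pos posW t)
  set n0 : ℝ → ℝ := fun t => -w1 t / (2 * w0 t) with hn0def
  have cn0 : ContDiff ℝ (⊤ : ℕ∞) n0 := cw1.neg.div (contDiff_const.mul cw0) fun t =>
    (mul_pos two_pos (hw0 t)).ne'
  refine ⟨L, p, p1, w0, w1, Jn ν Q0, Jn ν K0, Jn ν n0, ⟨hL, fun t => ?_, ?_, HD_Dn hν0 cp,
    fun t => rfl, HD_Jn cν hν0 cQ0, HD_Jn cν hν0 cK0, HD_Jn cν hν0 cn0, fun t => rfl, fun t => rfl,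
    HD_Dn hν0 cw0, fun t => rfl⟩, cL, fun t => ?_⟩
  · rw [hLdef]
    simp only
    rw [← Real.rpow_natCast, ← Real.rpow_mul (hρ t).le]
    norm_num
  · refine (HD_Dn hν0 cL).congr (fun t => rfl) fun t => ?_
    rw [hpdef]
    simp only
    rw [div_mul_cancel₀ _ (hL t).ne']
  · simp only [hLdef, R2, uu_per]

end

end Pool.Agent.W99.GP
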