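import Pool.Agent.W99.GP.Rel
import Pool.Agent.W99.GP.Alg
import Pool.Agent.W99.GP.Red
import Pool.Agent.W99.GP.Ode

set_option autoImplicit false
set_option linter.unusedSimpArgs false

open Filter Topology

namespace Pool.Agent.W99.GP

open Pool.Agent.TH3.PI Pool.Agent.W5h70.PG

section

variable {ν : ℝ → ℝ} {Qj Kj nj : ℕ → ℝ → ℝ}

lemma HD_rt (dQ : ∀ j, HD ν (Qj j) (Qj (j + 1))) (dK : ∀ j, HD ν (Kj j) (Kj (j + 1)))
    (dn : ∀ j, HD ν (nj j) (nj (j + 1))) (e : Ex) :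
    HD ν (fun t => eval (rho Qj Kj nj (nj 0 t) t) e)
      (fun t => eval (rho Qj Kj nj (nj 0 t) t) (der Vt e)) := fun t => by
  refine hasDerivAt_eval (ρ := fun t => rho Qj Kj nj (nj 0 t) t) (V := Vt) (φ := ν t) (fun i => ?_) e
  cases i with
  | s => exact dn 0 t
  | Q j => exact dQ j t
  | K j => exact dK j t
  | n j => exact dn j t

/-- the five basic variables -/
def rr (Qj nj : ℕ → ℝ → ℝ) (t : ℝ) : Va → ℝ
  | .Q 0 => Qj 0 t
  | .n 0 => nj 0 t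
  | .n 1 => nj 1 t
  | .n 2 => nj 2 t
  | .n 3 => nj 3 t
  | _ => 0

lemma hasDerivAt_zero' (t : ℝ) : HasDerivAt (fun _ : ℝ => (0 : ℝ)) 0 t := hasDerivAt_const t 0

lemma HD_rr (dQ : ∀ j, HD ν (Qj j) (Qj (j + 1)))
    (dn : ∀ j, HD ν (nj j) (nj (j + 1))) (hQ1 : ∀ t, Qj 1 t = eval (rr Qj nj t) xQ1)
    (hN4 : ∀ t, nj 4 t = eval (rr Qj nj t) xN4) (e : Ex) :
    HD ν (fun t => eval (rr Qj nj t) e) (fun t => eval (rr Qj nj t) (der Vr e)) := fun t => by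
  refine hasDerivAt_eval (ρ := rr Qj nj) (V := Vr) (φ := ν t) (fun i => ?_) e
  match i with
  | .s => simpa [Vr, eval, rr] using hasDerivAt_zero' t
  | .K j => simpa [Vr, eval, rr] using hasDerivAt_zero' t
  | .Q 0 =>
    have := dQ 0 t
    rw [zero_add, hQ1 t] at this
    exact this
  | .Q (j + 1) => simpa [Vr, eval, rr] using hasDerivAt_zero' t
  | .n 0 => exact dn 0 t
  | .n 1 => exact dn 1 t
  | .n 2 => exact dn 2 t
  | .n 3 =>
    have := dn 3 t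
    rw [show 3 + 1 = 4 from rfl, hN4 t] at this
    exact this
  | .n (j + 4) => simpa [Vr, eval, rr] using hasDerivAt_zero' t

/-- the reduction of all jets to the five basic ones -/
theorem reduce (hν : ∀ t, ν t ≠ 0) (dQ : ∀ j, HD ν (Qj j) (Qj (j + 1)))
    (dK : ∀ j, HD ν (Kj j) (Kj (j + 1))) (dn : ∀ j, HD ν (nj j) (nj (j + 1)))
    (h5 : ∀ t, eval (rho Qj Kj nj (nj 0 t) t) xG5 = 0)
    (h7 : ∀ t, eval (rho Qj Kj nj (nj 0 t) t) xG7 = 0)
    (h9 : ∀ t, eval (rho Qj Kj nj (nj 0 t) t) xG9 = 0) :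
    (∀ t, Qj 1 t = eval (rr Qj nj t) xQ1) ∧ (∀ t, nj 4 t = eval (rr Qj nj t) xN4) ∧
    (∀ t, eval (rr Qj nj t) xT0 = 0) ∧ (∀ t, eval (rr Qj nj t) xT1 = 0) ∧
    (∀ t, eval (rr Qj nj t) xT2 = 0) ∧ (∀ t, eval (rr Qj nj t) xT3 = 0) ∧
    (∀ t, eval (rr Qj nj t) xT4 = 0) ∧ (∀ t, eval (rr Qj nj t) xT5 = 0) := by
  have e1 : ∀ t, Qj 1 t = eval (rho Qj Kj nj (nj 0 t) t) xQ1 := by
    intro t
    have h := h5 t
    simp only [xG5, xQ1, eval, rho] at h ⊢
    linear_combination (-120 / 13) * h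
  have f1 : HD ν (Qj 1) _ := (HD_rt dQ dK dn xQ1).congr (fun t => (e1 t).symm) (fun t => rfl)
  have e2 : ∀ t, Qj 2 t = eval (rho Qj Kj nj (nj 0 t) t) (der Vt xQ1) := fun t =>
    (dQ 1).unique hν f1 t
  have f2 : HD ν (Qj 2) _ := (HD_rt dQ dK dn (der Vt xQ1)).congr (fun t => (e2 t).symm)
    (fun t => rfl)
  have e3 : ∀ t, Qj 3 t = eval (rho Qj Kj nj (nj 0 t) t) (der Vt (der Vt xQ1)) := fun t =>
    (dQ 2).unique hν f2 t
  have hQ1 : ∀ t, Qj 1 t = eval (rr Qj nj t) xQ1 := by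
    intro t
    rw [e1 t]
    simp only [xQ1, eval, rho, rr]
  have hN4 : ∀ t, nj 4 t = eval (rr Qj nj t) xN4 := by
    intro t
    have h := h7 t
    have g1 := e1 t
    have g2 := e2 t
    have g3 := e3 t
    simp only [xG7, xQ1, xN4, eval, rho, rr, der, Vt, Nat.reduceAdd, Nat.reduceSub,
      Nat.cast_ofNat, Nat.cast_one, Nat.cast_zero] at h g1 g2 g3 ⊢
    rw [g3, g2, g1] at h
    linear_combination (10920 / 11) * h
  have D := HD_rr dQ dn hQ1 hN4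
  have hQ2 : ∀ t, Qj 2 t = eval (rr Qj nj t) xQ2 := fun t => by
    rw [← dQ1]
    exact (dQ 1).unique hν ((D xQ1).congr (fun t => (hQ1 t).symm) (fun t => rfl)) t
  have hQ3 : ∀ t, Qj 3 t = eval (rr Qj nj t) xQ3 := fun t => by
    rw [← dQ2]
    exact (dQ 2).unique hν ((D xQ2).congr (fun t => (hQ2 t).symm) (fun t => rfl)) t
  have hQ4 : ∀ t, Qj 4 t = eval (rr Qj nj t) xQ4 := fun t => by
    rw [← dQ3]
    exact (dQ 3).unique hν ((D xQ3).congr (fun t => (hQ3 t).symm) (fun t => rfl)) t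
  have hQ5 : ∀ t, Qj 5 t = eval (rr Qj nj t) xQ5 := fun t => by
    rw [← dQ4]
    exact (dQ 4).unique hν ((D xQ4).congr (fun t => (hQ4 t).symm) (fun t => rfl)) t
  have hN5 : ∀ t, nj 5 t = eval (rr Qj nj t) xN5 := fun t => by
    rw [← dN4]
    exact (dn 4).unique hν ((D xN4).congr (fun t => (hN4 t).symm) (fun t => rfl)) t
  have hN6 : ∀ t, nj 6 t = eval (rr Qj nj t) xN6 := fun t => by
    rw [← dN5]
    exact (dn 5).unique hν ((D xN5).congr (fun t => (hN5 t).symm) (fun t => rfl)) t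
  have t0 : ∀ t, eval (rr Qj nj t) xT0 = 0 := by
    intro t
    have h := h9 t
    simp only [xG9, eval, rho] at h
    rw [hQ1, hQ2, hQ3, hQ4, hQ5, hN4, hN5, hN6] at h
    simp only [xQ1, xQ2, xQ3, xQ4, xQ5, xN4, xN5, xN6, xT0, eval, rr] at h ⊢
    linear_combination h
  have next : ∀ a b : Ex, (∀ ρ, eval ρ (der Vr a) = eval ρ b) → (∀ t, eval (rr Qj nj t) a = 0) →
      ∀ t, eval (rr Qj nj t) b = 0 := by
    intro a b hab ha t
    rw [← hab]
    have h1 := D a t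
    have h2 : HasDerivAt (fun t => eval (rr Qj nj t) a) 0 t := by
      have : (fun t => eval (rr Qj nj t) a) = fun _ => 0 := funext ha
      rw [this]
      exact hasDerivAt_const t 0
    have h3 := h1.unique h2
    exact (mul_eq_zero.1 h3).resolve_left (hν t)
  have t1 := next _ _ dT0 t0
  have t2 := next _ _ dT1 t1
  have t3 := next _ _ dT2 t2
  have t4 := next _ _ dT3 t3
  have t5 := next _ _ dT4 t4
  exact ⟨hQ1, hN4, t0, t1, t2, t3, t4, t5⟩

end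

end Pool.Agent.W99.GP
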